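import Mathlib

/-!
Basic tools: coding of pairs and finite sets of natural numbers, the ultrapower `H` of the
natural numbers, internal functions, pairs and coded sets in `H`, and countable saturation.
-/

namespace Pool.Agent.Helper803.Cads

open Filter
open scoped Classical

noncomputable section

/-- The first component of a code of a pair. -/
def q1 (t : ℕ) : ℕ := t.unpair.1

/-- The second component of a code of a pair. -/
def q2 (t : ℕ) : ℕ := t.unpair.2

@[simp] lemma q1_pair (a b : ℕ) : q1 (Nat.pair a b) = a := by simp [q1]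
@[simp] lemma q2_pair (a b : ℕ) : q2 (Nat.pair a b) = b := by simp [q2]
@[simp] lemma pair_q (t : ℕ) : Nat.pair (q1 t) (q2 t) = t := by simp [q1, q2]

/-- The finite set with code `n`. -/
def fs (n : ℕ) : Finset ℕ := (Denumerable.eqv (Finset ℕ)).symm n

/-- The code of a finite set. -/
def cd (s : Finset ℕ) : ℕ := Denumerable.eqv (Finset ℕ) s

@[simp] lemma fs_cd (s : Finset ℕ) : fs (cd s) = s := by simp [fs, cd]
@[simp] lemma cd_fs (n : ℕ) : cd (fs n) = n := by simp [fs, cd]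

lemma fs_inj {a b : ℕ} (h : fs a = fs b) : a = b := by
  rw [← cd_fs a, ← cd_fs b, h]

/-- The code of the part below `w` of the set with code `s`. -/
def rs (s w : ℕ) : ℕ := cd ((fs s).filter (fun x => x < w))

@[simp] lemma mem_rs (x s w : ℕ) : x ∈ fs (rs s w) ↔ x ∈ fs s ∧ x < w := by simp [rs]

/-- The code of the set of all `x < w` with the property `P`. -/
def cf (w : ℕ) (P : ℕ → Prop) : ℕ := cd ((Finset.range w).filter P)

@[simp] lemma mem_cf (x w : ℕ) (P : ℕ → Prop) : x ∈ fs (cf w P) ↔ x < w ∧ P x := by simp [cf]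

/-- The nonprincipal ultrafilter used. -/
abbrev U : Ultrafilter ℕ := hyperfilter ℕ

/-- The ultrapower of the natural numbers. -/
abbrev H : Type := (U : Filter ℕ).Germ ℕ

lemma rep (x : H) : ∃ f : ℕ → ℕ, x = (f : H) := by
  obtain ⟨f, hf⟩ := Quotient.exists_rep x
  exact ⟨f, hf.symm⟩

/-- The internal function given by a standard function. -/
def ap (F : ℕ → ℕ) (x : H) : H := Germ.map F x

/-- The internal pairing. -/
def pr (x y : H) : H := Germ.map₂ Nat.pair x y

/-- The internal membership relation for coded sets. -/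
def mem (x s : H) : Prop := Germ.LiftRel (fun a b => a ∈ fs b) x s

/-- The infinite element given by the identity. -/
def bb : H := ((fun i => i : ℕ → ℕ) : H)

lemma ap_coe (F f : ℕ → ℕ) : ap F (f : H) = ((fun i => F (f i) : ℕ → ℕ) : H) := rfl
lemma pr_coe (f g : ℕ → ℕ) : pr (f : H) (g : H) = ((fun i => Nat.pair (f i) (g i) : ℕ → ℕ) : H) :=
  rfl
lemma mem_coe (f g : ℕ → ℕ) : mem (f : H) (g : H) ↔ ∀ᶠ i in U, f i ∈ fs (g i) := Iff.rfl
lemma eq_coe (f g : ℕ → ℕ) : (f : H) = (g : H) ↔ ∀ᶠ i in U, f i = g i := Germ.coe_eq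
lemma lt_coe (f g : ℕ → ℕ) : (f : H) < (g : H) ↔ ∀ᶠ i in U, f i < g i := Germ.coe_lt
lemma le_coe (f g : ℕ → ℕ) : (f : H) ≤ (g : H) ↔ ∀ᶠ i in U, f i ≤ g i := Germ.coe_le

lemma ev_not {p : ℕ → Prop} : (¬ ∀ᶠ i in U, p i) ↔ ∀ᶠ i in U, ¬ p i :=
  (Ultrafilter.eventually_not).symm

lemma ev_or {p q : ℕ → Prop} : (∀ᶠ i in U, p i ∨ q i) ↔ (∀ᶠ i in U, p i) ∨ ∀ᶠ i in U, q i :=
  Ultrafilter.eventually_or

lemma ev_exists {P : ℕ → ℕ → Prop} (h : ∀ᶠ i in U, ∃ y, P i y) :
    ∃ f : ℕ → ℕ, ∀ᶠ i in U, P i (f i) := by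
  refine ⟨fun i => if h : ∃ y, P i y then h.choose else 0, ?_⟩
  filter_upwards [h] with i hi
  simp only [hi, dite_true]
  exact hi.choose_spec

lemma ev_forall {P : ℕ → ℕ → Prop} (h : ∀ f : ℕ → ℕ, ∀ᶠ i in U, P i (f i)) :
    ∀ᶠ i in U, ∀ y, P i y := by
  by_contra hc
  rw [ev_not] at hc
  have h2 : ∀ᶠ i in U, ∃ y, ¬ P i y := by
    filter_upwards [hc] with i hi
    push Not at hi
    exact hi
  obtain ⟨f, hf⟩ := ev_exists h2
  have h3 := h f
  have h4 : ∀ᶠ _i in (U : Filter ℕ), False := by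
    filter_upwards [hf, h3] with i h5 h6
    exact h5 h6
  exact (Filter.eventually_false_iff_eq_bot.1 h4 ▸ (inferInstance : (U : Filter ℕ).NeBot)).ne rfl

lemma ev_imp {p q : ℕ → Prop} (h : (∀ᶠ i in U, p i) → ∀ᶠ i in U, q i) :
    ∀ᶠ i in U, p i → q i := by
  by_cases hp : ∀ᶠ i in U, p i
  · filter_upwards [h hp] with i hi _
    exact hi
  · rw [ev_not] at hp
    filter_upwards [hp] with i hi h2
    exact absurd h2 hi

lemma ev_false (h : ∀ᶠ _i in (U : Filter ℕ), False) : False :=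
  (Filter.eventually_false_iff_eq_bot.1 h ▸ (inferInstance : (U : Filter ℕ).NeBot)).ne rfl

lemma ev_ge (k : ℕ) : ∀ᶠ i in (U : Filter ℕ), k ≤ i := by
  have h : ∀ᶠ i in (Filter.cofinite : Filter ℕ), k ≤ i := by
    rw [Nat.cofinite_eq_atTop]
    exact Filter.eventually_ge_atTop k
  exact h.filter_mono (hyperfilter_le_cofinite)

/-- Extensionality of coded sets. -/
lemma mem_ext {s t : H} (h : ∀ x, mem x s ↔ mem x t) : s = t := by
  obtain ⟨s, rfl⟩ := rep s
  obtain ⟨t, rfl⟩ := rep t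
  rw [eq_coe]
  have h1 : ∀ᶠ i in U, ∀ y, y ∈ fs (s i) ↔ y ∈ fs (t i) := by
    apply ev_forall
    intro f
    have h2 := h (f : H)
    rw [mem_coe, mem_coe] at h2
    have h3 := ev_imp h2.1
    have h4 := ev_imp h2.2
    filter_upwards [h3, h4] with i h5 h6
    exact ⟨h5, h6⟩
  filter_upwards [h1] with i hi
  exact fs_inj (Finset.ext hi)

/-- Countable saturation. -/
lemma saturation (P : ℕ → ℕ → ℕ → Prop) (h : ∀ k, ∀ᶠ i in U, ∃ a, ∀ j ≤ k, P j i a) :
    ∃ a : ℕ → ℕ, ∀ k, ∀ᶠ i in U, P k i (a i) := by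
  let Q : ℕ → ℕ → Prop := fun i k => ∃ a, ∀ j ≤ k, P j i a
  let K : ℕ → ℕ := fun i => Nat.findGreatest (Q i) i
  refine ⟨fun i => if h : Q i (K i) then h.choose else 0, ?_⟩
  intro k
  filter_upwards [h k, ev_ge k] with i h1 h2
  have h3 : Q i (K i) := Nat.findGreatest_spec h2 h1
  simp only [h3, dite_true]
  exact h3.choose_spec k (Nat.le_findGreatest h2 h1)

end

end Pool.Agent.Helper803.Cads
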