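import Pool.Agent.Helper803.Cads.Treat

/-!
The chain of countable hulls with oracles.
-/

namespace Pool.Agent.Helper803.Cads

open Filter
open scoped Classical

noncomputable section

/-- A stage of the construction. -/
structure St where
  α : H
  W : Set H
  L : Set ((H → Prop) × (H → Prop))
  hα : α ∈ Mb
  hI : Ind (hull α) W
  hL : L.Countable

/-- One step of the construction, treating the order `R` on `D`. -/
structure Step (D : H → Prop) (R : H → H → Prop) (S S' : St) : Prop where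
  a : ∃ a ∈ Mb, S'.α = pr S.α a ∧ ∀ D ∈ hull S.α, (∀ v, mem v D → v < bb) → BigD D →
    (∃ v, mem v D ∧ mem v a) ∧ ∃ v, mem v D ∧ ¬ mem v a
  X : ∃ X, Am X ∧ S'.W = jn S.W X ∧ (IsD (hull S.α) S.W D → IsD2 (hull S.α) S.W R →
    LinOn (hull S.α) D R → Unb (hull S.α) D → (∀ x ∈ X, x ∈ Mb ∧ D x) ∧
      (∀ m ∈ hull S.α, ∃ x ∈ X, m ≤ x) ∧ Ind (hull S.α) (jn S.W X) ∧
      (∀ u ∈ hull S.α, D u → LoX X R u ∨ HiX X R u) ∧ (LoX X R, HiX X R) ∈ S'.L)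
  L : S.L ⊆ S'.L
  dec : ∀ c : Cut, (c.Lo, c.Hi) ∈ S'.L → CutOK (hull S.α) c → c.Dec (hull S.α) →
    c.Dec (hull S'.α)

theorem exists_step (D : H → Prop) (R : H → H → Prop) (S : St) : ∃ S', Step D R S S' := by
  have hM := good_hull S.hα
  obtain ⟨X, hXA, hJ, hX⟩ : ∃ X, Am X ∧ Ind (hull S.α) (jn S.W X) ∧
      (IsD (hull S.α) S.W D → IsD2 (hull S.α) S.W R → LinOn (hull S.α) D R →
      Unb (hull S.α) D → (∀ x ∈ X, x ∈ Mb ∧ D x) ∧ (∀ m ∈ hull S.α, ∃ x ∈ X, m ≤ x) ∧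
      (∀ u ∈ hull S.α, D u → LoX X R u ∨ HiX X R u)) := by
    by_cases h : IsD (hull S.α) S.W D ∧ IsD2 (hull S.α) S.W R ∧ LinOn (hull S.α) D R ∧
        Unb (hull S.α) D
    · obtain ⟨h1, h2, h3, h4⟩ := h
      obtain ⟨X, g1, g2, g3, g4, g5⟩ := treat hM S.hI h1 h2 h3 h4
      exact ⟨X, g3, g4, fun _ _ _ _ => ⟨g1, g2, g5⟩⟩
    · have hT : IsSg (hull S.α) S.W (fun _ => True) :=
        (IsD.eq hM (IsFn.const hM.zero) (IsFn.const hM.zero)).1.congr fun x _ => by simp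
      obtain ⟨X, g1, g2, g3, g4, g5⟩ := generic hM S.hI (fun _ _ => True) (fun _ => hT)
        (fun _ m hm => ⟨m, hM.sub hm, le_rfl, trivial⟩) (fun _ _ h => h)
      exact ⟨X, g4, g5, fun h1 h2 h3 h4 => absurd ⟨h1, h2, h3, h4⟩ h⟩
  let L' : Set ((H → Prop) × (H → Prop)) := insert (LoX X R, HiX X R) S.L
  have hL' : L'.Countable := S.hL.insert _
  let Cs : Set Cut := {c | (c.Lo, c.Hi) ∈ L' ∧ CutOK (hull S.α) c ∧ c.Dec (hull S.α)}
  have hCs : Cs.Countable := by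
    have h1 : (hull S.α ×ˢ (hull S.α ×ˢ L')).Countable := hM.cnt.prod (hM.cnt.prod hL')
    refine Set.Countable.mono ?_ (h1.image
      (fun t : H × H × ((H → Prop) × (H → Prop)) => (⟨t.1, t.2.1, t.2.2.1, t.2.2.2⟩ : Cut)))
    intro c hc
    exact ⟨(c.s, c.l, (c.Lo, c.Hi)), ⟨hc.2.1.s, hc.2.1.l, hc.1⟩, rfl⟩
  obtain ⟨a, ha, h1, h2⟩ := extend S.hα Cs hCs (fun c hc => hc.2.1) (fun c hc => hc.2.2)
  refine ⟨⟨pr S.α a, jn S.W X, L', Mb_pr S.hα ha, ind_ext S.hα ha hJ, hL'⟩, ?_, ?_, ?_, ?_⟩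
  · exact ⟨a, ha, rfl, h2⟩
  · refine ⟨X, hXA, rfl, fun g1 g2 g3 g4 => ?_⟩
    obtain ⟨k1, k2, k3⟩ := hX g1 g2 g3 g4
    exact ⟨k1, k2, hJ, k3, Set.mem_insert _ _⟩
  · exact Set.subset_insert _ _
  · intro c hc hOK hd
    exact h1 c ⟨hc, hOK, hd⟩

/-- Bookkeeping. -/
lemma exists_chain {σ τ : Type*} (inst : σ → ℕ → τ) (R : τ → σ → σ → Prop)
    (h : ∀ t s, ∃ s', R t s s') (s0 : σ) :
    ∃ f : ℕ → σ, f 0 = s0 ∧
      ∀ n, R (inst (f (Nat.unpair n).1) (Nat.unpair n).2) (f n) (f (n + 1)) := by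
  choose g hg using h
  let hist : ℕ → ℕ → σ := fun n => Nat.rec (fun _ => s0) (fun n r => fun m =>
    if m ≤ n then r m else g (inst (r (Nat.unpair n).1) (Nat.unpair n).2) (r n)) n
  have hs : ∀ n m, hist (n + 1) m = if m ≤ n then hist n m else
      g (inst (hist n (Nat.unpair n).1) (Nat.unpair n).2) (hist n n) := fun n m => rfl
  have h1 : ∀ m n, m ≤ n → hist n m = hist m m := by
    intro m n hmn
    induction hmn with
    | refl => rfl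
    | @step k hk ih =>
      have hk' : m ≤ k := hk
      rw [Nat.succ_eq_add_one, hs, if_pos hk', ih]
  refine ⟨fun n => hist n n, rfl, ?_⟩
  intro n
  have h2 : hist (n + 1) (n + 1) =
      g (inst (hist n (Nat.unpair n).1) (Nat.unpair n).2) (hist n n) := by
    rw [hs, if_neg (by omega)]
  rw [h1 _ _ (Nat.unpair_left_le n)] at h2
  beta_reduce
  rw [h2]
  exact hg _ _

/-- Enumerating the instances of a stage. -/
lemma exists_inst (S : St) : ∃ e : ℕ → (H → Prop) × (H → H → Prop),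
    ∀ T T' : ℕ → ℕ, FF T → FF T' → ∀ p ∈ hull S.α, ∀ q ∈ hull S.α,
      ∃ k, e k = (Sg T S.W p, fun x y => Sg T' S.W q (pr x y)) := by
  have hM := good_hull S.hα
  have h0 : Countable {T : ℕ → ℕ // FF T} := FF.cnt.to_subtype
  have h1 : (hull S.α ×ˢ (hull S.α ×ˢ (Set.univ : Set
      ({T : ℕ → ℕ // FF T} × {T : ℕ → ℕ // FF T})))).Countable :=
    hM.cnt.prod (hM.cnt.prod (Set.to_countable _))
  obtain ⟨e, he⟩ := h1.exists_eq_range ⟨(0, 0, (⟨oPos, FF.oPos⟩, ⟨oPos, FF.oPos⟩)),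
    hM.zero, hM.zero, Set.mem_univ _⟩
  refine ⟨fun k => (Sg (e k).2.2.1.1 S.W (e k).1,
    fun x y => Sg (e k).2.2.2.1 S.W (e k).2.1 (pr x y)), ?_⟩
  intro T T' hT hT' p hp q hq
  have h2 : (p, q, ((⟨T, hT⟩ : {T : ℕ → ℕ // FF T}), (⟨T', hT'⟩ : {T : ℕ → ℕ // FF T}))) ∈
      (hull S.α ×ˢ (hull S.α ×ˢ (Set.univ : Set
      ({T : ℕ → ℕ // FF T} × {T : ℕ → ℕ // FF T})))) := ⟨hp, hq, Set.mem_univ _⟩
  rw [he] at h2
  obtain ⟨k, hk⟩ := h2
  refine ⟨k, ?_⟩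
  beta_reduce
  rw [hk]

/-- The chain. -/
structure Chain where
  S : ℕ → St
  X0 : Set H
  e : ℕ → ℕ → (H → Prop) × (H → H → Prop)
  X0M : ∀ x ∈ X0, x ∈ Mb
  X0u : ∀ m ∈ hull (S 0).α, ∃ x ∈ X0, m ≤ x
  X0D : IsD (hull (S 0).α) (S 0).W (fun x => x ∈ X0)
  X0L : (Lo0 X0, Hi0 X0) ∈ (S 0).L
  X0d : ∀ u ∈ hull (S 0).α, u < bb → Lo0 X0 u ∨ Hi0 X0 u
  inst : ∀ i, ∀ T T' : ℕ → ℕ, FF T → FF T' → ∀ p ∈ hull (S i).α, ∀ q ∈ hull (S i).α,
    ∃ k, e i k = (Sg T (S i).W p, fun x y => Sg T' (S i).W q (pr x y))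
  step : ∀ n, Step (e (Nat.unpair n).1 (Nat.unpair n).2).1
    (e (Nat.unpair n).1 (Nat.unpair n).2).2 (S n) (S (n + 1))

theorem exists_Chain : Nonempty Chain := by
  have hM := good_hull Mb_zero
  obtain ⟨X0, h1, h2, h3, h4, h5⟩ := start hM
  choose inst hinst using exists_inst
  let S0 : St := ⟨0, jn ∅ X0, {(Lo0 X0, Hi0 X0)}, Mb_zero, h4, Set.countable_singleton _⟩
  obtain ⟨S, hS0, hS⟩ := exists_chain inst (fun t s s' => Step t.1 t.2 s s')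
    (fun t s => exists_step t.1 t.2 s) S0
  refine ⟨⟨S, X0, fun i => inst (S i), h1, ?_, ?_, ?_, ?_, fun i => hinst (S i), hS⟩⟩
  · rw [hS0]
    exact h2
  · rw [hS0]
    exact IsD.right hM (h4.Am hM)
  · rw [hS0]
    exact Set.mem_singleton _
  · rw [hS0]
    exact h5

namespace Chain

variable (C : Chain)

/-- The models of the chain. -/
def M (n : ℕ) : Set H := hull (C.S n).α

lemma good (n : ℕ) : Good (C.M n) := good_hull (C.S n).hα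

lemma ind (n : ℕ) : Ind (C.M n) (C.S n).W := (C.S n).hI

lemma am (n : ℕ) : Am (C.S n).W := (C.ind n).Am (C.good n)

lemma M_succ (n : ℕ) : C.M n ⊆ C.M (n + 1) := by
  obtain ⟨a, ha, h1, _⟩ := (C.step n).a
  apply hull_mono _ (C.S (n + 1)).hα
  have h2 := (C.good (n + 1)).ap FF.q1 (self_mem_hull (C.S (n + 1)).α)
  have h3 : ap q1 (C.S (n + 1)).α = (C.S n).α := by
    rw [h1, ap_q1]
  rw [h3] at h2
  exact h2

lemma M_mono {n m : ℕ} (h : n ≤ m) : C.M n ⊆ C.M m := by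
  induction h with
  | refl => exact subset_rfl
  | step _ ih => exact ih.trans (C.M_succ _)

lemma L_mono {n m : ℕ} (h : n ≤ m) : (C.S n).L ⊆ (C.S m).L := by
  induction h with
  | refl => exact subset_rfl
  | step _ ih => exact ih.trans (C.step _).L

lemma isSg_mono {n m : ℕ} (h : n ≤ m) {ρ : H → Prop} (hρ : IsSg (C.M n) (C.S n).W ρ) :
    IsSg (C.M m) (C.S m).W ρ := by
  induction h with
  | refl => exact hρ
  | @step m _ ih =>
    obtain ⟨X, hX, hW, _⟩ := (C.step m).X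
    have h1 := (ih.lift (C.am m) hX).mono (C.M_succ m)
    rw [← hW] at h1
    exact h1

lemma isD_mono {n m : ℕ} (h : n ≤ m) {ρ : H → Prop} (hρ : IsD (C.M n) (C.S n).W ρ) :
    IsD (C.M m) (C.S m).W ρ := ⟨C.isSg_mono h hρ.1, C.isSg_mono h hρ.2⟩

lemma cutOK_mono {n m : ℕ} (h : n ≤ m) {c : Cut} (hc : CutOK (C.M n) c) : CutOK (C.M m) c where
  s := C.M_mono h hc.s
  l := C.M_mono h hc.l
  tot := hc.tot
  trans := hc.trans
  lo := hc.lo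
  hi := hc.hi

/-- Decided cuts stay decided. -/
lemma dec_mono {n m : ℕ} (h : n ≤ m) {c : Cut} (hL : (c.Lo, c.Hi) ∈ (C.S (n + 1)).L)
    (hc : CutOK (C.M n) c) (hd : c.Dec (C.M n)) : c.Dec (C.M m) := by
  induction h with
  | refl => exact hd
  | @step m hm ih =>
    have hm' : n ≤ m := hm
    exact (C.step m).dec c (C.L_mono (Nat.succ_le_succ hm') hL) (C.cutOK_mono hm' hc) ih

lemma X0_unb (n : ℕ) : ∀ m ∈ C.M n, ∃ x ∈ C.X0, m ≤ x := by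
  intro m hm
  obtain ⟨m', hm', h1⟩ := (C.good 0).cof ((C.good n).sub hm)
  obtain ⟨x, hx, h2⟩ := C.X0u m' hm'
  exact ⟨x, hx, h1.trans h2⟩

lemma X0_D (n : ℕ) : IsD (C.M n) (C.S n).W (fun x => x ∈ C.X0) :=
  C.isD_mono (Nat.zero_le n) C.X0D

lemma X0_cut (n : ℕ) : ∀ u ∈ C.M n, u < bb → Lo0 C.X0 u ∨ Hi0 C.X0 u := by
  intro u hu hub
  obtain ⟨c, hc, hd, h1, h2, h3⟩ := cut0 (C.good 0) (C.ind 0) C.X0d
  have h4 : (c.Lo, c.Hi) ∈ (C.S (0 + 1)).L := by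
    rw [h1, h2]
    exact C.L_mono (Nat.zero_le _) C.X0L
  have h5 := C.dec_mono (Nat.zero_le n) h4 hc hd u hu ((h3 u).2 hub)
  rwa [h1, h2] at h5

/-- The universe of the final model. -/
def MM : Set H := {x | ∃ n, x ∈ C.M n}

lemma MM_Mb {x : H} (hx : x ∈ C.MM) : x ∈ Mb := by
  obtain ⟨n, hn⟩ := hx
  exact (C.good n).sub hn

/-- The main splitting property: no unbounded set at a finite stage is cohesive for the
colouring. -/
lemma split {n : ℕ} {Q : H → Prop} (hQ : IsSg (C.M n) (C.S n).W Q) (hu : Unb (C.M n) Q) :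
    ∃ a ∈ C.MM, ∀ h ∈ C.MM, (∃ m ∈ C.MM, Q m ∧ h ≤ m ∧ ∃ v ∈ Mb, Cr C.X0 m v ∧ mem v a) ∧
      ∃ m ∈ C.MM, Q m ∧ h ≤ m ∧ ∃ v ∈ Mb, Cr C.X0 m v ∧ ¬ mem v a := by
  have hM := C.good n
  have hI := C.ind n
  obtain ⟨a, ha, h1, h2⟩ := (C.step n).a
  have haM : a ∈ C.M (n + 1) := by
    have h3 := (C.good (n + 1)).ap FF.q2 (self_mem_hull (C.S (n + 1)).α)
    have h4 : ap q2 (C.S (n + 1)).α = a := by
      rw [h1, ap_q2]
    rw [h4] at h3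
    exact h3
  refine ⟨a, ⟨n + 1, haM⟩, ?_⟩
  intro h hh
  obtain ⟨h', hh', hle⟩ := hM.cof (C.MM_Mb hh)
  obtain ⟨D, hD, hD1⟩ := (isSg_Im hM hI (C.X0_D n) hQ hh').code hI hM hM.bb
  have hbig : BigD D := big_image hM hI (C.X0_D n) C.X0M (C.X0_unb n) (C.X0_cut n) hQ hu hh' hD1
  have h3 := h2 D hD (fun v hv => ((hD1 v).1 hv).1) hbig
  have hM' := C.good (n + 1)
  have hI' := C.ind (n + 1)
  have hA' := C.am (n + 1)
  have hQ' := C.isSg_mono (Nat.le_succ n) hQ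
  have hh'' := C.M_succ n hh'
  have hbbMb : ∀ v, v < bb → v ∈ Mb := fun v hv => Mb_le hv.le Mb_bb
  have f1 := IsFn.q1 hM'
  have f2 := IsFn.q2 hM'
  have hCr : IsSg (C.M (n + 1)) (C.S (n + 1)).W (fun t => Cr C.X0 (ap q1 t) (ap q2 t)) :=
    isSg_Cr hM' hI' (C.X0_D (n + 1))
  have hmem : IsD (C.M (n + 1)) (C.S (n + 1)).W (fun t => mem (ap q2 t) a) :=
    IsD.mem hM' f2 (IsFn.const haM)
  have hge : IsSg (C.M (n + 1)) (C.S (n + 1)).W (fun m => ¬ m < h') :=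
    (IsD.lt hM' (IsFn.id hM') (IsFn.const hh'')).2
  constructor
  · obtain ⟨v, hv, hva⟩ := h3.1
    rw [hD1] at hv
    obtain ⟨hvb, m, hm, hQm, hm2, hCrm⟩ := hv
    have h4 : IsSg (C.M (n + 1)) (C.S (n + 1)).W
        (fun m => Q m ∧ ¬ m < h' ∧ ∃ v ∈ Mb, Cr C.X0 m v ∧ mem v a) :=
      hQ'.and hM' hA' (hge.and hM' hA'
        (IsSg.ex (ρ := fun m v => Cr C.X0 m v ∧ mem v a) hA' (hCr.and hM' hA' hmem.1)))
    obtain ⟨m', hm', h5, h6, h7⟩ := h4.wit hM' hI' hm ⟨hQm, hm2, v, hbbMb v hvb, hCrm, hva⟩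
    exact ⟨m', ⟨n + 1, hm'⟩, h5, hle.trans (not_lt.1 h6), h7⟩
  · obtain ⟨v, hv, hva⟩ := h3.2
    rw [hD1] at hv
    obtain ⟨hvb, m, hm, hQm, hm2, hCrm⟩ := hv
    have h4 : IsSg (C.M (n + 1)) (C.S (n + 1)).W
        (fun m => Q m ∧ ¬ m < h' ∧ ∃ v ∈ Mb, Cr C.X0 m v ∧ ¬ mem v a) :=
      hQ'.and hM' hA' (hge.and hM' hA'
        (IsSg.ex (ρ := fun m v => Cr C.X0 m v ∧ ¬ mem v a) hA' (hCr.and hM' hA' hmem.2)))
    obtain ⟨m', hm', h5, h6, h7⟩ := h4.wit hM' hI' hm ⟨hQm, hm2, v, hbbMb v hvb, hCrm, hva⟩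
    exact ⟨m', ⟨n + 1, hm'⟩, h5, hle.trans (not_lt.1 h6), h7⟩

/-- The main positive property: every linear order of a finite stage which is linear and
unbounded in the limit has an unbounded subset all of whose elements are decided. -/
lemma solve {i : ℕ} {D : H → Prop} {R : H → H → Prop} (hD : IsD (C.M i) (C.S i).W D)
    (hR : IsD2 (C.M i) (C.S i).W R) (hL : LinOn C.MM D R)
    (hu : ∀ m ∈ C.MM, ∃ x ∈ C.MM, m ≤ x ∧ D x) :
    LinOn Mb D R ∧ ∃ n, i ≤ n ∧ ∃ X : Set H, IsD (C.M n) (C.S n).W (fun x => x ∈ X) ∧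
      (∀ x ∈ X, x ∈ Mb ∧ D x) ∧ (∀ m ∈ Mb, ∃ x ∈ X, x ∈ C.MM ∧ m ≤ x) ∧
      ∀ x ∈ C.MM, x ∈ X → LoX X R x ∨ HiX X R x := by
  have hLi : LinOn Mb D R := by
    refine LinOn.transfer (C.good i) (C.ind i) hD hR ?_
    exact ⟨fun x hx y hy => hL.dom x ⟨i, hx⟩ y ⟨i, hy⟩, fun x hx => hL.refl x ⟨i, hx⟩,
      fun x hx y hy => hL.antisymm x ⟨i, hx⟩ y ⟨i, hy⟩,
      fun x hx y hy z hz => hL.trans x ⟨i, hx⟩ y ⟨i, hy⟩ z ⟨i, hz⟩,
      fun x hx y hy => hL.total x ⟨i, hx⟩ y ⟨i, hy⟩⟩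
  refine ⟨hLi, ?_⟩
  -- the instance
  obtain ⟨⟨T, hT, hm, p, hp, h1⟩, _⟩ := id hD
  obtain ⟨⟨T', hT', hm', q, hq, h2⟩, _⟩ := id hR
  obtain ⟨k, hk⟩ := C.inst i T T' hT hT' p hp q hq
  obtain ⟨n, hn⟩ : ∃ n, n = Nat.pair i k := ⟨_, rfl⟩
  have hin : i ≤ n := by
    rw [hn]
    exact Nat.left_le_pair i k
  have hst := C.step n
  have hu1 : (Nat.unpair n).1 = i := by rw [hn, Nat.unpair_pair]
  have hu2 : (Nat.unpair n).2 = k := by rw [hn, Nat.unpair_pair]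
  rw [hu1, hu2, hk] at hst
  obtain ⟨X, hXA, hW, hX⟩ := hst.X
  -- the coded predicates agree with the given ones on the cut
  obtain ⟨D', hD'⟩ : ∃ D', D' = Sg T (C.S i).W p := ⟨_, rfl⟩
  obtain ⟨R', hR'⟩ : ∃ R' : H → H → Prop, R' = fun x y => Sg T' (C.S i).W q (pr x y) := ⟨_, rfl⟩
  have eD : ∀ x ∈ Mb, D x ↔ D' x := fun x hx => by rw [hD']; exact h1 x hx
  have eR : ∀ x ∈ Mb, ∀ y ∈ Mb, R x y ↔ R' x y := by
    intro x hx y hy
    rw [hR']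
    have h3 := h2 (pr x y) (Mb_pr hx hy)
    beta_reduce at h3
    rw [ap_q1, ap_q2] at h3
    exact h3
  dsimp only at hX
  rw [← hD', ← hR'] at hX
  have hM := C.good n
  have hDn : IsD (C.M n) (C.S n).W D' := (C.isD_mono hin hD).congr eD
  have hRn : IsD2 (C.M n) (C.S n).W R' := by
    refine (C.isD_mono hin hR).congr ?_
    intro t ht
    exact eR _ (Mb_ap FF.q1 ht) _ (Mb_ap FF.q2 ht)
  have hLb' : LinOn Mb D' R' := by
    constructor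
    · intro x hx y hy
      rw [← eD x hx, ← eD y hy, ← eR x hx y hy]
      exact hLi.dom x hx y hy
    · intro x hx
      rw [← eD x hx, ← eR x hx x hx]
      exact hLi.refl x hx
    · intro x hx y hy
      rw [← eR x hx y hy, ← eR y hy x hx]
      exact hLi.antisymm x hx y hy
    · intro x hx y hy z hz
      rw [← eR x hx y hy, ← eR y hy z hz, ← eR x hx z hz]
      exact hLi.trans x hx y hy z hz
    · intro x hx y hy
      rw [← eD x hx, ← eD y hy, ← eR x hx y hy, ← eR y hy x hx]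
      exact hLi.total x hx y hy
  have hLn : LinOn (C.M n) D' R' :=
    ⟨fun x hx y hy => hLb'.dom x (hM.sub hx) y (hM.sub hy), fun x hx => hLb'.refl x (hM.sub hx),
      fun x hx y hy => hLb'.antisymm x (hM.sub hx) y (hM.sub hy),
      fun x hx y hy z hz => hLb'.trans x (hM.sub hx) y (hM.sub hy) z (hM.sub hz),
      fun x hx y hy => hLb'.total x (hM.sub hx) y (hM.sub hy)⟩
  have hun : Unb (C.M n) D' := by
    intro m hm
    obtain ⟨x, hx, h3, h4⟩ := hu m ⟨n, hm⟩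
    exact ⟨x, C.MM_Mb hx, h3, (eD x (C.MM_Mb hx)).1 h4⟩
  obtain ⟨g1, g2, g3, g4, g5⟩ := hX hDn hRn hLn hun
  have hXD : IsD (C.M (n + 1)) (C.S (n + 1)).W (fun x => x ∈ X) := by
    have h3 : Am (C.S (n + 1)).W := C.am (n + 1)
    rw [hW] at h3 ⊢
    exact IsD.right (C.good (n + 1)) h3
  -- `LoX` and `HiX` only depend on the values on the cut
  have eLo : ∀ u ∈ Mb, LoX X R' u ↔ LoX X R u := by
    intro u hu'
    unfold LoX
    constructor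
    · rintro ⟨h, hh, h3⟩
      exact ⟨h, hh, fun y hy hy2 => (eR u hu' y (g1 y hy).1).2 (h3 y hy hy2)⟩
    · rintro ⟨h, hh, h3⟩
      exact ⟨h, hh, fun y hy hy2 => (eR u hu' y (g1 y hy).1).1 (h3 y hy hy2)⟩
  have eHi : ∀ u ∈ Mb, HiX X R' u ↔ HiX X R u := by
    intro u hu'
    unfold HiX
    constructor
    · rintro ⟨h, hh, h3⟩
      exact ⟨h, hh, fun y hy hy2 => (eR y (g1 y hy).1 u hu').2 (h3 y hy hy2)⟩
    · rintro ⟨h, hh, h3⟩
      exact ⟨h, hh, fun y hy hy2 => (eR y (g1 y hy).1 u hu').1 (h3 y hy hy2)⟩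
  refine ⟨n + 1, by omega, X, hXD, ?_, ?_, ?_⟩
  · intro x hx
    exact ⟨(g1 x hx).1, (eD x (g1 x hx).1).2 (g1 x hx).2⟩
  · intro m hm
    obtain ⟨m', hm', h3⟩ := hM.cof hm
    have h4 : IsSg (C.M (n + 1)) (C.S (n + 1)).W (fun x => x ∈ X ∧ ¬ x < m') :=
      hXD.1.and (C.good _) (C.am _) (IsD.lt (C.good _) (IsFn.id (C.good _))
        (IsFn.const (C.M_succ n hm'))).2
    obtain ⟨x, hx, hx2⟩ := g2 m' hm'
    obtain ⟨y, hy, h5, h6⟩ := h4.wit (C.good _) (C.ind _) (g1 x hx).1 ⟨hx, not_lt.2 hx2⟩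
    exact ⟨y, h5, ⟨n + 1, hy⟩, h3.trans (not_lt.1 h6)⟩
  · rintro x ⟨m, hm⟩ hxX
    obtain ⟨h, hh, hxh⟩ := hM.cof_lt ((C.good m).sub hm)
    obtain ⟨c, hc, hd, e1, e2, e3⟩ := cutX hM (C.ind n) hDn hRn hLn g1 g3 g4 hh
    have h4 : (c.Lo, c.Hi) ∈ (C.S (n + 1)).L := by
      rw [e1, e2]
      exact g5
    have h5 := C.dec_mono (le_max_left n m) h4 hc hd x (C.M_mono (le_max_right n m) hm)
      ((e3 x).2 ⟨hxh, hxX⟩)
    rw [e1, e2] at h5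
    rcases h5 with h5 | h5
    · exact Or.inl ((eLo x ((C.good m).sub hm)).1 h5)
    · exact Or.inr ((eHi x ((C.good m).sub hm)).1 h5)

end Chain

end

end Pool.Agent.Helper803.Cads
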