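import Pool.Agent.Helper803.Cads.Ind

/-!
The extension lemma: a subset of the interval below the infinite number `bb` which keeps every
new element on a decided side of countably many cuts and splits all large coded sets.
-/

namespace Pool.Agent.Helper803.Cads

open Filter
open scoped Classical

noncomputable section

/-! ### Finite combinatorics -/

lemma exists_med (f : ℕ → ℕ) (B : Finset ℕ) (hB : B.Nonempty) (l : ℕ)
    (tot : ∀ a ∈ B, ∀ a' ∈ B, Nat.pair (f a) (f a') ∈ fs l ∨ Nat.pair (f a') (f a) ∈ fs l)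
    (trans : ∀ a ∈ B, ∀ a' ∈ B, ∀ a'' ∈ B, Nat.pair (f a) (f a') ∈ fs l →
      Nat.pair (f a') (f a'') ∈ fs l → Nat.pair (f a) (f a'') ∈ fs l) :
    ∃ w, Med f B l w := by
  let low : ℕ → Finset ℕ := fun a => B.filter (fun a' => Nat.pair (f a') (f a) ∈ fs l)
  have hrefl : ∀ a ∈ B, Nat.pair (f a) (f a) ∈ fs l := fun a ha => by
    rcases tot a ha a ha with h | h <;> exact h
  -- strict increase of `low`
  have hlt : ∀ a ∈ B, ∀ a' ∈ B, ¬ Nat.pair (f a') (f a) ∈ fs l → (low a).card < (low a').card := by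
    intro a ha a' ha' h
    apply Finset.card_lt_card
    rw [Finset.ssubset_iff_of_subset]
    · refine ⟨a', ?_, ?_⟩
      · simp only [low, Finset.mem_filter]
        exact ⟨ha', hrefl a' ha'⟩
      · simp only [low, Finset.mem_filter]
        exact fun h2 => h h2.2
    · intro x hx
      simp only [low, Finset.mem_filter] at hx ⊢
      refine ⟨hx.1, trans x hx.1 a ha a' ha' hx.2 ?_⟩
      rcases tot a ha a' ha' with h2 | h2
      · exact h2
      · exact absurd h2 h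
  -- maximal elements
  have hmax : ∀ S : Finset ℕ, S ⊆ B → S.Nonempty → ∃ a ∈ S, S ⊆ low a := by
    intro S hS hSn
    obtain ⟨a, ha, h1⟩ := Finset.exists_max_image S (fun a => (low a).card) hSn
    refine ⟨a, ha, ?_⟩
    intro x hx
    simp only [low, Finset.mem_filter]
    refine ⟨hS hx, ?_⟩
    by_contra hc
    exact absurd (hlt a (hS ha) x (hS hx) hc) (not_lt.2 (h1 x hx))
  let S : Finset ℕ := B.filter (fun a => B.card ≤ 2 * (low a).card)
  have hSn : S.Nonempty := by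
    obtain ⟨a, ha, h1⟩ := hmax B (Finset.Subset.refl _) hB
    refine ⟨a, ?_⟩
    simp only [S, Finset.mem_filter]
    have := Finset.card_le_card h1
    exact ⟨ha, by omega⟩
  obtain ⟨a, ha, h1⟩ := Finset.exists_min_image S (fun a => (low a).card) hSn
  simp only [S, Finset.mem_filter] at ha
  refine ⟨f a, ⟨a, ha.1, rfl⟩, ha.2, ?_⟩
  by_contra hc
  push Not at hc
  -- the elements strictly below
  let R : Finset ℕ := B.filter (fun a' => ¬ Nat.pair (f a) (f a') ∈ fs l)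
  have hcard : (B.filter (fun a' => Nat.pair (f a) (f a') ∈ fs l)).card + R.card = B.card :=
    Finset.card_filter_add_card_filter_not _
  have hRn : R.Nonempty := by
    rw [← Finset.card_pos]
    omega
  obtain ⟨a2, ha2, h2⟩ := hmax R (Finset.filter_subset _ _) hRn
  simp only [R, Finset.mem_filter] at ha2
  have h3 := Finset.card_le_card h2
  have h4 : a2 ∈ S := by
    simp only [S, Finset.mem_filter]
    exact ⟨ha2.1, by omega⟩
  have h5 := h1 a2 h4
  have h6 := hlt a2 ha2.1 a ha.1 ha2.2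
  omega

lemma card_disj (n : ℕ) (D : Finset ℕ) (hD : D ⊆ Finset.range n) :
    ((PP n).filter (fun a => ¬ ∃ v ∈ D, v ∈ fs a)).card ≤ 2 ^ (n - D.card) := by
  have h1 : ((PP n).filter (fun a => ¬ ∃ v ∈ D, v ∈ fs a)) ⊆
      ((Finset.range n \ D).powerset.image cd) := by
    intro a ha
    simp only [PP, Finset.mem_filter, Finset.mem_image, Finset.mem_powerset] at ha ⊢
    obtain ⟨⟨s, hs, rfl⟩, h2⟩ := ha
    refine ⟨s, ?_, rfl⟩
    intro x hx
    rw [Finset.mem_sdiff]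
    refine ⟨hs hx, fun hxD => h2 ⟨x, hxD, ?_⟩⟩
    simpa using hx
  refine (Finset.card_le_card h1).trans (Finset.card_image_le.trans ?_)
  rw [Finset.card_powerset, Finset.card_sdiff_of_subset hD, Finset.card_range]

lemma card_sup (n : ℕ) (D : Finset ℕ) (hD : D ⊆ Finset.range n) :
    ((PP n).filter (fun a => ¬ ∃ v ∈ D, v ∉ fs a)).card ≤ 2 ^ (n - D.card) := by
  have h1 : ((PP n).filter (fun a => ¬ ∃ v ∈ D, v ∉ fs a)) ⊆
      ((Finset.range n \ D).powerset.image (fun s => cd (s ∪ D))) := by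
    intro a ha
    simp only [PP, Finset.mem_filter, Finset.mem_image, Finset.mem_powerset] at ha ⊢
    obtain ⟨⟨s, hs, rfl⟩, h2⟩ := ha
    push Not at h2
    refine ⟨s \ D, ?_, ?_⟩
    · intro x hx
      rw [Finset.mem_sdiff] at hx ⊢
      exact ⟨hs hx.1, hx.2⟩
    · congr 1
      ext x
      simp only [Finset.mem_union, Finset.mem_sdiff]
      constructor
      · rintro (h3 | h3)
        · exact h3.1
        · simpa using h2 x h3
      · intro h3
        by_cases h4 : x ∈ D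
        · exact Or.inr h4
        · exact Or.inl ⟨h3, h4⟩
  refine (Finset.card_le_card h1).trans (Finset.card_image_le.trans ?_)
  rw [Finset.card_powerset, Finset.card_sdiff_of_subset hD, Finset.card_range]

lemma split_large (n N : ℕ) (B D : Finset ℕ) (hB : B ⊆ PP n) (hD : D ⊆ Finset.range n)
    (h : 2 ^ n ≤ 2 ^ N * B.card) (hN : N + 2 ≤ D.card) :
    2 ^ n ≤ 2 ^ (N + 1) * (B.filter (fun a => (∃ v ∈ D, v ∈ fs a) ∧ ∃ v ∈ D, v ∉ fs a)).card := by
  have hDn : D.card ≤ n := by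
    have := Finset.card_le_card hD
    rwa [Finset.card_range] at this
  have h1 : B.card ≤ (B.filter (fun a => (∃ v ∈ D, v ∈ fs a) ∧ ∃ v ∈ D, v ∉ fs a)).card +
      (((PP n).filter (fun a => ¬ ∃ v ∈ D, v ∈ fs a)).card +
        ((PP n).filter (fun a => ¬ ∃ v ∈ D, v ∉ fs a)).card) := by
    refine le_trans ?_ (add_le_add le_rfl (Finset.card_union_le _ _))
    refine le_trans ?_ (Finset.card_union_le _ _)
    apply Finset.card_le_card
    intro a ha
    simp only [Finset.mem_union, Finset.mem_filter]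
    by_cases h2 : ∃ v ∈ D, v ∈ fs a
    · by_cases h3 : ∃ v ∈ D, v ∉ fs a
      · exact Or.inl ⟨ha, h2, h3⟩
      · exact Or.inr (Or.inr ⟨hB ha, h3⟩)
    · exact Or.inr (Or.inl ⟨hB ha, h2⟩)
  have h2 := card_disj n D hD
  have h3 := card_sup n D hD
  have h4 : 2 ^ (N + 2) * 2 ^ (n - D.card) ≤ 2 ^ n := by
    rw [← pow_add]
    exact Nat.pow_le_pow_right (by norm_num) (by omega)
  generalize (B.filter (fun a => (∃ v ∈ D, v ∈ fs a) ∧ ∃ v ∈ D, v ∉ fs a)).card = x at h1 ⊢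
  generalize ((PP n).filter (fun a => ¬ ∃ v ∈ D, v ∈ fs a)).card = y at h1 h2
  generalize ((PP n).filter (fun a => ¬ ∃ v ∈ D, v ∉ fs a)).card = z at h1 h3
  generalize 2 ^ (n - D.card) = q at h2 h3 h4
  rw [pow_add] at h4 ⊢
  generalize 2 ^ N = r at h h4 ⊢
  have h5 : r * B.card ≤ r * (x + (q + q)) := Nat.mul_le_mul_left r (by omega)
  have h6 : r * (x + (q + q)) = r * x + 2 * (r * q) := by ring
  have h7 : r * 2 ^ 2 * q = 4 * (r * q) := by ring
  have h8 : r * 2 ^ 1 * x = 2 * (r * x) := by ring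
  rw [h6] at h5
  rw [h7] at h4
  rw [h8]
  generalize r * q = y' at *
  generalize r * x = x' at *
  generalize r * B.card = b' at *
  omega

/-! ### Large coded sets -/

/-- `B` codes a set of codes of subsets of `{x | x < bb}` of size at least `2 ^ bb / 2 ^ N` for
some standard `N`. -/
def Large (B : H) : Prop :=
  ∃ N : ℕ, Germ.LiftRel (fun b B => fs B ⊆ PP b ∧ 2 ^ b ≤ 2 ^ N * (fs B).card) bb B

lemma large_coe (B : ℕ → ℕ) : Large (B : H) ↔
    ∃ N : ℕ, ∀ᶠ i in U, fs (B i) ⊆ PP i ∧ 2 ^ i ≤ 2 ^ N * (fs (B i)).card := Iff.rfl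

lemma large_half {B B' : ℕ → ℕ} (hB : Large (B : H))
    (h : ∀ᶠ i in U, fs (B' i) ⊆ fs (B i) ∧ (fs (B i)).card ≤ 2 * (fs (B' i)).card) :
    Large (B' : H) := by
  rw [large_coe] at hB ⊢
  obtain ⟨N, hN⟩ := hB
  refine ⟨N + 1, ?_⟩
  filter_upwards [hN, h] with i h1 h2
  refine ⟨h2.1.trans h1.1, h1.2.trans ?_⟩
  rw [pow_succ, mul_assoc]
  exact Nat.mul_le_mul_left _ h2.2

/-- `D` codes a set of nonstandard size. -/
def BigD (D : H) : Prop := ∀ K : ℕ, Germ.LiftPred (fun d => K ≤ (fs d).card) D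

/-- A cut of a coded preorder. -/
structure Cut where
  s : H
  l : H
  Lo : H → Prop
  Hi : H → Prop

/-- The cut is based on a coded total preorder in `M`. -/
structure CutOK (M : Set H) (c : Cut) : Prop where
  s : c.s ∈ M
  l : c.l ∈ M
  tot : ∀ x y, mem x c.s → mem y c.s → mem (pr x y) c.l ∨ mem (pr y x) c.l
  trans : ∀ x y z, mem x c.s → mem y c.s → mem z c.s → mem (pr x y) c.l → mem (pr y z) c.l →
    mem (pr x z) c.l
  lo : ∀ x y, mem x c.s → mem y c.s → mem (pr x y) c.l → c.Lo y → c.Lo x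
  hi : ∀ x y, mem x c.s → mem y c.s → mem (pr x y) c.l → c.Hi x → c.Hi y

/-- All elements of `M` are decided. -/
def Cut.Dec (M : Set H) (c : Cut) : Prop := ∀ x ∈ M, mem x c.s → c.Lo x ∨ c.Hi x

/-- Every large set in `M` has a large subset in `M` all of whose members satisfy `Q`. -/
def TaskOK (M : Set H) (Q : H → Prop) : Prop :=
  ∀ B ∈ M, Large B → ∃ B' ∈ M, Large B' ∧ (∀ a, mem a B' → mem a B) ∧ ∀ a, mem a B' → Q a

lemma sub_coe {B B' : ℕ → ℕ} (h : ∀ a, mem a (B' : H) → mem a (B : H)) :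
    ∀ᶠ i in U, fs (B' i) ⊆ fs (B i) := by
  have : ∀ᶠ i in U, ∀ a, a ∈ fs (B' i) → a ∈ fs (B i) := by
    apply ev_forall
    intro a
    exact ev_imp (h (a : H))
  filter_upwards [this] with i hi a ha
  exact hi a ha

/-- Meeting countably many tasks. -/
lemma meet_tasks {M : Set H} (hM : Good M) (Qs : Set (H → Prop)) (hc : Qs.Countable)
    (hQ : ∀ Q ∈ Qs, TaskOK M Q) : ∃ a ∈ Mb, ∀ Q ∈ Qs, Q a := by
  have hc' : (insert (fun _ => True) Qs).Countable := hc.insert _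
  obtain ⟨q, hq⟩ := hc'.exists_eq_range ⟨_, Set.mem_insert _ _⟩
  have hqOK : ∀ k, TaskOK M (q k) := by
    intro k
    have : q k ∈ insert (fun _ => True) Qs := by rw [hq]; exact ⟨k, rfl⟩
    rcases this with h | h
    · rw [h]
      intro B hB hL
      exact ⟨B, hB, hL, fun a ha => ha, fun _ _ => trivial⟩
    · exact hQ _ h
  let C : Type := {B : H // B ∈ M ∧ Large B}
  have step : ∀ (k : ℕ) (B : C), ∃ B' : C, (∀ a, mem a B'.1 → mem a B.1) ∧
      ∀ a, mem a B'.1 → q k a := by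
    intro k B
    obtain ⟨B', h1, h2, h3, h4⟩ := hqOK k B.1 B.2.1 B.2.2
    exact ⟨⟨B', h1, h2⟩, h3, h4⟩
  choose f hf1 hf2 using step
  let B0 : C := ⟨ap oPP bb, hM.ap FF.oPP hM.bb, by
    unfold bb
    rw [ap_coe, large_coe]
    refine ⟨0, Eventually.of_forall fun i => ?_⟩
    simp only [oPP, fs_cd]
    refine ⟨Finset.Subset.refl _, ?_⟩
    have h1 : (PP i).card = 2 ^ i := by
      unfold PP
      rw [Finset.card_image_of_injective, Finset.card_powerset, Finset.card_range]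
      intro a b hab
      have := congrArg fs hab
      simpa using this
    rw [h1]
    simp⟩
  let B : ℕ → C := fun n => Nat.rec B0 (fun k r => f k r) n
  have hBs : ∀ k, B (k + 1) = f k (B k) := fun k => rfl
  have hsub : ∀ k l, k ≤ l → ∀ a, mem a (B l).1 → mem a (B k).1 := by
    intro k l hkl
    induction hkl with
    | refl => exact fun a ha => ha
    | @step l _ ih =>
      intro a ha
      rw [hBs] at ha
      exact ih a (hf1 l (B l) a ha)
  choose g hg using fun k => rep (B k).1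
  have hP : ∀ k, ∀ᶠ i in U, ∃ a, ∀ j ≤ k, a ∈ fs (g j i) := by
    intro k
    have h1 : ∀ j ≤ k, ∀ᶠ i in U, fs (g k i) ⊆ fs (g j i) := by
      intro j hj
      apply sub_coe
      rw [← hg, ← hg]
      exact hsub j k hj
    have h2 : ∀ᶠ i in U, ∀ j ≤ k, fs (g k i) ⊆ fs (g j i) := by
      have := (Filter.eventually_all_finset (l := (U : Filter ℕ)) (Finset.range (k + 1))
        (p := fun j i => fs (g k i) ⊆ fs (g j i))).2 (fun j hj => h1 j (by
          have := Finset.mem_range.1 hj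
          omega))
      filter_upwards [this] with i hi j hj
      exact hi j (Finset.mem_range.2 (by omega))
    have h3 := (B k).2.2
    rw [hg k, large_coe] at h3
    obtain ⟨N, hN⟩ := h3
    filter_upwards [h2, hN] with i h4 h5
    have h6 : (fs (g k i)).Nonempty := by
      rw [← Finset.card_pos]
      by_contra hc
      have h7 : (fs (g k i)).card = 0 := by omega
      have h8 := h5.2
      rw [h7] at h8
      have h9 : 0 < 2 ^ i := by positivity
      omega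
    obtain ⟨a, ha⟩ := h6
    exact ⟨a, fun j hj => h4 j hj ha⟩
  obtain ⟨a, ha⟩ := saturation (fun j i a => a ∈ fs (g j i)) hP
  have hmem : ∀ k, mem (a : H) (B k).1 := by
    intro k
    rw [hg k, mem_coe]
    exact ha k
  refine ⟨(a : H), ?_, ?_⟩
  · obtain ⟨m, hm, _, h2⟩ := exists_greatest hM (B 0).2.1 ⟨_, hmem 0⟩
    exact Mb_le (h2 _ (hmem 0)) (hM.sub hm)
  · intro Q hQ'
    have : Q ∈ insert (fun _ => True) Qs := Set.mem_insert_of_mem _ hQ'
    rw [hq] at this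
    obtain ⟨k, rfl⟩ := this
    have h1 := hmem (k + 1)
    rw [hBs] at h1
    exact hf2 k (B k) _ h1

/-! ### The two kinds of tasks -/

lemma mem_oB1 (F : ℕ → ℕ) (a b α B s : H) :
    mem a (ap (oB1 F) (pr b (pr α (pr B s)))) ↔ mem a B ∧ mem (ap F (pr b (pr α a))) s := by
  obtain ⟨a, rfl⟩ := rep a
  obtain ⟨b, rfl⟩ := rep b
  obtain ⟨α, rfl⟩ := rep α
  obtain ⟨B, rfl⟩ := rep B
  obtain ⟨s, rfl⟩ := rep s
  rw [pr_coe, pr_coe, pr_coe, pr_coe, pr_coe, ap_coe, ap_coe, mem_coe, mem_coe, mem_coe,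
    ← eventually_and]
  simp [oB1]

lemma mem_oB2 (F : ℕ → ℕ) (a b α B s : H) :
    mem a (ap (oB2 F) (pr b (pr α (pr B s)))) ↔ mem a B ∧ ¬ mem (ap F (pr b (pr α a))) s := by
  obtain ⟨a, rfl⟩ := rep a
  obtain ⟨b, rfl⟩ := rep b
  obtain ⟨α, rfl⟩ := rep α
  obtain ⟨B, rfl⟩ := rep B
  obtain ⟨s, rfl⟩ := rep s
  rw [pr_coe, pr_coe, pr_coe, pr_coe, pr_coe, ap_coe, ap_coe, mem_coe, mem_coe, mem_coe,
    ev_not, ← eventually_and]
  simp [oB2]

lemma mem_oBlo (F : ℕ → ℕ) (a b α B l w : H) :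
    mem a (ap (oBlo F) (pr b (pr α (pr B (pr l w))))) ↔
      mem a B ∧ mem (pr (ap F (pr b (pr α a))) w) l := by
  obtain ⟨a, rfl⟩ := rep a
  obtain ⟨b, rfl⟩ := rep b
  obtain ⟨α, rfl⟩ := rep α
  obtain ⟨B, rfl⟩ := rep B
  obtain ⟨l, rfl⟩ := rep l
  obtain ⟨w, rfl⟩ := rep w
  rw [pr_coe, pr_coe, pr_coe, pr_coe, pr_coe, pr_coe, ap_coe, ap_coe, pr_coe, mem_coe, mem_coe,
    mem_coe, ← eventually_and]
  simp [oBlo]

lemma mem_oBhi (F : ℕ → ℕ) (a b α B l w : H) :
    mem a (ap (oBhi F) (pr b (pr α (pr B (pr l w))))) ↔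
      mem a B ∧ mem (pr w (ap F (pr b (pr α a)))) l := by
  obtain ⟨a, rfl⟩ := rep a
  obtain ⟨b, rfl⟩ := rep b
  obtain ⟨α, rfl⟩ := rep α
  obtain ⟨B, rfl⟩ := rep B
  obtain ⟨l, rfl⟩ := rep l
  obtain ⟨w, rfl⟩ := rep w
  rw [pr_coe, pr_coe, pr_coe, pr_coe, pr_coe, pr_coe, ap_coe, ap_coe, pr_coe, mem_coe, mem_coe,
    mem_coe, ← eventually_and]
  simp [oBhi]

lemma tot_coe {s l : ℕ → ℕ} (h : ∀ x y, mem x (s : H) → mem y (s : H) →
    mem (pr x y) (l : H) ∨ mem (pr y x) (l : H)) :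
    ∀ᶠ i in U, ∀ x y, x ∈ fs (s i) → y ∈ fs (s i) →
      Nat.pair x y ∈ fs (l i) ∨ Nat.pair y x ∈ fs (l i) := by
  apply ev_forall (P := fun i x => ∀ y, x ∈ fs (s i) → y ∈ fs (s i) →
      Nat.pair x y ∈ fs (l i) ∨ Nat.pair y x ∈ fs (l i))
  intro x
  apply ev_forall
  intro y
  apply ev_imp
  intro hx
  apply ev_imp
  intro hy
  have := h (x : H) (y : H) hx hy
  rw [pr_coe, pr_coe, mem_coe, mem_coe, ← ev_or] at this
  exact this

lemma trans_coe {s l : ℕ → ℕ} (h : ∀ x y z, mem x (s : H) → mem y (s : H) → mem z (s : H) →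
    mem (pr x y) (l : H) → mem (pr y z) (l : H) → mem (pr x z) (l : H)) :
    ∀ᶠ i in U, ∀ x y z, x ∈ fs (s i) → y ∈ fs (s i) → z ∈ fs (s i) →
      Nat.pair x y ∈ fs (l i) → Nat.pair y z ∈ fs (l i) → Nat.pair x z ∈ fs (l i) := by
  apply ev_forall (P := fun i x => ∀ y z, x ∈ fs (s i) → y ∈ fs (s i) → z ∈ fs (s i) →
      Nat.pair x y ∈ fs (l i) → Nat.pair y z ∈ fs (l i) → Nat.pair x z ∈ fs (l i))
  intro x
  apply ev_forall (P := fun i y => ∀ z, x i ∈ fs (s i) → y ∈ fs (s i) → z ∈ fs (s i) →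
      Nat.pair (x i) y ∈ fs (l i) → Nat.pair y z ∈ fs (l i) → Nat.pair (x i) z ∈ fs (l i))
  intro y
  apply ev_forall
  intro z
  apply ev_imp
  intro hx
  apply ev_imp
  intro hy
  apply ev_imp
  intro hz
  apply ev_imp
  intro h1
  apply ev_imp
  intro h2
  exact h (x : H) (y : H) (z : H) hx hy hz h1 h2

lemma card_split (B : Finset ℕ) (p q : ℕ → Prop) [DecidablePred p] [DecidablePred q]
    (h : ∀ a, q a ↔ ¬ p a) :
    B.card ≤ 2 * (B.filter p).card ∨ B.card ≤ 2 * (B.filter q).card := by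
  have h1 := Finset.card_filter_add_card_filter_not (s := B) p
  have h2 : B.filter q = B.filter (fun a => ¬ p a) := Finset.filter_congr fun a _ => h a
  rw [h2]
  omega

/-- Keeping a new element decided. -/
lemma task_cut {M : Set H} (hM : Good M) {α : H} (hα : α ∈ M) {c : Cut} (hc : CutOK M c)
    (hd : c.Dec M) {F : ℕ → ℕ} (hF : FF F) :
    TaskOK M (fun a => mem (ap F (pr bb (pr α a))) c.s →
      c.Lo (ap F (pr bb (pr α a))) ∨ c.Hi (ap F (pr bb (pr α a)))) := by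
  intro B hB hL
  have hB1 : ap (oB1 F) (pr bb (pr α (pr B c.s))) ∈ M :=
    hM.ap (FF.oB1 hF) (hM.pr hM.bb (hM.pr hα (hM.pr hB hc.s)))
  have hB2 : ap (oB2 F) (pr bb (pr α (pr B c.s))) ∈ M :=
    hM.ap (FF.oB2 hF) (hM.pr hM.bb (hM.pr hα (hM.pr hB hc.s)))
  have hcase : Large (ap (oB1 F) (pr bb (pr α (pr B c.s)))) ∨
      Large (ap (oB2 F) (pr bb (pr α (pr B c.s)))) := by
    obtain ⟨α', eα⟩ := rep α
    obtain ⟨B', eB⟩ := rep B
    obtain ⟨s', es⟩ := rep c.s
    rw [eα, eB, es]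
    rw [eB] at hL
    unfold bb
    rw [pr_coe, pr_coe, pr_coe, ap_coe, ap_coe]
    have h1 : (∀ᶠ i in U, (fs (B' i)).card ≤ 2 * (fs (oB1 F (Nat.pair i (Nat.pair (α' i)
        (Nat.pair (B' i) (s' i)))))).card) ∨ ∀ᶠ i in U, (fs (B' i)).card ≤
        2 * (fs (oB2 F (Nat.pair i (Nat.pair (α' i) (Nat.pair (B' i) (s' i)))))).card := by
      rw [← ev_or]
      refine Eventually.of_forall fun i => ?_
      simp only [oB1, oB2, q1_pair, q2_pair, fs_cd]
      exact card_split (fs (B' i)) _ _ (fun _ => Iff.rfl)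
    rcases h1 with h1 | h1
    · left
      refine large_half hL ?_
      filter_upwards [h1] with i hi
      refine ⟨?_, hi⟩
      simp only [oB1, q1_pair, q2_pair, fs_cd]
      exact Finset.filter_subset _ _
    · right
      refine large_half hL ?_
      filter_upwards [h1] with i hi
      refine ⟨?_, hi⟩
      simp only [oB2, q1_pair, q2_pair, fs_cd]
      exact Finset.filter_subset _ _
  rcases hcase with hL1 | hL2
  · obtain ⟨B1, eB1⟩ : ∃ B1, B1 = ap (oB1 F) (pr bb (pr α (pr B c.s))) := ⟨_, rfl⟩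
    have hmem1 : ∀ a, mem a B1 ↔ mem a B ∧ mem (ap F (pr bb (pr α a))) c.s := by
      intro a
      rw [eB1, mem_oB1]
    rw [← eB1] at hB1 hL1
    have hwM : ap (oMed F) (pr bb (pr α (pr B1 c.l))) ∈ M :=
      hM.ap (FF.oMed hF) (hM.pr hM.bb (hM.pr hα (hM.pr hB1 hc.l)))
    obtain ⟨w, ew⟩ : ∃ w, w = ap (oMed F) (pr bb (pr α (pr B1 c.l))) := ⟨_, rfl⟩
    rw [← ew] at hwM
    have hpt : ∀ α' B' s' l' w' : ℕ → ℕ, α = (α' : H) → B1 = (B' : H) → c.s = (s' : H) →
        c.l = (l' : H) → w = (w' : H) → ∀ᶠ i in U,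
        (∀ a ∈ fs (B' i), F (Nat.pair i (Nat.pair (α' i) a)) ∈ fs (s' i)) ∧
        Med (fun a => F (Nat.pair i (Nat.pair (α' i) a))) (fs (B' i)) (l' i) (w' i) := by
      intro α' B' s' l' w' eα eB es el ew'
      have c1 := hc.tot
      have c2 := hc.trans
      rw [es, el] at c1 c2
      have c1' := tot_coe c1
      have c2' := trans_coe c2
      have c3 : ∀ᶠ i in U, ∀ a, a ∈ fs (B' i) → F (Nat.pair i (Nat.pair (α' i) a)) ∈ fs (s' i) := by
        apply ev_forall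
        intro a
        apply ev_imp
        intro ha
        have h1 := ((hmem1 (a : H)).1 (by rw [eB]; exact ha)).2
        rw [eα, es] at h1
        exact h1
      have c4 := hL1
      rw [eB, large_coe] at c4
      obtain ⟨N, hN⟩ := c4
      rw [ew', eα, eB, el] at ew
      unfold bb at ew
      rw [pr_coe, pr_coe, pr_coe, ap_coe, eq_coe] at ew
      filter_upwards [c1', c2', c3, hN, ew] with i d1 d2 d3 d4 d5
      refine ⟨d3, ?_⟩
      have hne : (fs (B' i)).Nonempty := by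
        rw [← Finset.card_pos]
        by_contra hcc
        have h7 : (fs (B' i)).card = 0 := by omega
        have h8 := d4.2
        rw [h7] at h8
        have h9 : 0 < 2 ^ i := by positivity
        omega
      have hex := exists_med (fun a => F (Nat.pair i (Nat.pair (α' i) a))) (fs (B' i)) hne (l' i)
        (fun a ha a' ha' => d1 _ _ (d3 a ha) (d3 a' ha'))
        (fun a ha a' ha' a'' ha'' => d2 _ _ _ (d3 a ha) (d3 a' ha') (d3 a'' ha''))
      simp only [oMed, q1_pair, q2_pair] at d5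
      rw [dif_pos hex] at d5
      rw [d5]
      exact hex.choose_spec
    have hws : mem w c.s := by
      obtain ⟨α', eα⟩ := rep α
      obtain ⟨B', eB⟩ := rep B1
      obtain ⟨s', es⟩ := rep c.s
      obtain ⟨l', el⟩ := rep c.l
      obtain ⟨w', ew'⟩ := rep w
      rw [ew', es, mem_coe]
      filter_upwards [hpt α' B' s' l' w' eα eB es el ew'] with i hi
      obtain ⟨a, ha, h1⟩ := hi.2.1
      rw [h1]
      exact hi.1 a ha
    rcases hd w hwM hws with hLo | hHi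
    · refine ⟨ap (oBlo F) (pr bb (pr α (pr B1 (pr c.l w)))), hM.ap (FF.oBlo hF)
        (hM.pr hM.bb (hM.pr hα (hM.pr hB1 (hM.pr hc.l hwM)))), ?_, ?_, ?_⟩
      · obtain ⟨α', eα⟩ := rep α
        obtain ⟨B', eB⟩ := rep B1
        obtain ⟨s', es⟩ := rep c.s
        obtain ⟨l', el⟩ := rep c.l
        obtain ⟨w', ew'⟩ := rep w
        have h1 := hpt α' B' s' l' w' eα eB es el ew'
        rw [eα, eB, el, ew']
        rw [eB] at hL1
        unfold bb
        rw [pr_coe, pr_coe, pr_coe, pr_coe, ap_coe]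
        refine large_half hL1 ?_
        filter_upwards [h1] with i hi
        simp only [oBlo, q1_pair, q2_pair, fs_cd]
        exact ⟨Finset.filter_subset _ _, hi.2.2.1⟩
      · intro a ha
        rw [mem_oBlo] at ha
        exact ((hmem1 a).1 ha.1).1
      · intro a ha h1
        rw [mem_oBlo] at ha
        exact Or.inl (hc.lo _ _ h1 hws ha.2 hLo)
    · refine ⟨ap (oBhi F) (pr bb (pr α (pr B1 (pr c.l w)))), hM.ap (FF.oBhi hF)
        (hM.pr hM.bb (hM.pr hα (hM.pr hB1 (hM.pr hc.l hwM)))), ?_, ?_, ?_⟩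
      · obtain ⟨α', eα⟩ := rep α
        obtain ⟨B', eB⟩ := rep B1
        obtain ⟨s', es⟩ := rep c.s
        obtain ⟨l', el⟩ := rep c.l
        obtain ⟨w', ew'⟩ := rep w
        have h1 := hpt α' B' s' l' w' eα eB es el ew'
        rw [eα, eB, el, ew']
        rw [eB] at hL1
        unfold bb
        rw [pr_coe, pr_coe, pr_coe, pr_coe, ap_coe]
        refine large_half hL1 ?_
        filter_upwards [h1] with i hi
        simp only [oBhi, q1_pair, q2_pair, fs_cd]
        exact ⟨Finset.filter_subset _ _, hi.2.2.2⟩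
      · intro a ha
        rw [mem_oBhi] at ha
        exact ((hmem1 a).1 ha.1).1
      · intro a ha h1
        rw [mem_oBhi] at ha
        exact Or.inr (hc.hi _ _ hws h1 ha.2 hHi)
  · refine ⟨_, hB2, hL2, ?_, ?_⟩
    · intro a ha
      exact ((mem_oB2 _ _ _ _ _ _).1 ha).1
    · intro a ha h1
      exact absurd h1 ((mem_oB2 _ _ _ _ _ _).1 ha).2

lemma mem_oSpl (a B D : H) : mem a (ap oSpl (pr B D)) ↔
    mem a B ∧ (∃ v, mem v D ∧ mem v a) ∧ ∃ v, mem v D ∧ ¬ mem v a := by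
  obtain ⟨a, rfl⟩ := rep a
  obtain ⟨B, rfl⟩ := rep B
  obtain ⟨D, rfl⟩ := rep D
  rw [pr_coe, ap_coe, mem_coe, mem_coe]
  simp only [oSpl, q1_pair, q2_pair, fs_cd, Finset.mem_filter]
  constructor
  · intro h
    have h1 : ∀ᶠ i in U, ∃ v, v ∈ fs (D i) ∧ v ∈ fs (a i) := h.mono fun i hi => hi.2.1
    have h2 : ∀ᶠ i in U, ∃ v, v ∈ fs (D i) ∧ v ∉ fs (a i) := h.mono fun i hi => hi.2.2
    obtain ⟨v, hv⟩ := ev_exists h1
    obtain ⟨v', hv'⟩ := ev_exists h2
    refine ⟨h.mono fun i hi => hi.1, ⟨(v : H), ?_, ?_⟩, ⟨(v' : H), ?_, ?_⟩⟩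
    · exact hv.mono fun i hi => hi.1
    · exact hv.mono fun i hi => hi.2
    · exact hv'.mono fun i hi => hi.1
    · rw [mem_coe, ev_not]
      exact hv'.mono fun i hi => hi.2
  · rintro ⟨h1, ⟨v, hv, hv2⟩, ⟨v', hv', hv2'⟩⟩
    obtain ⟨v, rfl⟩ := rep v
    obtain ⟨v', rfl⟩ := rep v'
    rw [mem_coe] at hv hv2 hv'
    rw [mem_coe, ev_not] at hv2'
    filter_upwards [h1, hv, hv2, hv', hv2'] with i d1 d2 d3 d4 d5
    exact ⟨d1, ⟨_, d2, d3⟩, ⟨_, d4, d5⟩⟩

/-- Splitting a big coded set. -/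
lemma task_split {M : Set H} (hM : Good M) {D : H} (hD : D ∈ M) (hb : ∀ v, mem v D → v < bb)
    (hbig : BigD D) :
    TaskOK M (fun a => (∃ v, mem v D ∧ mem v a) ∧ ∃ v, mem v D ∧ ¬ mem v a) := by
  intro B hB hL
  refine ⟨ap oSpl (pr B D), hM.ap FF.oSpl (hM.pr hB hD), ?_, ?_, ?_⟩
  · clear hB hD
    obtain ⟨B, rfl⟩ := rep B
    obtain ⟨D, rfl⟩ := rep D
    rw [large_coe] at hL
    obtain ⟨N, hN⟩ := hL
    have h1 : ∀ᶠ i in U, ∀ v, v ∈ fs (D i) → v < i := by
      apply ev_forall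
      intro v
      apply ev_imp
      intro hv
      exact (lt_coe _ _).1 (hb (v : H) hv)
    have h2 : ∀ᶠ i in U, N + 2 ≤ (fs (D i)).card := hbig (N + 2)
    rw [pr_coe, ap_coe, large_coe]
    refine ⟨N + 1, ?_⟩
    filter_upwards [hN, h1, h2] with i d1 d2 d3
    simp only [oSpl, q1_pair, q2_pair, fs_cd]
    refine ⟨(Finset.filter_subset _ _).trans d1.1, ?_⟩
    exact split_large i N _ _ d1.1 (fun v hv => Finset.mem_range.2 (d2 v hv)) d1.2 d3
  · intro a ha
    exact ((mem_oSpl _ _ _).1 ha).1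
  · intro a ha
    exact ((mem_oSpl _ _ _).1 ha).2

/-- The extension lemma. -/
theorem extend {α : H} (hα : α ∈ Mb) (Cs : Set Cut) (hCc : Cs.Countable)
    (hOK : ∀ c ∈ Cs, CutOK (hull α) c) (hDec : ∀ c ∈ Cs, c.Dec (hull α)) :
    ∃ a ∈ Mb, (∀ c ∈ Cs, c.Dec (hull (pr α a))) ∧
      ∀ D ∈ hull α, (∀ v, mem v D → v < bb) → BigD D →
        (∃ v, mem v D ∧ mem v a) ∧ ∃ v, mem v D ∧ ¬ mem v a := by
  have hM := good_hull hα
  have hαM := self_mem_hull α
  let Q1 : {F : ℕ → ℕ // FF F} × Cut → H → Prop := fun t a =>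
    mem (ap t.1.1 (pr bb (pr α a))) t.2.s →
      t.2.Lo (ap t.1.1 (pr bb (pr α a))) ∨ t.2.Hi (ap t.1.1 (pr bb (pr α a)))
  let Q2 : H → H → Prop := fun D a => (∃ v, mem v D ∧ mem v a) ∧ ∃ v, mem v D ∧ ¬ mem v a
  let S1 : Set ({F : ℕ → ℕ // FF F} × Cut) := Set.univ ×ˢ Cs
  let S2 : Set H := {D | D ∈ hull α ∧ (∀ v, mem v D → v < bb) ∧ BigD D}
  have hS1 : S1.Countable := by
    have : Countable {F : ℕ → ℕ // FF F} := FF.cnt.to_subtype
    exact (Set.to_countable _).prod hCc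
  have hS2 : S2.Countable := hM.cnt.mono fun D hD => hD.1
  obtain ⟨a, ha, h1⟩ := meet_tasks hM (Q1 '' S1 ∪ Q2 '' S2) ((hS1.image _).union (hS2.image _)) (by
    rintro Q (⟨t, ht, rfl⟩ | ⟨D, hD, rfl⟩)
    · exact task_cut hM hαM (hOK t.2 ht.2) (hDec t.2 ht.2) t.1.2
    · exact task_split hM hD.1 hD.2.1 hD.2.2)
  refine ⟨a, ha, ?_, ?_⟩
  · rintro c hc x ⟨F, hF, rfl⟩ hx
    exact h1 _ (Or.inl ⟨(⟨F, hF⟩, c), ⟨Set.mem_univ _, hc⟩, rfl⟩) hx
  · intro D hD hb hbig
    exact h1 _ (Or.inr ⟨D, ⟨hD, hb, hbig⟩, rfl⟩)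

end

end Pool.Agent.Helper803.Cads
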