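import Pool.Agent.Helper803.Cads.Model

/-!
The limit model satisfies `CADS` and not `COH`.
-/

namespace Pool.Agent.Helper803.Cads

open Filter RM
open scoped Classical

noncomputable section

namespace Chain

variable (C : Chain)

/-- Immediate successors exist when the interval to some larger element is bounded. -/
lemma succ_exists {m : ℕ} {D : H → Prop} {R : H → H → Prop} (hR : IsD2 (C.M m) (C.S m).W R)
    (hL : LinOn Mb D R) {Y : H → Prop} (hY : IsD (C.M m) (C.S m).W Y)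
    (hYD : ∀ x ∈ Mb, Y x → D x) {x y0 : H} (hx : x ∈ C.MM) (hy0 : y0 ∈ C.MM) (hYy : Y y0) (hxy : R x y0) (hne : x ≠ y0)
    (hb : ∃ h ∈ Mb, ∀ y ∈ Mb, Y y → R x y → R y y0 → y < h) :
    ∃ s ∈ C.MM, Y s ∧ R x s ∧ x ≠ s ∧ ∀ y ∈ C.MM, Y y → R x y → R y s → y = x ∨ y = s := by
  obtain ⟨i, hi⟩ := hx
  obtain ⟨i', hi'⟩ := hy0
  obtain ⟨h, hh, hb⟩ := hb
  obtain ⟨j, hj⟩ : ∃ j, j = max m (max i i') := ⟨_, rfl⟩
  have hM := C.good j
  have hI := C.ind j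
  have hxj := C.M_mono (show i ≤ j by omega) hi
  have hyj := C.M_mono (show i' ≤ j by omega) hi'
  have hRj : IsD2 (C.M j) (C.S j).W R := C.isD_mono (show m ≤ j by omega) hR
  have hYj := C.isD_mono (show m ≤ j by omega) hY
  obtain ⟨h', hh', hle⟩ := hM.cof hh
  have hQ : IsD (C.M j) (C.S j).W (fun y => Y y ∧ R x y ∧ R y y0 ∧ ¬ y = x) :=
    hYj.and hM (C.am j) ((hRj.comp hM (IsFn.const hxj) (IsFn.id hM)).and hM (C.am j)
      ((hRj.comp hM (IsFn.id hM) (IsFn.const hyj)).and hM (C.am j)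
        (IsD.eq hM (IsFn.id hM) (IsFn.const hxj)).not))
  have hxMb := hM.sub hxj
  have hyMb := hM.sub hyj
  obtain ⟨s, hs, ⟨h1, h2, h3, h4⟩, h5⟩ := rmin hM hI hRj hL hQ.1 (fun y hy hQy => hYD y hy hQy.1)
    hh' (fun y hy hQy => (hb y hy hQy.1 hQy.2.1 hQy.2.2.1).trans_le hle)
    ⟨y0, hyMb, hYy, hxy, hL.refl y0 hyMb (hYD y0 hyMb hYy), hne.symm⟩
  have hsMb := hM.sub hs
  refine ⟨s, ⟨j, hs⟩, h1, h2, Ne.symm h4, ?_⟩
  intro y hy hYy' hxy' hys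
  by_cases hyx : y = x
  · exact Or.inl hyx
  · right
    have hyMb' := C.MM_Mb hy
    have h6 : R y y0 := hL.trans y hyMb' s hsMb y0 hyMb hys h3
    have h7 := h5 y hyMb' ⟨hYy', hxy', h6, hyx⟩
    exact hL.antisymm y hyMb' s hsMb hys h7

/-- The stable suborder. -/
lemma stable_exists {m : ℕ} {D : H → Prop} {R : H → H → Prop}
    (hR : IsD2 (C.M m) (C.S m).W R) (hL : LinOn Mb D R) {X : Set H}
    (hXD : IsD (C.M m) (C.S m).W (fun x => x ∈ X)) (hX : ∀ x ∈ X, x ∈ Mb ∧ D x)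
    (hXu : ∀ h ∈ Mb, ∃ x ∈ X, x ∈ C.MM ∧ h ≤ x)
    (hdec : ∀ x ∈ C.MM, x ∈ X → LoX X R x ∨ HiX X R x) :
    ∃ j, ∃ Y : H → Prop, IsD (C.M j) (C.S j).W Y ∧ (∀ x, Y x → x ∈ X) ∧
      (∀ h ∈ Mb, ∃ x ∈ C.MM, h ≤ x ∧ Y x) ∧
      (∀ x ∈ C.MM, Y x → (∃ y ∈ C.MM, Y y ∧ R x y ∧ x ≠ y) →
        ∃ s ∈ C.MM, Y s ∧ R x s ∧ x ≠ s ∧ ∀ y ∈ C.MM, Y y → R x y → R y s → y = x ∨ y = s) ∧
      (∀ x ∈ C.MM, Y x → (∃ y ∈ C.MM, Y y ∧ R y x ∧ x ≠ y) →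
        ∃ s ∈ C.MM, Y s ∧ R s x ∧ x ≠ s ∧ ∀ y ∈ C.MM, Y y → R s y → R y x → y = x ∨ y = s) := by
  -- intervals are bounded when the upper end is low or the lower end is high
  have hlo : ∀ x ∈ Mb, x ∈ X → ∀ y ∈ Mb, y ∈ X → LoX X R y →
      ∃ h ∈ Mb, ∀ z ∈ Mb, z ∈ X → R x z → R z y → z < h := by
    rintro x hx hxX y hy hyX ⟨h, hh, h1⟩
    refine ⟨h + y + 1, Mb_add (Mb_add hh hy) Mb_one, fun z hz hzX _ hzy => ?_⟩
    rcases lt_or_ge z h with h2 | h2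
    · exact h2.trans_le ((le_max_left_add h y).trans (lt_add_one _).le)
    · have h3 := h1 z hzX h2
      have h4 := hL.antisymm z hz y hy hzy h3
      rw [h4]
      exact (le_max_right_add h y).trans_lt (lt_add_one _)
  have hhi : ∀ x ∈ Mb, x ∈ X → ∀ y ∈ Mb, y ∈ X → HiX X R x →
      ∃ h ∈ Mb, ∀ z ∈ Mb, z ∈ X → R x z → R z y → z < h := by
    rintro x hx hxX y hy hyX ⟨h, hh, h1⟩
    refine ⟨h + x + 1, Mb_add (Mb_add hh hx) Mb_one, fun z hz hzX hxz _ => ?_⟩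
    rcases lt_or_ge z h with h2 | h2
    · exact h2.trans_le ((le_max_left_add h x).trans (lt_add_one _).le)
    · have h3 := h1 z hzX h2
      have h4 := hL.antisymm z hz x hx h3 hxz
      rw [h4]
      exact (le_max_right_add h x).trans_lt (lt_add_one _)
  -- the criterion
  have crit : ∀ j, m ≤ j → ∀ Y : H → Prop, IsD (C.M j) (C.S j).W Y → (∀ x, Y x → x ∈ X) →
      (∀ h ∈ Mb, ∃ x ∈ C.MM, h ≤ x ∧ Y x) →
      (∀ x ∈ C.MM, Y x → (∃ y ∈ C.MM, Y y ∧ R x y ∧ x ≠ y) →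
        ∃ y ∈ C.MM, Y y ∧ R x y ∧ x ≠ y ∧ (LoX X R y ∨ HiX X R x)) →
      (∀ x ∈ C.MM, Y x → (∃ y ∈ C.MM, Y y ∧ R y x ∧ x ≠ y) →
        ∃ y ∈ C.MM, Y y ∧ R y x ∧ x ≠ y ∧ (LoX X R x ∨ HiX X R y)) →
      ∃ j, ∃ Y : H → Prop, IsD (C.M j) (C.S j).W Y ∧ (∀ x, Y x → x ∈ X) ∧
      (∀ h ∈ Mb, ∃ x ∈ C.MM, h ≤ x ∧ Y x) ∧
      (∀ x ∈ C.MM, Y x → (∃ y ∈ C.MM, Y y ∧ R x y ∧ x ≠ y) →
        ∃ s ∈ C.MM, Y s ∧ R x s ∧ x ≠ s ∧ ∀ y ∈ C.MM, Y y → R x y → R y s → y = x ∨ y = s) ∧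
      (∀ x ∈ C.MM, Y x → (∃ y ∈ C.MM, Y y ∧ R y x ∧ x ≠ y) →
        ∃ s ∈ C.MM, Y s ∧ R s x ∧ x ≠ s ∧ ∀ y ∈ C.MM, Y y → R s y → R y x → y = x ∨ y = s) := by
    intro j hj Y hY hYX hYu hs hp
    have hRj : IsD2 (C.M j) (C.S j).W R := C.isD_mono hj hR
    refine ⟨j, Y, hY, hYX, hYu, ?_, ?_⟩
    · intro x hx hYx hex
      obtain ⟨y, hy, hYy, hxy, hne, hlh⟩ := hs x hx hYx hex
      refine C.succ_exists hRj hL hY (fun x _ hx => (hX x (hYX x hx)).2) hx hy hYy hxy hne ?_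
      have hxX := hYX x hYx
      have hyX := hYX y hYy
      obtain ⟨h, hh, h1⟩ : ∃ h ∈ Mb, ∀ z ∈ Mb, z ∈ X → R x z → R z y → z < h := by
        rcases hlh with h | h
        · exact hlo x (C.MM_Mb hx) hxX y (C.MM_Mb hy) hyX h
        · exact hhi x (C.MM_Mb hx) hxX y (C.MM_Mb hy) hyX h
      exact ⟨h, hh, fun z hz hYz => h1 z hz (hYX z hYz)⟩
    · intro x hx hYx hex
      obtain ⟨y, hy, hYy, hxy, hne, hlh⟩ := hp x hx hYx hex
      have hxX := hYX x hYx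
      have hyX := hYX y hYy
      obtain ⟨h, hh, h1⟩ : ∃ h ∈ Mb, ∀ z ∈ Mb, z ∈ X → R y z → R z x → z < h := by
        rcases hlh with h | h
        · exact hlo y (C.MM_Mb hy) hyX x (C.MM_Mb hx) hxX h
        · exact hhi y (C.MM_Mb hy) hyX x (C.MM_Mb hx) hxX h
      obtain ⟨s, hsM, h2, h3, h4, h5⟩ := C.succ_exists (R := fun a b => R b a) (hRj.swap (C.good j))
        hL.swap hY (fun x _ hx => (hX x (hYX x hx)).2) hx hy hYy hxy hne
        ⟨h, hh, fun z hz hYz hzx hyz => h1 z hz (hYX z hYz) hyz hzx⟩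
      exact ⟨s, hsM, h2, h3, h4, fun z hz hYz hsz hzx => h5 z hz hYz hzx hsz⟩
  by_cases hcase1 : ∃ x0 ∈ C.MM, x0 ∈ X ∧ LoX X R x0 ∧
      ∀ y ∈ C.MM, y ∈ X → R x0 y → y ≠ x0 → HiX X R y
  · obtain ⟨x0, ⟨i, hi⟩, hx0X, hlo0, h1⟩ := hcase1
    obtain ⟨j, hj⟩ : ∃ j, j = max m i := ⟨_, rfl⟩
    have hM := C.good j
    have hxj := C.M_mono (show i ≤ j by omega) hi
    have hRj : IsD2 (C.M j) (C.S j).W R := C.isD_mono (show m ≤ j by omega) hR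
    have hXj := C.isD_mono (show m ≤ j by omega) hXD
    have hYD : IsD (C.M j) (C.S j).W (fun y => y ∈ X ∧ R x0 y ∧ ¬ y = x0) :=
      hXj.and hM (C.am j) ((hRj.comp hM (IsFn.const hxj) (IsFn.id hM)).and hM (C.am j)
        (IsD.eq hM (IsFn.id hM) (IsFn.const hxj)).not)
    refine crit j (by omega) _ hYD (fun x hx => hx.1) ?_ ?_ ?_
    · intro h hh
      obtain ⟨h0, hh0, h2⟩ := hlo0
      obtain ⟨x, hxX, hxM, h3⟩ := hXu (h + h0 + (x0 + 1))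
        (Mb_add (Mb_add hh hh0) (Mb_add (hM.sub hxj) Mb_one))
      have h4 : h + h0 ≤ x := (le_max_left_add _ _).trans h3
      have h5 : x0 + 1 ≤ x := (le_max_right_add _ _).trans h3
      refine ⟨x, hxM, (le_max_left_add _ _).trans h4, hxX,
        h2 x hxX ((le_max_right_add _ _).trans h4), ?_⟩
      exact (lt_of_lt_of_le (lt_add_one x0) h5).ne'
    · rintro x hx ⟨hxX, hx1, hx2⟩ ⟨y, hy, hYy, hxy, hne⟩
      exact ⟨y, hy, hYy, hxy, hne, Or.inr (h1 x hx hxX hx1 hx2)⟩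
    · rintro x hx ⟨hxX, hx1, hx2⟩ ⟨y, hy, hYy, hxy, hne⟩
      exact ⟨y, hy, hYy, hxy, hne, Or.inr (h1 y hy hYy.1 hYy.2.1 hYy.2.2)⟩
  by_cases hcase2 : ∃ x0 ∈ C.MM, x0 ∈ X ∧ HiX X R x0 ∧
      ∀ y ∈ C.MM, y ∈ X → R y x0 → y ≠ x0 → LoX X R y
  · obtain ⟨x0, ⟨i, hi⟩, hx0X, hhi0, h1⟩ := hcase2
    obtain ⟨j, hj⟩ : ∃ j, j = max m i := ⟨_, rfl⟩
    have hM := C.good j
    have hxj := C.M_mono (show i ≤ j by omega) hi
    have hRj : IsD2 (C.M j) (C.S j).W R := C.isD_mono (show m ≤ j by omega) hR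
    have hXj := C.isD_mono (show m ≤ j by omega) hXD
    have hYD : IsD (C.M j) (C.S j).W (fun y => y ∈ X ∧ R y x0 ∧ ¬ y = x0) :=
      hXj.and hM (C.am j) ((hRj.comp hM (IsFn.id hM) (IsFn.const hxj)).and hM (C.am j)
        (IsD.eq hM (IsFn.id hM) (IsFn.const hxj)).not)
    refine crit j (by omega) _ hYD (fun x hx => hx.1) ?_ ?_ ?_
    · intro h hh
      obtain ⟨h0, hh0, h2⟩ := hhi0
      obtain ⟨x, hxX, hxM, h3⟩ := hXu (h + h0 + (x0 + 1))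
        (Mb_add (Mb_add hh hh0) (Mb_add (hM.sub hxj) Mb_one))
      have h4 : h + h0 ≤ x := (le_max_left_add _ _).trans h3
      have h5 : x0 + 1 ≤ x := (le_max_right_add _ _).trans h3
      refine ⟨x, hxM, (le_max_left_add _ _).trans h4, hxX,
        h2 x hxX ((le_max_right_add _ _).trans h4), ?_⟩
      exact (lt_of_lt_of_le (lt_add_one x0) h5).ne'
    · rintro x hx ⟨hxX, hx1, hx2⟩ ⟨y, hy, hYy, hxy, hne⟩
      exact ⟨y, hy, hYy, hxy, hne, Or.inl (h1 y hy hYy.1 hYy.2.1 hYy.2.2)⟩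
    · rintro x hx ⟨hxX, hx1, hx2⟩ ⟨y, hy, hYy, hxy, hne⟩
      exact ⟨y, hy, hYy, hxy, hne, Or.inl (h1 x hx hxX hx1 hx2)⟩
  -- the remaining case
  push Not at hcase1 hcase2
  refine crit m le_rfl _ hXD (fun x hx => hx) ?_ ?_ ?_
  · intro h hh
    obtain ⟨x, hxX, hxM, h3⟩ := hXu h hh
    exact ⟨x, hxM, h3, hxX⟩
  · rintro x hx hxX ⟨y, hy, hYy, hxy, hne⟩
    rcases hdec x hx hxX with h | h
    · obtain ⟨z, hz, hzX, hxz, hzx, hnz⟩ := hcase1 x hx hxX h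
      rcases hdec z hz hzX with h2 | h2
      · exact ⟨z, hz, hzX, hxz, hzx.symm, Or.inl h2⟩
      · exact absurd h2 hnz
    · exact ⟨y, hy, hYy, hxy, hne, Or.inr h⟩
  · rintro x hx hxX ⟨y, hy, hYy, hxy, hne⟩
    rcases hdec x hx hxX with h | h
    · exact ⟨y, hy, hYy, hxy, hne, Or.inl h⟩
    · obtain ⟨z, hz, hzX, hxz, hzx, hnz⟩ := hcase2 x hx hxX h
      rcases hdec z hz hzX with h2 | h2
      · exact absurd h2 hnz
      · exact ⟨z, hz, hzX, hxz, hzx.symm, Or.inr h2⟩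

lemma pair_inj_nat {x y x' y' : ℕ} (h : (x + y) * (x + y) + x = (x' + y') * (x' + y') + x') :
    x = x' ∧ y = y' := by
  have key : ∀ s s' a a' : ℕ, a ≤ s → s < s' → s * s + a < s' * s' + a' := by
    intro s s' a a' ha hs
    have h1 : (s + 1) * (s + 1) ≤ s' * s' := Nat.mul_le_mul hs hs
    have h2 : (s + 1) * (s + 1) = s * s + 2 * s + 1 := by ring
    omega
  rcases lt_trichotomy (x + y) (x' + y') with h1 | h1 | h1
  · have := key (x + y) (x' + y') x x' (by omega) h1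
    omega
  · rw [h1] at h
    omega
  · have := key (x' + y') (x + y) x' x (by omega) h1
    omega

lemma pair_inj_H {x y x' y' : H}
    (h : (x + y) * (x + y) + x = (x' + y') * (x' + y') + x') : x = x' ∧ y = y' := by
  obtain ⟨x, rfl⟩ := rep x
  obtain ⟨y, rfl⟩ := rep y
  obtain ⟨x', rfl⟩ := rep x'
  obtain ⟨y', rfl⟩ := rep y'
  rw [add_coe, add_coe, mul_coe, mul_coe, add_coe, add_coe, eq_coe] at h
  rw [eq_coe, eq_coe, ← eventually_and]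
  exact h.mono fun i hi => pair_inj_nat hi

/-- `CADS` holds in the limit. -/
theorem cads : CADS C.NN := by
  rintro D ⟨n1, ρD, hρD, hD⟩ R ⟨n2, ρR, hρR, hR⟩ hlin hinf
  obtain ⟨i, hi⟩ : ∃ i, i = max n1 n2 := ⟨_, rfl⟩
  have hMi := C.good i
  have gD := C.isD_mono (show n1 ≤ i by omega) hρD
  have gR := C.isD_mono (show n2 ≤ i by omega) hρR
  let RH : H → H → Prop := fun x y => ρR ((x + y) * (x + y) + x)
  have gRH : IsD2 (C.M i) (C.S i).W RH := by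
    have f1 := IsFn.q1 hMi
    have f2 := IsFn.q2 hMi
    exact gR.comp hMi ((((f1.add hMi f2).mul hMi (f1.add hMi f2))).add hMi f1)
  have eR : ∀ x y : C.NN.M, R x y ↔ RH x.1 y.1 := by
    intro x y
    have h1 := hR (C.NN.pair x y)
    constructor
    · intro h
      exact h1.1 ⟨x, y, h, rfl⟩
    · intro h
      obtain ⟨x', y', h2, h3⟩ := h1.2 h
      have h4 := pair_inj_H (congrArg Subtype.val h3)
      have e1 : x = x' := Subtype.ext h4.1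
      have e2 : y = y' := Subtype.ext h4.2
      rw [e1, e2]
      exact h2
  have hL : LinOn C.MM ρD RH := by
    constructor
    · intro x hx y hy h
      have h1 := hlin.dom ⟨x, hx⟩ ⟨y, hy⟩ ((eR _ _).2 h)
      exact ⟨(hD _).1 h1.1, (hD _).1 h1.2⟩
    · intro x hx h
      exact (eR ⟨x, hx⟩ ⟨x, hx⟩).1 (hlin.refl ⟨x, hx⟩ ((hD _).2 h))
    · intro x hx y hy h1 h2
      exact congrArg Subtype.val (hlin.antisymm ⟨x, hx⟩ ⟨y, hy⟩ ((eR _ _).2 h1) ((eR _ _).2 h2))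
    · intro x hx y hy z hz h1 h2
      exact (eR ⟨x, hx⟩ ⟨z, hz⟩).1
        (hlin.trans ⟨x, hx⟩ ⟨y, hy⟩ ⟨z, hz⟩ ((eR _ _).2 h1) ((eR _ _).2 h2))
    · intro x hx y hy h1 h2
      rcases hlin.total ⟨x, hx⟩ ((hD _).2 h1) ⟨y, hy⟩ ((hD _).2 h2) with h | h
      · exact Or.inl ((eR _ _).1 h)
      · exact Or.inr ((eR _ _).1 h)
  have hunb : ∀ m ∈ C.MM, ∃ x ∈ C.MM, m ≤ x ∧ ρD x := by
    intro m hm
    by_contra hc
    push Not at hc
    refine hinf ⟨⟨m, hm⟩, fun y hy => ?_⟩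
    by_contra hc2
    have h1 : m ≤ y.1 := not_lt.1 hc2
    exact hc y.1 y.2 h1 ((hD y).1 hy)
  obtain ⟨hLb, n, hin, X, hXD, hX, hXu, hdec⟩ := C.solve gD gRH hL hunb
  have gRHn : IsD2 (C.M n) (C.S n).W RH := C.isD_mono hin gRH
  obtain ⟨j, Y, hY, hYX, hYu, hsucc, hpred⟩ := C.stable_exists gRHn hLb hXD hX hXu hdec
  refine ⟨{x : C.NN.M | Y x.1}, ⟨j, Y, hY, fun x => Iff.rfl⟩, ?_, ⟨?_, ?_⟩, ?_, ?_, ?_⟩
  · intro x hx
    exact (hD x).2 (hX x.1 (hYX x.1 hx)).2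
  · -- immediate predecessors
    intro x hx hnf
    have hex : ∃ y ∈ C.MM, Y y ∧ RH y x.1 ∧ x.1 ≠ y := by
      by_contra hc
      push Not at hc
      refine hnf ⟨hx, fun y hy => ?_⟩
      have hxD : x ∈ D := (hD x).2 (hX x.1 (hYX x.1 hx)).2
      have hyD : y ∈ D := (hD y).2 (hX y.1 (hYX y.1 hy)).2
      rcases hlin.total x hxD y hyD with h | h
      · exact h
      · have h2 := hc y.1 y.2 hy ((eR y x).1 h)
        have h3 : x = y := Subtype.ext h2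
        rw [← h3]
        exact hlin.refl x hxD
    obtain ⟨s, hsM, h1, h2, h3, h4⟩ := hpred x.1 x.2 hx hex
    refine ⟨⟨s, hsM⟩, h1, hx, (eR ⟨s, hsM⟩ x).2 h2, fun h => h3 (congrArg Subtype.val h).symm, ?_⟩
    intro z hz hsz hzx
    rcases h4 z.1 z.2 hz ((eR ⟨s, hsM⟩ z).1 hsz) ((eR z x).1 hzx) with h | h
    · exact Or.inr (Subtype.ext h)
    · exact Or.inl (Subtype.ext h)
  · -- immediate successors
    intro x hx hnf
    have hex : ∃ y ∈ C.MM, Y y ∧ RH x.1 y ∧ x.1 ≠ y := by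
      by_contra hc
      push Not at hc
      refine hnf ⟨hx, fun y hy => ?_⟩
      have hxD : x ∈ D := (hD x).2 (hX x.1 (hYX x.1 hx)).2
      have hyD : y ∈ D := (hD y).2 (hX y.1 (hYX y.1 hy)).2
      rcases hlin.total x hxD y hyD with h | h
      · have h2 := hc y.1 y.2 hy ((eR x y).1 h)
        have h3 : x = y := Subtype.ext h2
        rw [← h3]
        exact hlin.refl x hxD
      · exact h
    obtain ⟨s, hsM, h1, h2, h3, h4⟩ := hsucc x.1 x.2 hx hex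
    refine ⟨⟨s, hsM⟩, hx, h1, (eR x ⟨s, hsM⟩).2 h2, fun h => h3 (congrArg Subtype.val h), ?_⟩
    intro z hz hxz hzs
    rcases h4 z.1 z.2 hz ((eR x z).1 hxz) ((eR z ⟨s, hsM⟩).1 hzs) with h | h
    · exact Or.inl (Subtype.ext h)
    · exact Or.inr (Subtype.ext h)
  · -- two elements
    obtain ⟨x, hx, _, hYx⟩ := hYu 0 Mb_zero
    obtain ⟨y, hy, hxy, hYy⟩ := hYu (x + 1) (Mb_add (C.MM_Mb hx) Mb_one)
    refine ⟨⟨x, hx⟩, hYx, ⟨y, hy⟩, hYy, ?_⟩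
    intro h
    have h1 : x = y := congrArg Subtype.val h
    rw [← h1] at hxy
    exact absurd (lt_add_one x) (not_lt.2 hxy)
  · -- infinite
    rintro ⟨b, hb⟩
    obtain ⟨x, hx, hbx, hYx⟩ := hYu b.1 (C.MM_Mb b.2)
    have h1 : x < b.1 := hb ⟨x, hx⟩ hYx
    exact absurd h1 (not_lt.2 hbx)
  · -- finitely many predecessors or finitely many successors
    intro x hx
    have hxX := hYX x.1 hx
    rcases hdec x.1 x.2 hxX with ⟨h, hh, h1⟩ | ⟨h, hh, h1⟩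
    · left
      obtain ⟨h', hh', hle⟩ := (C.good 0).cof hh
      refine ⟨⟨h', ⟨0, hh'⟩⟩, ?_⟩
      rintro y ⟨hyY, hyx, hne⟩
      change y.1 < h'
      by_contra hc
      have h2 := h1 y.1 (hYX y.1 hyY) (hle.trans (not_lt.1 hc))
      exact hne (hlin.antisymm y x hyx ((eR x y).2 h2))
    · right
      obtain ⟨h', hh', hle⟩ := (C.good 0).cof hh
      refine ⟨⟨h', ⟨0, hh'⟩⟩, ?_⟩
      rintro y ⟨hyY, hyx, hne⟩
      change y.1 < h'
      by_contra hc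
      have h2 := h1 y.1 (hYX y.1 hyY) (hle.trans (not_lt.1 hc))
      exact hne (hlin.antisymm y x ((eR y x).2 h2) hyx)

lemma decode_H (i x : H) : ap oDi ((i + x) * (i + x) + i) = i ∧
    ap oDx ((i + x) * (i + x) + i) = x := by
  obtain ⟨i, rfl⟩ := rep i
  obtain ⟨x, rfl⟩ := rep x
  rw [add_coe, mul_coe, add_coe, ap_coe, ap_coe, eq_coe, eq_coe]
  have h : ∀ a b : ℕ, Nat.sqrt ((a + b) * (a + b) + a) = a + b := fun a b =>
    Nat.sqrt_add_eq (a + b) (by omega)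
  constructor
  · refine Eventually.of_forall fun k => ?_
    simp only [oDi, h]
    omega
  · refine Eventually.of_forall fun k => ?_
    simp only [oDx, h]
    omega

/-- `COH` fails in the limit. -/
theorem not_coh : ¬ COH C.NN := by
  intro hcoh
  have hM := C.good 0
  have hA := C.am 0
  have htot := Cr.exists hM (C.ind 0) (C.X0_D 0) C.X0M (C.X0_unb 0)
  let ρ : H → Prop := fun p => ∃ v ∈ Mb, Cr C.X0 (ap oDx p) v ∧ mem v (ap oDi p)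
  have hCr : IsSg (C.M 0) (C.S 0).W (fun t => Cr C.X0 (ap oDx (ap q1 t)) (ap q2 t)) := by
    have h1 := (isSg_Cr hM (C.ind 0) (C.X0_D 0)).comp hM
      (((IsFn.q1 hM).ap FF.oDx).pr hM (IsFn.q2 hM))
    refine h1.congr fun t _ => ?_
    rw [ap_q1, ap_q2]
  have hmem : IsD (C.M 0) (C.S 0).W (fun t => mem (ap q2 t) (ap oDi (ap q1 t))) :=
    IsD.mem hM (IsFn.q2 hM) ((IsFn.q1 hM).ap FF.oDi)
  have hρ : IsD (C.M 0) (C.S 0).W ρ := by
    constructor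
    · exact IsSg.ex (ρ := fun p v => Cr C.X0 (ap oDx p) v ∧ mem v (ap oDi p)) hA
        (hCr.and hM hA hmem.1)
    · refine (IsSg.ex (ρ := fun p v => Cr C.X0 (ap oDx p) v ∧ ¬ mem v (ap oDi p)) hA
        (hCr.and hM hA hmem.2)).congr ?_
      intro p hp
      constructor
      · rintro ⟨v, _, h1, h2⟩ ⟨v', _, h3, h4⟩
        rw [h1.unique h3] at h2
        exact h2 h4
      · intro h1
        obtain ⟨v, hv, h2⟩ := htot (ap oDx p) (Mb_ap FF.oDx hp)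
        exact ⟨v, hv, h2, fun h3 => h1 ⟨v, hv, h2, h3⟩⟩
  obtain ⟨A, ⟨n, Q, hQ, hAQ⟩, hinf, hA2⟩ := hcoh {p : C.NN.M | ρ p.1} ⟨0, ρ, hρ, fun x => Iff.rfl⟩
  have hunb : Unb (C.M n) Q := by
    intro m hm
    by_contra hc
    push Not at hc
    refine hinf ⟨⟨m, ⟨n, hm⟩⟩, fun y hy => ?_⟩
    by_contra hc2
    have h1 : m ≤ y.1 := not_lt.1 hc2
    exact hc y.1 (C.MM_Mb y.2) h1 ((hAQ y).1 hy)
  obtain ⟨a, ha, hspl⟩ := C.split hQ.1 hunb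
  have hsec : ∀ x : C.NN.M, x ∈ Sec C.NN {p : C.NN.M | ρ p.1} ⟨a, ha⟩ ↔
      ∃ v ∈ Mb, Cr C.X0 x.1 v ∧ mem v a := by
    intro x
    have h1 := decode_H a x.1
    change (∃ v ∈ Mb, Cr C.X0 (ap oDx ((a + x.1) * (a + x.1) + a)) v ∧
      mem v (ap oDi ((a + x.1) * (a + x.1) + a))) ↔ _
    rw [h1.1, h1.2]
  rcases hA2 ⟨a, ha⟩ with ⟨b, hb⟩ | ⟨b, hb⟩
  · obtain ⟨_, m, hm, hQm, hbm, v, hv, hCrm, hva⟩ := hspl b.1 b.2
    have h2 : (⟨m, hm⟩ : C.NN.M) ∈ A \ Sec C.NN {p : C.NN.M | ρ p.1} ⟨a, ha⟩ := by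
      refine ⟨(hAQ ⟨m, hm⟩).2 hQm, fun h5 => ?_⟩
      obtain ⟨v', _, h3, h4⟩ := (hsec ⟨m, hm⟩).1 h5
      rw [hCrm.unique h3] at hva
      exact hva h4
    have h3 : m < b.1 := hb _ h2
    exact absurd h3 (not_lt.2 hbm)
  · obtain ⟨⟨m, hm, hQm, hbm, v, hv, hCrm, hva⟩, _⟩ := hspl b.1 b.2
    have h2 : (⟨m, hm⟩ : C.NN.M) ∈ A ∩ Sec C.NN {p : C.NN.M | ρ p.1} ⟨a, ha⟩ := by
      exact ⟨(hAQ ⟨m, hm⟩).2 hQm, (hsec ⟨m, hm⟩).2 ⟨v, hv, hCrm, hva⟩⟩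
    have h3 : m < b.1 := hb _ h2
    exact absurd h3 (not_lt.2 hbm)

end Chain

/-- There is a model of `RCA₀ + CADS` in which `COH` fails. -/
theorem main : ∃ N : L2Structure.{0}, IsModelRCA0 N ∧ CADS N ∧ ¬ COH N := by
  obtain ⟨C⟩ := exists_Chain
  exact ⟨C.NN, C.isModel, C.cads, C.not_coh⟩

end

end Pool.Agent.Helper803.Cads
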