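import Pool.Agent.Helper803.Cads.Sg

/-!
The generic construction: a set almost contained in each member of a decreasing sequence of
unbounded `Σ₁` sets, preserving `Σ₁` induction.
-/

namespace Pool.Agent.Helper803.Cads

open Filter
open scoped Classical

noncomputable section

/-- The condition `(s', h')` extends `(s, h)` inside `A`. -/
structure Ext (A : H → Prop) (s h s' h' : H) : Prop where
  le : h ≤ h'
  bd : ∀ x, mem x s' → x < h'
  eq : ∀ x, x < h → (mem x s ↔ mem x s')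
  sub : ∀ x, mem x s' → h ≤ x → A x

lemma Ext.trans {A : H → Prop} {s h s' h' s'' h'' : H} (a : Ext A s h s' h')
    (b : Ext A s' h' s'' h'') : Ext A s h s'' h'' where
  le := a.le.trans b.le
  bd := b.bd
  eq := fun x hx => (a.eq x hx).trans (b.eq x (hx.trans_le a.le))
  sub := by
    intro x hx hx2
    by_cases h3 : x < h'
    · exact a.sub x ((b.eq x h3).2 hx) hx2
    · exact b.sub x hx (not_lt.1 h3)

lemma Ext.refl {A : H → Prop} {s h : H} (hb : ∀ x, mem x s → x < h) : Ext A s h s h where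
  le := le_refl h
  bd := hb
  eq := fun _ _ => Iff.rfl
  sub := fun x hx hx2 => absurd (hb x hx) (not_lt.2 hx2)

lemma Ext.weaken {A B : H → Prop} {s h s' h' : H} (a : Ext A s h s' h') (hAB : ∀ x, A x → B x) :
    Ext B s h s' h' where
  le := a.le
  bd := a.bd
  eq := a.eq
  sub := fun x hx hx2 => hAB x (a.sub x hx hx2)

lemma jc_rs {h h' a b a' b' : ℕ} (hh : h ≤ h') (ha : ∀ x < h, x ∈ fs a ↔ x ∈ fs a')
    (hb : ∀ x < h, x ∈ fs b ↔ x ∈ fs b') : rs (jc h' a' b') (h + h) = jc h a b := by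
  apply fs_inj
  ext x
  simp only [mem_rs, jc, mem_cf]
  constructor
  · rintro ⟨⟨h1, h2⟩, h3⟩
    refine ⟨h3, ?_⟩
    rcases h2 with h2 | h2
    · exact Or.inl ⟨h2.1, (ha _ (by omega)).2 h2.2⟩
    · exact Or.inr ⟨h2.1, (hb _ (by omega)).2 h2.2⟩
  · rintro ⟨h1, h2⟩
    refine ⟨⟨by omega, ?_⟩, h1⟩
    rcases h2 with h2 | h2
    · exact Or.inl ⟨h2.1, (ha _ (by omega)).1 h2.2⟩
    · exact Or.inr ⟨h2.1, (hb _ (by omega)).1 h2.2⟩

lemma rs_rs {v w h : ℕ} (hh : h ≤ w) : rs (rs v w) h = rs v h := by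
  apply fs_inj
  ext x
  simp only [mem_rs]
  constructor
  · rintro ⟨⟨h1, _⟩, h3⟩
    exact ⟨h1, h3⟩
  · rintro ⟨h1, h2⟩
    exact ⟨⟨h1, by omega⟩, h2⟩

lemma mono_oGen {T TA : ℕ → ℕ} (hA : Mono TA) : Mono (oGen T TA) := by
  intro P j w w' v hw h1
  simp only [oGen, hol_mk] at h1 ⊢
  obtain ⟨s', h', ⟨h2, h3, h4, h5, h6⟩, h7⟩ := h1
  refine ⟨s', h', ⟨h2, by omega, h4, h5, fun x hx hx2 => hA _ _ _ _ _ hw (h6 x hx hx2)⟩, ?_⟩
  have h8 : gN T (q1 P) (q1 (q2 P)) s' h' (rs v w) = gN T (q1 P) (q1 (q2 P)) s' h' v := by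
    unfold gN
    rw [rs_rs h3]
  rw [← h8]
  exact h7

lemma bd_coe {s h : ℕ → ℕ} (hb : ∀ x, mem x (s : H) → x < (h : H)) :
    ∀ᶠ i in U, ∀ x ∈ fs (s i), x < h i := by
  apply ev_forall
  intro x
  apply ev_imp
  intro hx
  exact (lt_coe _ _).1 (hb (x : H) hx)

lemma eq_below_coe {s s' h : ℕ → ℕ}
    (hb : ∀ x, x < (h : H) → (mem x (s : H) ↔ mem x (s' : H))) :
    ∀ᶠ i in U, ∀ x < h i, x ∈ fs (s i) ↔ x ∈ fs (s' i) := by
  apply ev_forall
  intro x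
  apply ev_imp
  intro hx
  have h1 := hb (x : H) ((lt_coe _ _).2 hx)
  rw [mem_coe, mem_coe] at h1
  filter_upwards [ev_imp h1.1, ev_imp h1.2] with i h2 h3
  exact ⟨h2, h3⟩

/-- Deciding one `Σ₁` set by a maximal condition. -/
lemma gen_step {M W : Set H} (hM : Good M) (hI : Ind M W) {A : H → Prop} (hA : IsSg M W A)
    {s h : H} (hs : s ∈ M) (hh : h ∈ M) (hb : ∀ x, mem x s → x < h) {T : ℕ → ℕ} (hT : FF T)
    (hm : Mono T) {p z : H} (hp : p ∈ M) (hz : z ∈ M) :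
    ∃ s' ∈ M, ∃ h' ∈ M, Ext A s h s' h' ∧ ∀ s'' ∈ M, ∀ h'' ∈ M, Ext A s' h' s'' h'' →
      ∀ u' u'', cod W h' u' → cod W h'' u'' → ∀ x, x < z →
        T4 T p x (h'' + h'') (jcH h'' u'' s'') → T4 T p x (h' + h') (jcH h' u' s') := by
  obtain ⟨TA, hTA, hmA, pA, hpA, hA1⟩ := hA
  have hP : pr p (pr z (pr s (pr h pA))) ∈ M := hM.pr hp (hM.pr hz (hM.pr hs (hM.pr hh hpA)))
  obtain ⟨D, hD, e, he, v, hv, hev, hDe⟩ := hI.bd (oGen T TA) (FF.oGen hT hTA) (mono_oGen hmA)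
    _ hP (z + 1) (hM.add hz hM.one)
  -- zero belongs to `D`
  have h0 : mem 0 D := by
    rw [(hDe 0).1]
    obtain ⟨v0, _, hv0⟩ := hI.am h hh
    refine ⟨?_, h, v0, hM.sub hh, hv0, ?_⟩
    · obtain ⟨z, rfl⟩ := rep z
      rw [zero_coe, one_coe, add_coe, lt_coe]
      exact Eventually.of_forall fun i => by omega
    · clear hDe hA1 hP hs hh hp hz hpA hv0
      obtain ⟨p, rfl⟩ := rep p
      obtain ⟨z, rfl⟩ := rep z
      obtain ⟨s, rfl⟩ := rep s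
      obtain ⟨h, rfl⟩ := rep h
      obtain ⟨pA, rfl⟩ := rep pA
      obtain ⟨v0, rfl⟩ := rep v0
      have h1 := bd_coe hb
      rw [pr_coe, pr_coe, pr_coe, pr_coe, zero_coe, T4_coe]
      simp only [oGen, hol_mk, q1_pair, q2_pair]
      filter_upwards [h1] with i hi
      refine ⟨s i, h i, ⟨le_refl _, le_refl _, hi, fun x _ => Iff.rfl, ?_⟩, Nat.zero_le _⟩
      intro x hx hx2
      have := hi x hx
      omega
  obtain ⟨j0, hj0, hj1, hj2⟩ := exists_greatest hM hD ⟨0, h0⟩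
  have hj3 := (hDe j0).2 hj1
  have hE : ap (oGenS T TA) (pr (pr p (pr z (pr s (pr h pA)))) (pr j0 (pr e v))) ∈ M :=
    hM.ap (FF.oGenS hT hTA) (hM.pr hP (hM.pr hj0 (hM.pr he hv)))
  obtain ⟨a, haM, hadef⟩ : ∃ a ∈ M,
      a = ap (oGenS T TA) (pr (pr p (pr z (pr s (pr h pA)))) (pr j0 (pr e v))) := ⟨_, hE, rfl⟩
  refine ⟨ap q1 a, hM.ap FF.q1 haM, ap q2 a, hM.ap FF.q2 haM, ?_⟩
  have hpt : ∀ (p' z' s' h' pA' j0' e' v' a' : ℕ → ℕ), p = (p' : H) → z = (z' : H) →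
      s = (s' : H) → h = (h' : H) → pA = (pA' : H) → j0 = (j0' : H) → e = (e' : H) →
      v = (v' : H) → a = (a' : H) →
      ∀ᶠ i in U, gE TA (pA' i) (s' i) (h' i) (q1 (a' i)) (q2 (a' i)) (e' i) (v' i) ∧
        j0' i ≤ (gN T (p' i) (z' i) (q1 (a' i)) (q2 (a' i)) (v' i)).card := by
    intro p' z' s' h' pA' j0' e' v' a' ep ez es eh epA ej ee ev' ea
    rw [ep, ez, es, eh, epA, ej, ee, ev', ea] at hadef
    rw [ep, ez, es, eh, epA, ej, ee, ev'] at hj3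
    rw [pr_coe, pr_coe, pr_coe, pr_coe, pr_coe, pr_coe, pr_coe, ap_coe, eq_coe] at hadef
    rw [pr_coe, pr_coe, pr_coe, pr_coe, T4_coe] at hj3
    filter_upwards [hadef, hj3] with i h1 h2
    simp only [oGen, hol_mk, q1_pair, q2_pair] at h2
    obtain ⟨s0, h0, h3⟩ := h2
    have h4 : ∃ b, gE TA (pA' i) (s' i) (h' i) (q1 b) (q2 b) (e' i) (v' i) ∧
        j0' i ≤ (gN T (p' i) (z' i) (q1 b) (q2 b) (v' i)).card := ⟨Nat.pair s0 h0, by simpa using h3⟩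
    simp only [oGenS, q1_pair, q2_pair] at h1
    rw [dif_pos h4] at h1
    rw [h1]
    exact h4.choose_spec
  have hext : Ext A s h (ap q1 a) (ap q2 a) ∧ ap q2 a ≤ e := by
    obtain ⟨p', ep⟩ := rep p
    obtain ⟨z', ez⟩ := rep z
    obtain ⟨s', es⟩ := rep s
    obtain ⟨h', eh⟩ := rep h
    obtain ⟨pA', epA⟩ := rep pA
    obtain ⟨j0', ej⟩ := rep j0
    obtain ⟨e', ee⟩ := rep e
    obtain ⟨v', ev'⟩ := rep v
    obtain ⟨a', ea⟩ := rep a
    have h1 := hpt p' z' s' h' pA' j0' e' v' a' ep ez es eh epA ej ee ev' ea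
    have hle : ap q2 a ≤ e := by
      rw [ea, ee, ap_coe, le_coe]
      exact h1.mono fun i hi => hi.1.2.1
    refine ⟨⟨?_, ?_, ?_, ?_⟩, hle⟩
    · rw [ea, eh, ap_coe, le_coe]
      exact h1.mono fun i hi => hi.1.1
    · intro x hx
      obtain ⟨x, rfl⟩ := rep x
      rw [ea, ap_coe, mem_coe] at hx
      rw [ea, ap_coe, lt_coe]
      filter_upwards [h1, hx] with i h2 h3
      exact h2.1.2.2.1 _ h3
    · intro x hx
      obtain ⟨x, rfl⟩ := rep x
      rw [eh, lt_coe] at hx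
      rw [ea, es, ap_coe, mem_coe, mem_coe]
      constructor
      · intro h3
        filter_upwards [h1, hx, h3] with i h2 h4 h5
        exact (h2.1.2.2.2.1 _ h4).1 h5
      · intro h3
        filter_upwards [h1, hx, h3] with i h2 h4 h5
        exact (h2.1.2.2.2.1 _ h4).2 h5
    · intro x hx hx2
      have hxlt : x < ap q2 a := by
        obtain ⟨x, rfl⟩ := rep x
        rw [ea, ap_coe, mem_coe] at hx
        rw [ea, ap_coe, lt_coe]
        filter_upwards [h1, hx] with i h2 h3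
        exact h2.1.2.2.1 _ h3
      rw [hA1 x (Mb_le (hxlt.le.trans hle) (hM.sub he))]
      refine ⟨e, v, hM.sub he, hev, ?_⟩
      rw [epA, ee, ev']
      rw [ea, ap_coe] at hx
      rw [eh] at hx2
      clear hxlt
      obtain ⟨x, rfl⟩ := rep x
      rw [mem_coe] at hx
      rw [le_coe] at hx2
      rw [T4_coe]
      filter_upwards [h1, hx, hx2] with i h2 h3 h4
      exact h2.1.2.2.2.2 _ h3 h4
  refine ⟨hext.1, ?_⟩
  intro s2 hs2 h2 hh2 hext2 u' u'' hu' hu'' x hx hT4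
  -- a common bound for the witnesses
  obtain ⟨D2, _, e2, he2, v2, _, hev2, hDe2⟩ := hI.bd TA hTA hmA pA hpA h2 hh2
  have hwM : e + e2 + h2 ∈ M := hM.add (hM.add he he2) hh2
  obtain ⟨w, hwM, hew, he2w, hh2w⟩ : ∃ w ∈ M, e ≤ w ∧ e2 ≤ w ∧ h2 ≤ w := by
    refine ⟨_, hwM, ?_, ?_, ?_⟩
    · obtain ⟨e, rfl⟩ := rep e
      obtain ⟨e2, rfl⟩ := rep e2
      obtain ⟨h2, rfl⟩ := rep h2
      rw [add_coe, add_coe, le_coe]
      exact Eventually.of_forall fun i => by omega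
    · obtain ⟨e, rfl⟩ := rep e
      obtain ⟨e2, rfl⟩ := rep e2
      obtain ⟨h2, rfl⟩ := rep h2
      rw [add_coe, add_coe, le_coe]
      exact Eventually.of_forall fun i => by omega
    · obtain ⟨e, rfl⟩ := rep e
      obtain ⟨e2, rfl⟩ := rep e2
      obtain ⟨h2, rfl⟩ := rep h2
      rw [add_coe, add_coe, le_coe]
      exact Eventually.of_forall fun i => by omega
  obtain ⟨vw, hvw, hcw⟩ := hI.am w hwM
  have hv_eq : v = rsH vw e := cod_unique hev (cod_rs hcw hew)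
  have hu'_eq : u' = rsH vw (ap q2 a) := cod_unique hu' (cod_rs hcw (hext.2.trans hew))
  have hu''_eq : u'' = rsH vw h2 := cod_unique hu'' (cod_rs hcw hh2w)
  have hext3 := hext.1.trans hext2
  -- the count for the second condition
  obtain ⟨j2, hj2def⟩ : ∃ j, j = ap (oGenC T) (pr p (pr z (pr s2 (pr h2 vw)))) := ⟨_, rfl⟩
  have hwit : ∀ y, mem y s2 → h ≤ y → T4 TA pA y w vw := by
    intro y hy hy2
    have hy3 := hext3.bd y hy
    have hy4 := hext3.sub y hy hy2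
    rw [hA1 y (Mb_le hy3.le (hM.sub hh2))] at hy4
    exact T4_mono hmA hev2 hcw he2w ((hDe2 y).2 ((hDe2 y).1.2 ⟨hy3, hy4⟩))
  have hjD : mem j2 D := by
    rw [(hDe j2).1]
    constructor
    · rw [hj2def]
      clear hDe hA1 hP hs hh hp hz hpA hDe2 hwit hj2def hpt hE hadef hj3 hcw hu'_eq hu''_eq hT4 hu''
      clear hext hext2 hext3 hs2 hh2 hh2w hx hvw hv_eq hwM
      obtain ⟨p, rfl⟩ := rep p
      obtain ⟨z, rfl⟩ := rep z
      obtain ⟨s2, rfl⟩ := rep s2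
      obtain ⟨h2, rfl⟩ := rep h2
      obtain ⟨vw, rfl⟩ := rep vw
      rw [pr_coe, pr_coe, pr_coe, pr_coe, ap_coe, one_coe, add_coe, lt_coe]
      refine Eventually.of_forall fun i => ?_
      simp only [oGenC, q1_pair, q2_pair, gN]
      have := Finset.card_filter_le (Finset.range (z i))
        (fun x => Hol T (p i) x (h2 i + h2 i) (jc (h2 i) (rs (vw i) (h2 i)) (s2 i)))
      rw [Finset.card_range] at this
      omega
    · refine ⟨w, vw, hM.sub hwM, hcw, ?_⟩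
      obtain ⟨p', ep⟩ := rep p
      obtain ⟨z', ez⟩ := rep z
      obtain ⟨s', es⟩ := rep s
      obtain ⟨h', eh⟩ := rep h
      obtain ⟨pA', epA⟩ := rep pA
      obtain ⟨s2', es2⟩ := rep s2
      obtain ⟨h2', eh2⟩ := rep h2
      obtain ⟨w', ew⟩ := rep w
      obtain ⟨vw', evw⟩ := rep vw
      have c1 := hext3.le
      have c2 := hext3.bd
      have c3 := hext3.eq
      rw [es2, eh2] at c2
      rw [eh, eh2, le_coe] at c1
      rw [eh, es, es2] at c3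
      have c2' := bd_coe c2
      have c3' := eq_below_coe c3
      rw [es2, eh, epA, ew, evw] at hwit
      have c4 : ∀ᶠ i in U, ∀ y, y ∈ fs (s2' i) → h' i ≤ y → Hol TA (pA' i) y (w' i) (vw' i) := by
        apply ev_forall
        intro y
        apply ev_imp
        intro hy
        apply ev_imp
        intro hy2
        have := hwit (y : H) hy ((le_coe _ _).2 hy2)
        rw [T4_coe] at this
        exact this
      rw [eh2, ew, le_coe] at hh2w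
      rw [ep, ez, es2, eh2, evw, pr_coe, pr_coe, pr_coe, pr_coe, ap_coe] at hj2def
      rw [hj2def, ep, ez, es, eh, epA, ew, evw, pr_coe, pr_coe, pr_coe, pr_coe, T4_coe]
      filter_upwards [c1, c2', c3', c4, hh2w] with i d1 d2 d3 d4 d5
      simp only [oGen, hol_mk, q1_pair, q2_pair, oGenC]
      exact ⟨s2' i, h2' i, ⟨d1, d5, d2, d3, d4⟩, le_refl _⟩
  have hjle := hj2 j2 hjD
  obtain ⟨p', ep⟩ := rep p
  obtain ⟨z', ez⟩ := rep z
  obtain ⟨s', es⟩ := rep s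
  obtain ⟨h', eh⟩ := rep h
  obtain ⟨pA', epA⟩ := rep pA
  obtain ⟨j0', ej⟩ := rep j0
  obtain ⟨e', ee⟩ := rep e
  obtain ⟨v', ev'⟩ := rep v
  obtain ⟨a', ea⟩ := rep a
  obtain ⟨s2', es2⟩ := rep s2
  obtain ⟨h2', eh2⟩ := rep h2
  obtain ⟨vw', evw⟩ := rep vw
  obtain ⟨x', ex⟩ := rep x
  have h1 := hpt p' z' s' h' pA' j0' e' v' a' ep ez es eh epA ej ee ev' ea
  have c1 := hext2.le
  have c3 := hext2.eq
  rw [ea, eh2, ap_coe, le_coe] at c1
  rw [ea, es2, ap_coe, ap_coe] at c3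
  have c3' := eq_below_coe c3
  rw [ev', evw, ee, rsH, pr_coe, ap_coe, eq_coe] at hv_eq
  rw [hj2def, ej, ep, ez, es2, eh2, evw, pr_coe, pr_coe, pr_coe, pr_coe, ap_coe, le_coe] at hjle
  rw [hu'_eq, ea, ep, evw, ex, ap_coe, ap_coe, rsH, pr_coe, ap_coe, jcH, pr_coe, pr_coe, ap_coe,
    add_coe, T4_coe]
  rw [hu''_eq, ep, evw, ex, eh2, es2, rsH, pr_coe, ap_coe, jcH, pr_coe, pr_coe, ap_coe,
    add_coe, T4_coe] at hT4
  rw [ex, ez, lt_coe] at hx
  filter_upwards [h1, c1, c3', hv_eq, hjle, hT4, hx] with i d1 d2 d3 d4 d5 d6 d7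
  simp only [oGenC, q1_pair, q2_pair, oJc, oRs] at d4 d5 d6 ⊢
  have hsub : gN T (p' i) (z' i) (q1 (a' i)) (q2 (a' i)) (v' i) ⊆
      gN T (p' i) (z' i) (s2' i) (h2' i) (vw' i) := by
    intro y hy
    simp only [gN, Finset.mem_filter] at hy ⊢
    refine ⟨hy.1, ?_⟩
    refine hm _ _ (q2 (a' i) + q2 (a' i)) _ _ (by omega) ?_
    rw [jc_rs (a := rs (v' i) (q2 (a' i))) (b := q1 (a' i)) d2 ?_ d3]
    · exact hy.2
    · intro y hy
      rw [d4, rs_rs d1.1.2.1]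
      simp only [mem_rs]
      constructor
      · rintro ⟨h5, h6⟩
        exact ⟨h5, by omega⟩
      · rintro ⟨h5, h6⟩
        exact ⟨h5, hy⟩
  have heq := Finset.eq_of_subset_of_card_le hsub (d5.trans d1.2)
  have hmem : x' i ∈ gN T (p' i) (z' i) (s2' i) (h2' i) (vw' i) := by
    simp only [gN, Finset.mem_filter, Finset.mem_range]
    exact ⟨d7, d6⟩
  rw [← heq] at hmem
  simp only [gN, Finset.mem_filter, Finset.mem_range] at hmem
  rw [d4, rs_rs d1.1.2.1] at hmem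
  exact hmem.2

/-- `M`-unbounded sets. -/
def Unb (M : Set H) (A : H → Prop) : Prop := ∀ m ∈ M, ∃ x ∈ Mb, m ≤ x ∧ A x

lemma Unb.wit {M W : Set H} (hM : Good M) (hI : Ind M W) {A : H → Prop} (hA : IsSg M W A)
    (hu : Unb M A) {m : H} (hm : m ∈ M) : ∃ x ∈ M, m ≤ x ∧ A x := by
  obtain ⟨x, hx, h1⟩ := hu m hm
  have h2 : IsSg M W (fun x => ¬ x < m ∧ A x) :=
    IsSg.and hM (hI.Am hM) (IsD.lt hM (IsFn.id hM) (IsFn.const hm)).2 hA
  obtain ⟨y, hy, h3⟩ := h2.wit hM hI hx ⟨not_lt.2 h1.1, h1.2⟩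
  exact ⟨y, hy, not_lt.1 h3.1, h3.2⟩

/-- Insertion in coded sets. -/
lemma mem_oIns (x y s : H) : mem y (ap oIns (pr x s)) ↔ y = x ∨ mem y s := by
  obtain ⟨x, rfl⟩ := rep x
  obtain ⟨y, rfl⟩ := rep y
  obtain ⟨s, rfl⟩ := rep s
  rw [pr_coe, ap_coe, mem_coe, mem_coe, eq_coe, ← ev_or]
  simp [oIns]

lemma le_max_left_add (x y : H) : x ≤ x + y := by
  obtain ⟨x, rfl⟩ := rep x
  obtain ⟨y, rfl⟩ := rep y
  rw [add_coe, le_coe]
  exact Eventually.of_forall fun i => by omega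

lemma le_max_right_add (x y : H) : y ≤ x + y := by
  rw [add_comm]
  exact le_max_left_add y x

/-- Adding a new element of `A` beyond a given bound. -/
lemma gen_add {M W : Set H} (hM : Good M) (hI : Ind M W) {A : H → Prop} (hA : IsSg M W A)
    (hu : Unb M A) {s h : H} (hs : s ∈ M) (hh : h ∈ M) (hb : ∀ x, mem x s → x < h) {m : H}
    (hm : m ∈ M) :
    ∃ s' ∈ M, ∃ h' ∈ M, Ext A s h s' h' ∧ ∃ x, mem x s' ∧ m ≤ x := by
  obtain ⟨x, hx, hmx, hAx⟩ := hu.wit hM hI hA (hM.add hh hm)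
  have h1 : h ≤ x := (le_max_left_add h m).trans hmx
  have h2 : m ≤ x := (le_max_right_add h m).trans hmx
  refine ⟨ap oIns (pr x s), hM.ap FF.oIns (hM.pr hx hs), x + 1, hM.add hx hM.one, ?_,
    x, (mem_oIns _ _ _).2 (Or.inl rfl), h2⟩
  refine ⟨h1.trans (lt_add_one x).le, ?_, ?_, ?_⟩
  · intro y hy
    rw [mem_oIns] at hy
    rcases hy with rfl | hy
    · exact lt_add_one _
    · exact (hb y hy).trans (h1.trans_lt (lt_add_one x))
  · intro y hy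
    rw [mem_oIns]
    constructor
    · intro h3
      exact Or.inr h3
    · rintro (rfl | h3)
      · exact absurd hy (not_lt.2 h1)
      · exact h3
  · intro y hy hy2
    rw [mem_oIns] at hy
    rcases hy with rfl | hy
    · exact hAx
    · exact absurd (hb y hy) (not_lt.2 hy2)

lemma mem_oSetT (T : ℕ → ℕ) (x p z w s : H) :
    mem x (ap (oSetT T) (pr p (pr z (pr w s)))) ↔ x < z ∧ T4 T p x w s := by
  obtain ⟨x, rfl⟩ := rep x
  obtain ⟨p, rfl⟩ := rep p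
  obtain ⟨z, rfl⟩ := rep z
  obtain ⟨w, rfl⟩ := rep w
  obtain ⟨s, rfl⟩ := rep s
  rw [pr_coe, pr_coe, pr_coe, ap_coe, mem_coe, lt_coe, T4_coe, ← eventually_and]
  simp [oSetT]

/-- The generic construction. -/
theorem generic {M W : Set H} (hM : Good M) (hI : Ind M W) (A : ℕ → H → Prop)
    (hA : ∀ k, IsSg M W (A k)) (hu : ∀ k, Unb M (A k)) (hd : ∀ k x, A (k + 1) x → A k x) :
    ∃ X : Set H, (∀ x ∈ X, x ∈ Mb ∧ A 0 x) ∧ (∀ m ∈ M, ∃ x ∈ X, m ≤ x) ∧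
      (∀ k, ∃ h ∈ M, ∀ x ∈ X, h ≤ x → A k x) ∧ Am X ∧ Ind M (jn W X) := by
  -- the tasks
  let S : Set (H × H × H × {T : ℕ → ℕ // FF T}) :=
    {t | t.1 ∈ M ∧ t.2.1 ∈ M ∧ t.2.2.1 ∈ M ∧ Mono t.2.2.2.1}
  have hSc : S.Countable := by
    have : Countable {T : ℕ → ℕ // FF T} := FF.cnt.to_subtype
    have h1 : (M ×ˢ (M ×ˢ (M ×ˢ (Set.univ : Set {T : ℕ → ℕ // FF T})))).Countable :=
      hM.cnt.prod (hM.cnt.prod (hM.cnt.prod (Set.to_countable _)))
    refine h1.mono ?_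
    intro t ht
    exact ⟨ht.1, ht.2.1, ht.2.2.1, Set.mem_univ _⟩
  have hSn : S.Nonempty := ⟨(0, 0, 0, ⟨oPos, FF.oPos⟩), hM.zero, hM.zero, hM.zero, mono_oPos⟩
  obtain ⟨task, htask⟩ := hSc.exists_eq_range hSn
  have hin : ∀ k, task k ∈ S := fun k => by rw [htask]; exact ⟨k, rfl⟩
  -- the conditions
  let C : Type := {c : H × H // c.1 ∈ M ∧ c.2 ∈ M ∧ ∀ x, mem x c.1 → x < c.2}
  have step : ∀ (k : ℕ) (c : C), ∃ c' : C, Ext (A k) c.1.1 c.1.2 c'.1.1 c'.1.2 ∧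
      (∀ c'' : C, Ext (A k) c'.1.1 c'.1.2 c''.1.1 c''.1.2 →
        ∀ u' u'', cod W c'.1.2 u' → cod W c''.1.2 u'' → ∀ x, x < (task k).2.1 →
          T4 (task k).2.2.2.1 (task k).1 x (c''.1.2 + c''.1.2) (jcH c''.1.2 u'' c''.1.1) →
          T4 (task k).2.2.2.1 (task k).1 x (c'.1.2 + c'.1.2) (jcH c'.1.2 u' c'.1.1)) ∧
      ∃ x, mem x c'.1.1 ∧ (task k).2.2.1 ≤ x := by
    intro k c
    obtain ⟨⟨s, h⟩, hs, hh, hb⟩ := c
    obtain ⟨t1, t2, t3, t4⟩ := hin k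
    obtain ⟨s1, hs1, h1, hh1, he1, hdec⟩ := gen_step hM hI (hA k) hs hh hb (task k).2.2.2.2 t4 t1 t2
    obtain ⟨s2, hs2, h2, hh2, he2, hx2⟩ := gen_add hM hI (hA k) (hu k) hs1 hh1 he1.bd t3
    refine ⟨⟨(s2, h2), hs2, hh2, he2.bd⟩, he1.trans he2, ?_, hx2⟩
    rintro ⟨⟨s3, h3⟩, hs3, hh3, hb3⟩ he3 u' u'' hu' hu'' x hx hT
    dsimp only at he3 hu' hu'' hT hb3 ⊢
    obtain ⟨u1, _, hu1⟩ := hI.am h1 hh1
    have h5 := hdec s3 hs3 h3 hh3 (he2.trans he3) u1 u'' hu1 hu'' x hx hT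
    -- compare codes via a set with both initial segments
    have hc1 : cod {y | mem y s2} h1 s1 := by
      intro y
      constructor
      · intro hy
        have := he1.bd y hy
        exact ⟨this, (he2.eq y this).1 hy⟩
      · rintro ⟨h6, h7⟩
        exact (he2.eq y h6).2 h7
    have hc2 : cod {y | mem y s2} h2 s2 := by
      intro y
      constructor
      · intro hy
        exact ⟨he2.bd y hy, hy⟩
      · rintro ⟨_, h7⟩
        exact h7
    exact T4_mono t4 (cod_jn hu1 hc1) (cod_jn hu' hc2) (add_le_add he2.le he2.le) h5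
  choose f hf1 hf2 hf3 using step
  let c0 : C := ⟨(((fun _ => cd ∅ : ℕ → ℕ) : H), 0), by
    have h1 : ((fun _ => cd ∅ : ℕ → ℕ) : H) = rsH 0 0 := by
      rw [rsH, zero_coe, pr_coe, ap_coe, eq_coe]
      refine Eventually.of_forall fun i => ?_
      simp [oRs, rs]
    rw [h1]
    exact hM.ap FF.oRs (hM.pr hM.zero hM.zero), hM.zero, by
    intro x hx
    exfalso
    dsimp only at hx
    obtain ⟨x, rfl⟩ := rep x
    rw [mem_coe] at hx
    exact ev_false (hx.mono fun i hi => by simp at hi)⟩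
  let c : ℕ → C := fun n => Nat.rec c0 (fun k r => f k r) n
  have hc0 : c 0 = c0 := rfl
  have hcs : ∀ k, c (k + 1) = f k (c k) := fun k => rfl
  have hAm : ∀ k l, k ≤ l → ∀ x, A l x → A k x := by
    intro k l hkl
    induction hkl with
    | refl => exact fun x hx => hx
    | step _ ih => exact fun x hx => ih x (hd _ x hx)
  have hext : ∀ k l, k ≤ l → Ext (A k) (c k).1.1 (c k).1.2 (c l).1.1 (c l).1.2 := by
    intro k l hkl
    induction hkl with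
    | refl => exact Ext.refl (c k).2.2.2
    | @step l hkl ih =>
      refine ih.trans ?_
      rw [hcs l]
      exact (hf1 l (c l)).weaken (hAm k l hkl)
  let X : Set H := {x | ∃ k, mem x (c k).1.1}
  have hXdef : ∀ x, x ∈ X ↔ ∃ k, mem x (c k).1.1 := fun x => Iff.rfl
  have hXcod : ∀ k, cod X (c k).1.2 (c k).1.1 := by
    intro k x
    constructor
    · intro hx
      exact ⟨(c k).2.2.2 x hx, k, hx⟩
    · rintro ⟨hx, l, hl⟩
      rcases le_total k l with hkl | hkl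
      · exact ((hext k l hkl).eq x hx).2 hl
      · exact ((hext l k hkl).eq x ((c l).2.2.2 x hl)).1 hl
  have hcofc : ∀ m ∈ M, ∃ k, m ≤ (c k).1.2 ∧ ∃ x ∈ X, m ≤ x := by
    intro m hm
    have h1 : ((0 : H), (0 : H), m, (⟨oPos, FF.oPos⟩ : {T : ℕ → ℕ // FF T})) ∈ S :=
      ⟨hM.zero, hM.zero, hm, mono_oPos⟩
    rw [htask] at h1
    obtain ⟨k, hk⟩ := h1
    obtain ⟨x, hx, hx2⟩ := hf3 k (c k)
    rw [hk] at hx2
    dsimp only at hx2
    rw [← hcs k] at hx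
    exact ⟨k + 1, hx2.trans ((c (k + 1)).2.2.2 x hx).le, x, ⟨k + 1, hx⟩, hx2⟩
  have hcofMb : ∀ w ∈ Mb, ∃ k0, ∀ k, k0 ≤ k → w ≤ (c k).1.2 := by
    intro w hw
    obtain ⟨m, hm, hwm⟩ := hM.cof hw
    obtain ⟨k, hk, _⟩ := hcofc m hm
    exact ⟨k, fun l hl => hwm.trans (hk.trans (hext k l hl).le)⟩
  have hXAm : Am X := by
    intro w hw
    obtain ⟨k, hk⟩ := hcofMb w hw
    exact ⟨_, cod_rs (hXcod k) (hk k le_rfl)⟩
  refine ⟨X, ?_, ?_, ?_, hXAm, ?_, ?_⟩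
  · rintro x ⟨k, hk⟩
    refine ⟨Mb_le ((c k).2.2.2 x hk).le (hM.sub (c k).2.2.1), ?_⟩
    refine (hext 0 k (Nat.zero_le k)).sub x hk ?_
    rw [hc0]
    change (0 : H) ≤ x
    obtain ⟨x, rfl⟩ := rep x
    rw [zero_coe, le_coe]
    exact Eventually.of_forall fun i => Nat.zero_le _
  · intro m hm
    obtain ⟨k, _, h⟩ := hcofc m hm
    exact h
  · intro k
    refine ⟨(c k).1.2, (c k).2.2.1, ?_⟩
    rintro x ⟨l, hl⟩ hx
    rcases le_total k l with hkl | hkl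
    · exact (hext k l hkl).sub x hl hx
    · exact absurd (((c l).2.2.2 x hl).trans_le (hext l k hkl).le) (not_lt.2 hx)
  · -- amenability
    intro w hw
    obtain ⟨k, hk⟩ := hcofMb w (hM.sub hw)
    obtain ⟨u, huM, hu1⟩ := hI.am _ (c k).2.2.1
    refine ⟨rsH (jcH (c k).1.2 u (c k).1.1) w, ?_, ?_⟩
    · exact hM.ap FF.oRs (hM.pr (hM.ap FF.oJc (hM.pr (c k).2.2.1 (hM.pr huM (c k).2.1))) hw)
    · exact cod_rs (cod_jn hu1 (hXcod k)) ((hk k le_rfl).trans (le_max_left_add _ _))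
  · -- induction
    intro T hT hm p hp z hz
    have h1 : (p, z, (0 : H), (⟨T, hT⟩ : {T : ℕ → ℕ // FF T})) ∈ S := ⟨hp, hz, hM.zero, hm⟩
    rw [htask] at h1
    obtain ⟨k, hk⟩ := h1
    obtain ⟨u, huM, hu1⟩ := hI.am _ (c (k + 1)).2.2.1
    have hcode : cod (jn W X) ((c (k + 1)).1.2 + (c (k + 1)).1.2)
        (jcH (c (k + 1)).1.2 u (c (k + 1)).1.1) := cod_jn hu1 (hXcod (k + 1))
    have hcM : jcH (c (k + 1)).1.2 u (c (k + 1)).1.1 ∈ M :=
      hM.ap FF.oJc (hM.pr (c (k + 1)).2.2.1 (hM.pr huM (c (k + 1)).2.1))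
    have heM : (c (k + 1)).1.2 + (c (k + 1)).1.2 ∈ M :=
      hM.add (c (k + 1)).2.2.1 (c (k + 1)).2.2.1
    refine ⟨_, hM.ap (FF.oSetT hT) (hM.pr hp (hM.pr hz (hM.pr heM hcM))), _, heM, _, hcM,
      hcode, ?_⟩
    intro x
    rw [mem_oSetT]
    refine ⟨⟨?_, ?_⟩, fun h => h.2⟩
    · rintro ⟨h2, h3⟩
      exact ⟨h2, _, _, hM.sub heM, hcode, h3⟩
    · rintro ⟨h2, h3⟩
      refine ⟨h2, ?_⟩
      obtain ⟨w0, hw0, h4⟩ := Sg_lift hm h3
      obtain ⟨l0, hl0⟩ := hcofMb w0 hw0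
      obtain ⟨l, hl1, hl2⟩ : ∃ l, l0 ≤ l ∧ k + 1 ≤ l := ⟨max l0 (k + 1), le_max_left _ _,
        le_max_right _ _⟩
      obtain ⟨ul, _, hul⟩ := hI.am _ (c l).2.2.1
      have hcl : cod (jn W X) ((c l).1.2 + (c l).1.2) (jcH (c l).1.2 ul (c l).1.1) :=
        cod_jn hul (hXcod l)
      have h5 := h4 _ (hM.sub (hM.add (c l).2.2.1 (c l).2.2.1))
        ((hl0 l hl1).trans (le_max_left_add _ _)) _ hcl
      have h6 := hf2 k (c k) (c l)
      rw [← hcs k, hk] at h6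
      dsimp only at h6
      exact h6 ((hext (k + 1) l hl2).weaken (fun x hx => hd k x hx)) u ul hu1 hul x h2 h5

end

end Pool.Agent.Helper803.Cads
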