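import Pool.Agent.Helper803.Cads.Sg

/-!
`Σ₁` induction for the empty oracle, and its preservation when a bounded element is added to
the hull.
-/

namespace Pool.Agent.Helper803.Cads

open Filter
open scoped Classical

noncomputable section

lemma rsH_zero : rsH 0 0 = ((fun _ => cd ∅ : ℕ → ℕ) : H) := by
  rw [rsH, zero_coe, pr_coe, ap_coe, eq_coe]
  refine Eventually.of_forall fun i => ?_
  simp [oRs, rs]

lemma not_mem_empty (x : H) : ¬ mem x ((fun _ => cd ∅ : ℕ → ℕ) : H) := by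
  intro hx
  obtain ⟨x, rfl⟩ := rep x
  rw [mem_coe] at hx
  exact ev_false (hx.mono fun i hi => by simp at hi)

lemma cod_empty (w : H) : cod ∅ w ((fun _ => cd ∅ : ℕ → ℕ) : H) := by
  intro x
  constructor
  · intro h
    exact absurd h (not_mem_empty x)
  · rintro ⟨_, h⟩
    exact absurd h (Set.notMem_empty x)

/-- The empty oracle. -/
theorem ind_empty {M : Set H} (hM : Good M) : Ind M ∅ := by
  have hE : ((fun _ => cd ∅ : ℕ → ℕ) : H) ∈ M := by
    rw [← rsH_zero]
    exact hM.ap FF.oRs (hM.pr hM.zero hM.zero)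
  constructor
  · intro w _
    exact ⟨_, hE, cod_empty w⟩
  · intro T hT hm p hp z hz
    refine ⟨_, hM.ap (FF.oBD hT) (hM.pr hp hz), _, hM.ap (FF.oBE hT) (hM.pr hp hz), _, hE,
      cod_empty _, ?_⟩
    have hb : ap (oBE T) (pr p z) ∈ Mb := hM.sub (hM.ap (FF.oBE hT) (hM.pr hp hz))
    have key : ∀ x, mem x (ap (oBD T) (pr p z)) → x < z ∧
        T4 T p x (ap (oBE T) (pr p z)) ((fun _ => cd ∅ : ℕ → ℕ) : H) := by
      intro x hx
      clear hb hp hz
      obtain ⟨x, rfl⟩ := rep x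
      obtain ⟨p, rfl⟩ := rep p
      obtain ⟨z, rfl⟩ := rep z
      rw [pr_coe, ap_coe, mem_coe] at hx
      rw [pr_coe, ap_coe, T4_coe, lt_coe, ← eventually_and]
      filter_upwards [hx] with i hi
      simp only [oBD, q1_pair, q2_pair, mem_cf] at hi
      refine ⟨hi.1, ?_⟩
      have h1 : (if h : ∃ w, Hol T (p i) (x i) w (cd ∅) then h.choose else 0) ≤
          oBE T (Nat.pair (p i) (z i)) := by
        simp only [oBE, q1_pair, q2_pair]
        exact Finset.le_sup (f := fun x => if h : ∃ w, Hol T (p i) x w (cd ∅) then h.choose else 0)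
          (Finset.mem_range.2 hi.1)
      rw [dif_pos hi.2] at h1
      refine hm _ _ _ _ _ h1 ?_
      have h2 : rs (cd ∅) hi.2.choose = cd ∅ := by simp [rs]
      rw [h2]
      exact hi.2.choose_spec
    intro x
    refine ⟨⟨?_, ?_⟩, fun h => (key x h).2⟩
    · intro h
      exact ⟨(key x h).1, _, _, hb, cod_empty _, (key x h).2⟩
    · rintro ⟨h1, w, s, hw, hs, h4⟩
      have h5 := cod_unique hs (cod_empty w)
      rw [h5] at h4
      clear hb key hs hw h5 hp hz
      obtain ⟨x, rfl⟩ := rep x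
      obtain ⟨p, rfl⟩ := rep p
      obtain ⟨z, rfl⟩ := rep z
      obtain ⟨w, rfl⟩ := rep w
      rw [T4_coe] at h4
      rw [lt_coe] at h1
      rw [pr_coe, ap_coe, mem_coe]
      filter_upwards [h1, h4] with i h6 h7
      simp only [oBD, q1_pair, q2_pair, mem_cf]
      exact ⟨h6, _, h7⟩

lemma mono_oXT {T F : ℕ → ℕ} (h : Mono T) : Mono (oXT T F) := by
  intro p x w w' s hw h1
  simp only [oXT, hol_mk] at h1 ⊢
  exact h _ _ _ _ _ hw h1

lemma T4_oXT (T F : ℕ → ℕ) (b α a x w s : H) :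
    T4 (oXT T F) (pr b α) (pr a x) w s ↔ T4 T (ap F (pr b (pr α a))) x w s := by
  obtain ⟨b, rfl⟩ := rep b
  obtain ⟨α, rfl⟩ := rep α
  obtain ⟨a, rfl⟩ := rep a
  obtain ⟨x, rfl⟩ := rep x
  obtain ⟨w, rfl⟩ := rep w
  obtain ⟨s, rfl⟩ := rep s
  rw [pr_coe, pr_coe, pr_coe, pr_coe, ap_coe, T4_coe, T4_coe]
  simp [oXT]

/-- Adding a bounded element to the hull preserves induction. -/
theorem ind_ext {α a : H} (hα : α ∈ Mb) (ha : a ∈ Mb) {W : Set H} (hI : Ind (hull α) W) :
    Ind (hull (pr α a)) W := by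
  have hM := good_hull hα
  have hM' := good_hull (Mb_pr hα ha)
  have haM : a ∈ hull (pr α a) := by
    have := hM'.ap FF.q2 (self_mem_hull (pr α a))
    rwa [ap_q2] at this
  have hαM : α ∈ hull (pr α a) := by
    have := hM'.ap FF.q1 (self_mem_hull (pr α a))
    rwa [ap_q1] at this
  have hsub : hull α ⊆ hull (pr α a) := hull_mono hαM (Mb_pr hα ha)
  obtain ⟨c, hc, hac⟩ := hM.cof_lt ha
  constructor
  · intro w hw
    obtain ⟨w', hw', h1⟩ := hM.cof (hM'.sub hw)
    obtain ⟨s, hs, h2⟩ := hI.am w' hw'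
    exact ⟨_, hM'.ap FF.oRs (hM'.pr (hsub hs) hw), cod_rs h2 h1⟩
  · rintro T hT hm p ⟨F, hF, rfl⟩ z hz
    have hzG := hz
    obtain ⟨G, hG, hzG⟩ := hzG
    have hP : pr bb α ∈ hull α := hM.pr hM.bb (self_mem_hull α)
    obtain ⟨D, hD, e, he, s, hs, hes, h1⟩ := hI.bd _ (FF.oXT hT hF) (mono_oXT hm) _ hP
      _ (hM.ap (FF.oXZ hG) (hM.pr hP hc))
    refine ⟨_, hM'.ap FF.oXD (hM'.pr (hsub hD) (hM'.pr haM hz)), e, hsub he, s, hsub hs, hes, ?_⟩
    have hmem : ∀ x, mem x (ap oXD (pr D (pr a z))) ↔ x < z ∧ mem (pr a x) D := by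
      intro x
      clear h1 hD hac haM
      obtain ⟨x, rfl⟩ := rep x
      obtain ⟨D, rfl⟩ := rep D
      obtain ⟨a, rfl⟩ := rep a
      obtain ⟨z, rfl⟩ := rep z
      rw [pr_coe, pr_coe, pr_coe, ap_coe, mem_coe, mem_coe, lt_coe, ← eventually_and]
      simp [oXD]
    have hlt : ∀ x, x < z → pr a x < ap (oXZ G) (pr (pr bb α) c) := by
      intro x hx
      rw [hzG] at hx
      clear hzG hmem h1 hα ha hI hM hM' haM hαM hsub hc hz hP
      unfold bb at hx ⊢
      obtain ⟨x, rfl⟩ := rep x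
      obtain ⟨α, rfl⟩ := rep α
      obtain ⟨a, rfl⟩ := rep a
      obtain ⟨c, rfl⟩ := rep c
      rw [pr_coe, pr_coe, ap_coe, lt_coe] at hx
      rw [lt_coe] at hac
      rw [pr_coe, pr_coe, pr_coe, ap_coe, lt_coe]
      filter_upwards [hx, hac] with i h2 h3
      simp only [oXZ, q1_pair, q2_pair, oSq]
      have h4 := Nat.pair_lt_max_add_one_sq (a i) (x i)
      have h5 : G (Nat.pair i (Nat.pair (α i) (a i))) ≤ (Finset.range (c i)).sup
          (fun u => G (Nat.pair i (Nat.pair (α i) u))) :=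
        Finset.le_sup (f := fun u => G (Nat.pair i (Nat.pair (α i) u))) (Finset.mem_range.2 h3)
      have h6 : max (a i) (x i) + 1 ≤ c i + (Finset.range (c i)).sup
          (fun u => G (Nat.pair i (Nat.pair (α i) u))) + 1 := by omega
      exact lt_of_lt_of_le h4 (Nat.pow_le_pow_left h6 2)
    intro x
    rw [hmem]
    constructor
    · constructor
      · rintro ⟨h2, h3⟩
        rw [(h1 _).1] at h3
        obtain ⟨_, w, s, hw, hs, h4⟩ := h3
        rw [T4_oXT] at h4
        exact ⟨h2, w, s, hw, hs, h4⟩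
      · rintro ⟨h2, w, s, hw, hs, h4⟩
        refine ⟨h2, ?_⟩
        rw [(h1 _).1]
        refine ⟨hlt x h2, w, s, hw, hs, ?_⟩
        rw [T4_oXT]
        exact h4
    · rintro ⟨_, h3⟩
      have h4 := (h1 _).2 h3
      rw [T4_oXT] at h4
      exact h4

end

end Pool.Agent.Helper803.Cads
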