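import Mathlib

/-!
Models of the system `RCA₀` of second-order arithmetic (Henkin semantics), following
Simpson, Subsystems of second order arithmetic, Definitions I.2.1, I.2.2 and I.7.4, and the
principles `CADS` and `COH`.
-/

namespace Pool.Agent.Helper803.Cads.RM

universe u

/-- A structure for the language of second-order arithmetic: a set `M` of numbers with
`0`, `1`, `+`, `·`, `<`, and a collection `Sets` of subsets of `M` over which the set
variables range. -/
structure L2Structure where
  M : Type u
  zero : M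
  one : M
  add : M → M → M
  mul : M → M → M
  lt : M → M → Prop
  Sets : Set (Set M)

/-- Number terms, with number parameters from the structure. `var i` is the `i`-th free
number variable. -/
inductive Term (N : L2Structure.{u}) : Type u
  | var (i : ℕ) : Term N
  | const (a : N.M) : Term N
  | zero : Term N
  | one : Term N
  | add (s t : Term N) : Term N
  | mul (s t : Term N) : Term N

/-- `cons a v` is the sequence `a, v 0, v 1, …`. -/
def cons {α : Type u} (a : α) (v : ℕ → α) : ℕ → α
  | 0 => a
  | n + 1 => v n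

/-- The value of a term under an assignment `v` of the number variables. -/
def Term.val {N : L2Structure.{u}} : Term N → (ℕ → N.M) → N.M
  | .var i, v => v i
  | .const a, _ => a
  | .zero, _ => N.zero
  | .one, _ => N.one
  | .add s t, v => N.add (s.val v) (t.val v)
  | .mul s t, v => N.mul (s.val v) (t.val v)

/-- `Δ⁰₀` formulas (all quantifiers are bounded number quantifiers) with number and set
parameters from the structure, in de Bruijn form: `ball t φ` is `∀ x < t, φ`, where `x` is the
variable `0` of `φ` and the variable `i` of `ball t φ` is the variable `i + 1` of `φ`. -/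
inductive Delta0 (N : L2Structure.{u}) : Type u
  | eq (s t : Term N) : Delta0 N
  | lt (s t : Term N) : Delta0 N
  | mem (t : Term N) (X : N.Sets) : Delta0 N
  | neg (φ : Delta0 N) : Delta0 N
  | and (φ ψ : Delta0 N) : Delta0 N
  | ball (t : Term N) (φ : Delta0 N) : Delta0 N

/-- Truth of a `Δ⁰₀` formula in the structure under an assignment. -/
def Delta0.Holds {N : L2Structure.{u}} : Delta0 N → (ℕ → N.M) → Prop
  | .eq s t, v => s.val v = t.val v
  | .lt s t, v => N.lt (s.val v) (t.val v)
  | .mem t X, v => t.val v ∈ (X : Set N.M)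
  | .neg φ, v => ¬ φ.Holds v
  | .and φ ψ, v => φ.Holds v ∧ ψ.Holds v
  | .ball t φ, v => ∀ a, N.lt a (t.val v) → φ.Holds (cons a v)

/-- `N` is a model of `RCA₀`: the basic axioms, induction for all `Σ⁰₁` formulas
`∃ k, θ(k, n)` with parameters, and comprehension for all `Δ⁰₁` formulas with parameters. -/
structure IsModelRCA0 (N : L2Structure.{u}) : Prop where
  ax_succ_ne_zero : ∀ n, N.add n N.one ≠ N.zero
  ax_succ_inj : ∀ m n, N.add m N.one = N.add n N.one → m = n
  ax_add_zero : ∀ m, N.add m N.zero = m
  ax_add_succ : ∀ m n, N.add m (N.add n N.one) = N.add (N.add m n) N.one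
  ax_mul_zero : ∀ m, N.mul m N.zero = N.zero
  ax_mul_succ : ∀ m n, N.mul m (N.add n N.one) = N.add (N.mul m n) m
  ax_not_lt_zero : ∀ m, ¬ N.lt m N.zero
  ax_lt_succ : ∀ m n, N.lt m (N.add n N.one) ↔ (N.lt m n ∨ m = n)
  sigma1_induction : ∀ (θ : Delta0 N) (v : ℕ → N.M),
    (∃ k, θ.Holds (cons k (cons N.zero v))) →
    (∀ n, (∃ k, θ.Holds (cons k (cons n v))) →
      ∃ k, θ.Holds (cons k (cons (N.add n N.one) v))) →
    ∀ n, ∃ k, θ.Holds (cons k (cons n v))
  delta1_comprehension : ∀ (θ ψ : Delta0 N) (v : ℕ → N.M),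
    (∀ n, (∃ k, θ.Holds (cons k (cons n v))) ↔ ∀ k, ψ.Holds (cons k (cons n v))) →
    {n | ∃ k, θ.Holds (cons k (cons n v))} ∈ N.Sets

variable (N : L2Structure.{u})

/-- The pairing function `(x + y)² + x`. -/
def L2Structure.pair (x y : N.M) : N.M := N.add (N.mul (N.add x y) (N.add x y)) x

/-- The binary relation `R` exists in the structure: the set of pairs coding it is one of the
sets of the structure. -/
def RelIn (R : N.M → N.M → Prop) : Prop := {p | ∃ x y, R x y ∧ p = N.pair x y} ∈ N.Sets

/-- `X` is finite in the sense of second-order arithmetic, that is, bounded. -/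
def IsFin (X : Set N.M) : Prop := ∃ b, ∀ y ∈ X, N.lt y b

/-- `R` is a (non-strict) linear order on `D`. -/
structure IsLinearOrd (D : Set N.M) (R : N.M → N.M → Prop) : Prop where
  dom : ∀ x y, R x y → x ∈ D ∧ y ∈ D
  refl : ∀ x ∈ D, R x x
  antisymm : ∀ x y, R x y → R y x → x = y
  trans : ∀ x y z, R x y → R y z → R x z
  total : ∀ x ∈ D, ∀ y ∈ D, R x y ∨ R y x

/-- `x` is the first element of the suborder `Y`. -/
def IsFirst (Y : Set N.M) (R : N.M → N.M → Prop) (x : N.M) : Prop := x ∈ Y ∧ ∀ y ∈ Y, R x y

/-- `x` is the last element of the suborder `Y`. -/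
def IsLast (Y : Set N.M) (R : N.M → N.M → Prop) (x : N.M) : Prop := x ∈ Y ∧ ∀ y ∈ Y, R y x

/-- `x < y` in the suborder `Y`, and no element of `Y` lies strictly between `x` and `y`: so
`x` is the immediate predecessor of `y` and `y` is the immediate successor of `x`. -/
def Covers (Y : Set N.M) (R : N.M → N.M → Prop) (x y : N.M) : Prop :=
  x ∈ Y ∧ y ∈ Y ∧ R x y ∧ x ≠ y ∧ ∀ z ∈ Y, R x z → R z y → z = x ∨ z = y

/-- The suborder `Y` is discrete: each element other than a first element has an immediate
predecessor, and each element other than a last element has an immediate successor. -/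
def IsDiscrete (Y : Set N.M) (R : N.M → N.M → Prop) : Prop :=
  (∀ x ∈ Y, ¬ IsFirst N Y R x → ∃ p, Covers N Y R p x) ∧
    ∀ x ∈ Y, ¬ IsLast N Y R x → ∃ s, Covers N Y R x s

/-- The suborder `Y` is stable: it is discrete, has at least two elements, is infinite, and each
element has only finitely many predecessors or only finitely many successors in it (not both,
as `Y` is infinite). -/
def IsStableOrd (Y : Set N.M) (R : N.M → N.M → Prop) : Prop :=
  IsDiscrete N Y R ∧ (∃ x ∈ Y, ∃ y ∈ Y, x ≠ y) ∧ ¬ IsFin N Y ∧
    ∀ x ∈ Y, IsFin N {y | y ∈ Y ∧ R y x ∧ y ≠ x} ∨ IsFin N {y | y ∈ Y ∧ R x y ∧ y ≠ x}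

/-- The principle `CADS`: every infinite linear order has a stable suborder. -/
def CADS : Prop :=
  ∀ D ∈ N.Sets, ∀ R : N.M → N.M → Prop, RelIn N R → IsLinearOrd N D R → ¬ IsFin N D →
    ∃ Y ∈ N.Sets, Y ⊆ D ∧ IsStableOrd N Y R

/-- The `i`-th set of the sequence of sets coded by `Z`. -/
def Sec (Z : Set N.M) (i : N.M) : Set N.M := {x | N.pair i x ∈ Z}

/-- The principle `COH`: for every sequence of sets there is an infinite cohesive set. -/
def COH : Prop :=
  ∀ Z ∈ N.Sets, ∃ C ∈ N.Sets, ¬ IsFin N C ∧
    ∀ i, IsFin N (C \ Sec N Z i) ∨ IsFin N (C ∩ Sec N Z i)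

end Pool.Agent.Helper803.Cads.RM
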