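import Pool.Agent.Helper803.Cads.Chain
import Pool.Agent.Helper803.Cads.RM

/-!
The limit of the chain is a model of `RCA₀`.
-/

namespace Pool.Agent.Helper803.Cads

open Filter RM
open scoped Classical

noncomputable section

lemma IsFn.mono {M M' : Set H} (h : M ⊆ M') {f : H → H} (hf : IsFn M f) : IsFn M' f := by
  obtain ⟨F, hF, c, hc, h1⟩ := hf
  exact ⟨F, hF, c, h hc, h1⟩

namespace Chain

variable (C : Chain)

lemma MM_zero : (0 : H) ∈ C.MM := ⟨0, (C.good 0).zero⟩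
lemma MM_one : (1 : H) ∈ C.MM := ⟨0, (C.good 0).one⟩

lemma MM_add {x y : H} (hx : x ∈ C.MM) (hy : y ∈ C.MM) : x + y ∈ C.MM := by
  obtain ⟨n, hn⟩ := hx
  obtain ⟨m, hm⟩ := hy
  exact ⟨max n m, (C.good _).add (C.M_mono (le_max_left n m) hn) (C.M_mono (le_max_right n m) hm)⟩

lemma MM_mul {x y : H} (hx : x ∈ C.MM) (hy : y ∈ C.MM) : x * y ∈ C.MM := by
  obtain ⟨n, hn⟩ := hx
  obtain ⟨m, hm⟩ := hy
  exact ⟨max n m, (C.good _).mul (C.M_mono (le_max_left n m) hn) (C.M_mono (le_max_right n m) hm)⟩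

lemma MM_pr {x y : H} (hx : x ∈ C.MM) (hy : y ∈ C.MM) : pr x y ∈ C.MM := by
  obtain ⟨n, hn⟩ := hx
  obtain ⟨m, hm⟩ := hy
  exact ⟨max n m, (C.good _).pr (C.M_mono (le_max_left n m) hn) (C.M_mono (le_max_right n m) hm)⟩

/-- The limit structure. -/
def NN : L2Structure.{0} where
  M := {x : H // x ∈ C.MM}
  zero := ⟨0, C.MM_zero⟩
  one := ⟨1, C.MM_one⟩
  add x y := ⟨x.1 + y.1, C.MM_add x.2 y.2⟩
  mul x y := ⟨x.1 * y.1, C.MM_mul x.2 y.2⟩
  lt x y := x.1 < y.1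
  Sets := {A | ∃ n, ∃ ρ : H → Prop, IsD (C.M n) (C.S n).W ρ ∧ ∀ x : {x : H // x ∈ C.MM},
    x ∈ A ↔ ρ x.1}

/-- Coding the first `K` values of an assignment. -/
def enc : ℕ → (ℕ → C.NN.M) → H
  | 0, _ => 0
  | K + 1, v => pr (v 0).1 (enc K (fun i => v (i + 1)))

lemma enc_mem (K : ℕ) (v : ℕ → C.NN.M) : C.enc K v ∈ C.MM := by
  induction K generalizing v with
  | zero => exact C.MM_zero
  | succ K ih => exact C.MM_pr (v 0).2 (ih _)

lemma enc_cons (K : ℕ) (a : C.NN.M) (v : ℕ → C.NN.M) :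
    C.enc (K + 1) (cons a v) = pr a.1 (C.enc K v) := rfl

lemma var_fn (i : ℕ) : ∀ K, i < K → ∃ f, IsFn (C.M 0) f ∧ ∀ v : ℕ → C.NN.M,
    (v i).1 = f (C.enc K v) := by
  induction i with
  | zero =>
    intro K hK
    obtain ⟨K, rfl⟩ : ∃ k, K = k + 1 := ⟨K - 1, by omega⟩
    exact ⟨_, IsFn.q1 (C.good 0), fun v => (ap_q1 _ _).symm⟩
  | succ i ih =>
    intro K hK
    obtain ⟨K, rfl⟩ : ∃ k, K = k + 1 := ⟨K - 1, by omega⟩
    obtain ⟨f, hf, h1⟩ := ih K (by omega)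
    refine ⟨_, hf.comp (C.good 0) (IsFn.q2 (C.good 0)), fun v => ?_⟩
    have h2 := h1 (fun j => v (j + 1))
    beta_reduce at h2 ⊢
    rw [h2]
    congr 1
    exact (ap_q2 _ _).symm

lemma term_fn (t : Term C.NN) : ∃ K0, ∀ K, K0 ≤ K → ∃ n f, IsFn (C.M n) f ∧
    ∀ v : ℕ → C.NN.M, (t.val v).1 = f (C.enc K v) := by
  induction t with
  | var i =>
    refine ⟨i + 1, fun K hK => ?_⟩
    obtain ⟨f, hf, h1⟩ := C.var_fn i K (by omega)
    exact ⟨0, f, hf, h1⟩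
  | const a =>
    obtain ⟨n, hn⟩ := a.2
    exact ⟨0, fun K _ => ⟨n, _, IsFn.const hn, fun v => rfl⟩⟩
  | zero => exact ⟨0, fun K _ => ⟨0, _, IsFn.const (C.good 0).zero, fun v => rfl⟩⟩
  | one => exact ⟨0, fun K _ => ⟨0, _, IsFn.const (C.good 0).one, fun v => rfl⟩⟩
  | add s t hs ht =>
    obtain ⟨K1, h1⟩ := hs
    obtain ⟨K2, h2⟩ := ht
    refine ⟨max K1 K2, fun K hK => ?_⟩
    obtain ⟨n, f, hf, h3⟩ := h1 K (by omega)
    obtain ⟨m, g, hg, h4⟩ := h2 K (by omega)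
    refine ⟨max n m, _, (hf.mono (C.M_mono (le_max_left n m))).add (C.good _)
      (hg.mono (C.M_mono (le_max_right n m))), fun v => ?_⟩
    rw [← h3, ← h4]
    rfl
  | mul s t hs ht =>
    obtain ⟨K1, h1⟩ := hs
    obtain ⟨K2, h2⟩ := ht
    refine ⟨max K1 K2, fun K hK => ?_⟩
    obtain ⟨n, f, hf, h3⟩ := h1 K (by omega)
    obtain ⟨m, g, hg, h4⟩ := h2 K (by omega)
    refine ⟨max n m, _, (hf.mono (C.M_mono (le_max_left n m))).mul (C.good _)
      (hg.mono (C.M_mono (le_max_right n m))), fun v => ?_⟩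
    rw [← h3, ← h4]
    rfl

/-- A witness in the limit model. -/
lemma wit_MM {n : ℕ} {ρ : H → Prop} (h : IsSg (C.M n) (C.S n).W ρ) {x : H} (hx : x ∈ Mb)
    (h' : ρ x) : ∃ y ∈ C.MM, ρ y := by
  obtain ⟨y, hy, h1⟩ := h.wit (C.good n) (C.ind n) hx h'
  exact ⟨y, ⟨n, hy⟩, h1⟩

lemma delta0_D (φ : Delta0 C.NN) : ∃ K0, ∀ K, K0 ≤ K → ∃ n ρ, IsD (C.M n) (C.S n).W ρ ∧
    ∀ v : ℕ → C.NN.M, φ.Holds v ↔ ρ (C.enc K v) := by
  induction φ with
  | eq s t =>
    obtain ⟨K1, h1⟩ := C.term_fn s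
    obtain ⟨K2, h2⟩ := C.term_fn t
    refine ⟨max K1 K2, fun K hK => ?_⟩
    obtain ⟨n, f, hf, h3⟩ := h1 K (by omega)
    obtain ⟨m, g, hg, h4⟩ := h2 K (by omega)
    refine ⟨max n m, _, IsD.eq (C.good _) (hf.mono (C.M_mono (le_max_left n m)))
      (hg.mono (C.M_mono (le_max_right n m))), fun v => ?_⟩
    rw [← h3, ← h4]
    exact Subtype.ext_iff
  | lt s t =>
    obtain ⟨K1, h1⟩ := C.term_fn s
    obtain ⟨K2, h2⟩ := C.term_fn t
    refine ⟨max K1 K2, fun K hK => ?_⟩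
    obtain ⟨n, f, hf, h3⟩ := h1 K (by omega)
    obtain ⟨m, g, hg, h4⟩ := h2 K (by omega)
    refine ⟨max n m, _, IsD.lt (C.good _) (hf.mono (C.M_mono (le_max_left n m)))
      (hg.mono (C.M_mono (le_max_right n m))), fun v => ?_⟩
    rw [← h3, ← h4]
    rfl
  | mem t X =>
    obtain ⟨K1, h1⟩ := C.term_fn t
    obtain ⟨X, m, ρ, hρ, h2⟩ := X
    refine ⟨K1, fun K hK => ?_⟩
    obtain ⟨n, f, hf, h3⟩ := h1 K hK
    refine ⟨max n m, _, (C.isD_mono (le_max_right n m) hρ).comp (C.good _)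
      (hf.mono (C.M_mono (le_max_left n m))), fun v => ?_⟩
    rw [← h3]
    exact h2 _
  | neg φ ih =>
    obtain ⟨K1, h1⟩ := ih
    refine ⟨K1, fun K hK => ?_⟩
    obtain ⟨n, ρ, hρ, h3⟩ := h1 K hK
    refine ⟨n, _, hρ.not, fun v => ?_⟩
    rw [← h3]
    rfl
  | and φ ψ ih1 ih2 =>
    obtain ⟨K1, h1⟩ := ih1
    obtain ⟨K2, h2⟩ := ih2
    refine ⟨max K1 K2, fun K hK => ?_⟩
    obtain ⟨n, ρ, hρ, h3⟩ := h1 K (by omega)
    obtain ⟨m, σ, hσ, h4⟩ := h2 K (by omega)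
    refine ⟨max n m, _, (C.isD_mono (le_max_left n m) hρ).and (C.good _) (C.am _)
      (C.isD_mono (le_max_right n m) hσ), fun v => ?_⟩
    rw [← h3, ← h4]
    rfl
  | ball t φ ih =>
    obtain ⟨K1, h1⟩ := C.term_fn t
    obtain ⟨K2, h2⟩ := ih
    refine ⟨max K1 K2, fun K hK => ?_⟩
    obtain ⟨n, f, hf, h3⟩ := h1 K (by omega)
    obtain ⟨m, ρ, hρ, h4⟩ := h2 (K + 1) (by omega)
    obtain ⟨k, hk⟩ : ∃ k, k = max n m := ⟨_, rfl⟩
    have hf' := hf.mono (C.M_mono (show n ≤ k by omega))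
    have hρ' := C.isD_mono (show m ≤ k by omega) hρ
    have hρ2 : IsD (C.M k) (C.S k).W (fun t => ρ (pr (ap q2 t) (ap q1 t))) :=
      hρ'.comp (C.good k) ((IsFn.q2 (C.good k)).pr (C.good k) (IsFn.q1 (C.good k)))
    refine ⟨k, _, IsD.ball (ρ := fun x y => ρ (pr y x)) (C.good k) (C.ind k) hρ2 hf',
      fun v => ?_⟩
    constructor
    · intro h5 y hy
      by_contra hc
      obtain ⟨m', hm'⟩ := C.enc_mem K v
      obtain ⟨j, hj⟩ : ∃ j, j = max k m' := ⟨_, rfl⟩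
      have he := C.M_mono (show m' ≤ j by omega) hm'
      have hf'' := hf'.mono (C.M_mono (show k ≤ j by omega))
      have hρ'' := C.isD_mono (show k ≤ j by omega) hρ'
      have hfe : f (C.enc K v) ∈ C.M j := hf''.mem (C.good j) he
      have h6 : IsSg (C.M j) (C.S j).W (fun y => y < f (C.enc K v) ∧ ¬ ρ (pr y (C.enc K v))) :=
        (IsD.lt (C.good j) (IsFn.id (C.good j)) (IsFn.const hfe)).1.and (C.good j) (C.am j)
          (hρ''.comp (C.good j) ((IsFn.id (C.good j)).pr (C.good j) (IsFn.const he))).2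
      obtain ⟨z, hz, h7, h8⟩ := C.wit_MM h6 (Mb_le hy.le ((C.good j).sub hfe)) ⟨hy, hc⟩
      have h9 := h5 ⟨z, hz⟩ (by
        change z < (t.val v).1
        rw [h3]
        exact h7)
      rw [h4] at h9
      exact h8 h9
    · intro h5 a ha
      rw [h4, enc_cons]
      apply h5
      rw [← h3]
      exact ha

/-- `Σ₁` formulas define `Σ₁` sets of the chain. -/
lemma sigma1_Sg (θ : Delta0 C.NN) (v : ℕ → C.NN.M) : ∃ m, ∃ Q : H → Prop,
    IsSg (C.M m) (C.S m).W Q ∧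
      ∀ n : C.NN.M, (∃ k, θ.Holds (cons k (cons n v))) ↔ Q n.1 := by
  obtain ⟨K0, h1⟩ := C.delta0_D θ
  obtain ⟨n, ρ, hρ, h2⟩ := h1 (K0 + 1 + 1) (by omega)
  obtain ⟨m', hm'⟩ := C.enc_mem K0 v
  obtain ⟨j, hj⟩ : ∃ j, j = max n m' := ⟨_, rfl⟩
  have he := C.M_mono (show m' ≤ j by omega) hm'
  have hρ' := C.isD_mono (show n ≤ j by omega) hρ
  have hQ : IsSg (C.M j) (C.S j).W (fun x => ∃ k ∈ Mb, ρ (pr k (pr x (C.enc K0 v)))) :=
    IsSg.ex (ρ := fun x k => ρ (pr k (pr x (C.enc K0 v)))) (C.am j)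
      (hρ'.1.comp (C.good j) ((IsFn.q2 (C.good j)).pr (C.good j)
        ((IsFn.q1 (C.good j)).pr (C.good j) (IsFn.const he))))
  refine ⟨j, _, hQ, fun x => ?_⟩
  constructor
  · rintro ⟨k, hk⟩
    rw [h2, enc_cons, enc_cons] at hk
    exact ⟨k.1, C.MM_Mb k.2, hk⟩
  · rintro ⟨k, hk, h3⟩
    obtain ⟨i, hi⟩ := x.2
    obtain ⟨l, hl⟩ : ∃ l, l = max i j := ⟨_, rfl⟩
    have hx := C.M_mono (show i ≤ l by omega) hi
    have he' := C.M_mono (show j ≤ l by omega) he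
    have hρ'' := C.isD_mono (show j ≤ l by omega) hρ'
    have h4 : IsSg (C.M l) (C.S l).W (fun k => ρ (pr k (pr x.1 (C.enc K0 v)))) :=
      hρ''.1.comp (C.good l) ((IsFn.id (C.good l)).pr (C.good l)
        (IsFn.const ((C.good l).pr hx he')))
    obtain ⟨z, hz, h5⟩ := C.wit_MM h4 hk h3
    refine ⟨⟨z, hz⟩, ?_⟩
    rw [h2]
    exact h5

lemma pred_H {y : H} (hy : y ≠ 0) : ∃ z, z + 1 = y := by
  obtain ⟨y, rfl⟩ := rep y
  have h : ∀ᶠ i in U, y i ≠ 0 := by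
    rw [zero_coe, Ne, eq_coe, ev_not] at hy
    exact hy
  refine ⟨((fun i => y i - 1 : ℕ → ℕ) : H), ?_⟩
  rw [one_coe, add_coe, eq_coe]
  filter_upwards [h] with i hi
  omega

lemma lt_succ_H (m n : H) : m < n + 1 ↔ m < n ∨ m = n := by
  obtain ⟨m, rfl⟩ := rep m
  obtain ⟨n, rfl⟩ := rep n
  rw [one_coe, add_coe, lt_coe, lt_coe, eq_coe, ← ev_or]
  constructor
  · intro h
    filter_upwards [h] with i hi
    omega
  · intro h
    filter_upwards [h] with i hi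
    omega

/-- The limit is a model of `RCA₀`. -/
theorem isModel : IsModelRCA0 C.NN where
  ax_succ_ne_zero := by
    intro n h
    have h1 : n.1 + 1 = 0 := congrArg Subtype.val h
    obtain ⟨x, hx⟩ := rep n.1
    rw [hx, one_coe, add_coe, zero_coe, eq_coe] at h1
    exact ev_false (h1.mono fun i hi => by omega)
  ax_succ_inj := by
    intro m n h
    have h1 : m.1 + 1 = n.1 + 1 := congrArg Subtype.val h
    exact Subtype.ext (add_right_cancel h1)
  ax_add_zero := fun m => Subtype.ext (add_zero m.1)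
  ax_add_succ := fun m n => Subtype.ext (add_assoc m.1 n.1 1).symm
  ax_mul_zero := fun m => Subtype.ext (mul_zero m.1)
  ax_mul_succ := fun m n => Subtype.ext (by
    change m.1 * (n.1 + 1) = m.1 * n.1 + m.1
    rw [mul_add, mul_one])
  ax_not_lt_zero := by
    intro m h
    have h1 : m.1 < 0 := h
    obtain ⟨x, hx⟩ := rep m.1
    rw [hx, zero_coe, lt_coe] at h1
    exact ev_false (h1.mono fun i hi => by omega)
  ax_lt_succ := by
    intro m n
    have h := lt_succ_H m.1 n.1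
    constructor
    · intro h1
      rcases h.1 h1 with h2 | h2
      · exact Or.inl h2
      · exact Or.inr (Subtype.ext h2)
    · rintro (h1 | h1)
      · exact h.2 (Or.inl h1)
      · exact h.2 (Or.inr (congrArg Subtype.val h1))
  sigma1_induction := by
    intro θ v h0 hs n
    obtain ⟨m, Q, hQ, h1⟩ := C.sigma1_Sg θ v
    rw [h1] at h0
    have hs' : ∀ n : C.NN.M, Q n.1 → Q (n.1 + 1) := by
      intro n hn
      have h2 := hs n ((h1 n).2 hn)
      rw [h1] at h2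
      exact h2
    rw [h1]
    by_contra hc
    obtain ⟨i, hi⟩ := n.2
    obtain ⟨j, hj⟩ : ∃ j, j = max i m := ⟨_, rfl⟩
    have hM := C.good j
    have hI := C.ind j
    have hn := C.M_mono (show i ≤ j by omega) hi
    have hQ' := C.isSg_mono (show m ≤ j by omega) hQ
    obtain ⟨D, hD, h2⟩ := hQ'.code hI hM (hM.add hn hM.one)
    have h3 : IsSg (C.M j) (C.S j).W (fun y => y < n.1 + 1 ∧ ¬ mem y D) :=
      (IsD.lt hM (IsFn.id hM) (IsFn.const (hM.add hn hM.one))).1.and hM (C.am j)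
        (IsD.mem hM (IsFn.id hM) (IsFn.const hD)).2
    obtain ⟨y, hy, ⟨hy1, hy2⟩, hy3⟩ := h3.least hM hI (hM.sub hn)
      ⟨lt_add_one _, fun h4 => hc ((h2 _).1 h4).2⟩
    have hQy : ¬ Q y := fun h4 => hy2 ((h2 y).2 ⟨hy1, h4⟩)
    have hy0 : y ≠ 0 := by
      rintro rfl
      exact hQy h0
    obtain ⟨z, hz⟩ := pred_H hy0
    have hzy : z < y := by
      rw [← hz]
      exact lt_add_one z
    have h5 : IsSg (C.M j) (C.S j).W (fun z => z + 1 = y) :=
      (IsD.eq hM ((IsFn.id hM).add hM (IsFn.const hM.one)) (IsFn.const hy)).1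
    obtain ⟨z', hz'M, hz'⟩ := h5.wit hM hI (Mb_le hzy.le (hM.sub hy)) hz
    have hzz : z' = z := by
      have : z' + 1 = z + 1 := hz'.trans hz.symm
      exact add_right_cancel this
    subst hzz
    have hQz : Q z' := by
      by_contra hcz
      have h6 := hy3 z' ⟨hzy.trans hy1, fun h7 => hcz ((h2 z').1 h7).2⟩
      exact absurd hzy (not_lt.2 h6)
    have h7 := hs' ⟨z', ⟨j, hz'M⟩⟩ hQz
    have h8 : z' + 1 = y := hz
    change Q (z' + 1) at h7
    rw [h8] at h7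
    exact hQy h7
  delta1_comprehension := by
    intro θ ψ v h
    obtain ⟨m, Q, hQ, h1⟩ := C.sigma1_Sg θ v
    obtain ⟨m', Q', hQ', h1'⟩ := C.sigma1_Sg (Delta0.neg ψ) v
    obtain ⟨j, hj⟩ : ∃ j, j = max m m' := ⟨_, rfl⟩
    have hM := C.good j
    have hI := C.ind j
    have g1 := C.isSg_mono (show m ≤ j by omega) hQ
    have g2 := C.isSg_mono (show m' ≤ j by omega) hQ'
    have h3 : ∀ n : C.NN.M, Q n.1 ↔ ¬ Q' n.1 := by
      intro n
      rw [← h1, ← h1', h n]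
      constructor
      · rintro h4 ⟨k, hk⟩
        exact hk (h4 k)
      · intro h4 k
        by_contra hc
        exact h4 ⟨k, hc⟩
    have h4 : ∀ x ∈ Mb, Q x ∨ Q' x := by
      refine (g1.or hM g2).transfer hM hI ?_
      intro x hx
      have := h3 ⟨x, ⟨j, hx⟩⟩
      tauto
    have h5 : ∀ x ∈ Mb, ¬ (Q x ∧ Q' x) := by
      intro x hx hc
      obtain ⟨y, hy, h6⟩ := (g1.and hM (C.am j) g2).wit hM hI hx hc
      have := h3 ⟨y, ⟨j, hy⟩⟩
      tauto
    refine ⟨j, Q, ⟨g1, g2.congr ?_⟩, ?_⟩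
    · intro x hx
      have h6 := h4 x hx
      have h7 := h5 x hx
      tauto
    · intro x
      exact h1 x

end Chain

end

end Pool.Agent.Helper803.Cads
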