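import Pool.Agent.Helper803.Cads.Base

/-!
The countable family of functions used to form hulls: the least family containing the identity
and closed under composition, pairing and the operators in a fixed finite list.
-/

namespace Pool.Agent.Helper803.Cads

open Filter
open scoped Classical

noncomputable section

/-- The code of a quadruple. -/
def q4 (p x w s : ℕ) : ℕ := Nat.pair (Nat.pair p x) (Nat.pair w s)

/-- `T` accepts the quadruple. -/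
def Hol (T : ℕ → ℕ) (p x w s : ℕ) : Prop := T (q4 p x w s) = 1

/-- The characteristic function of a relation on quadruples. -/
def mk (P : ℕ → ℕ → ℕ → ℕ → Prop) : ℕ → ℕ := fun t =>
  if P (q1 (q1 t)) (q2 (q1 t)) (q1 (q2 t)) (q2 (q2 t)) then 1 else 0

@[simp] lemma hol_mk (P : ℕ → ℕ → ℕ → ℕ → Prop) (p x w s : ℕ) :
    Hol (mk P) p x w s ↔ P p x w s := by
  simp [Hol, mk, q4]

/-- Monotone matrices: acceptance persists when more of the oracle is seen. -/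
def Mono (T : ℕ → ℕ) : Prop :=
  ∀ p x w w' s, w ≤ w' → Hol T p x w (rs s w) → Hol T p x w' s

/-! ### Operators -/

/-- Running maximum. -/
def oMax (F : ℕ → ℕ) : ℕ → ℕ := fun n => (Finset.range (n + 1)).sup F

/-- A bound for pairs. -/
def oSq : ℕ → ℕ := fun n => (n + 1) ^ 2

def oAdd : ℕ → ℕ := fun t => q1 t + q2 t
def oMul : ℕ → ℕ := fun t => q1 t * q2 t
def oLt : ℕ → ℕ := fun t => if q1 t < q2 t then 1 else 0
def oEq : ℕ → ℕ := fun t => if q1 t = q2 t then 1 else 0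
def oMem : ℕ → ℕ := fun t => if q1 t ∈ fs (q2 t) then 1 else 0
def oNot (F : ℕ → ℕ) : ℕ → ℕ := fun t => if F t = 1 then 0 else 1
def oRs : ℕ → ℕ := fun t => rs (q1 t) (q2 t)

/-- Decidable matrix. -/
def oDec (F : ℕ → ℕ) : ℕ → ℕ := mk (fun p x _ _ => F (Nat.pair p x) = 1)

def oAnd (T T' : ℕ → ℕ) : ℕ → ℕ := mk (fun p x w s => Hol T (q1 p) x w s ∧ Hol T' (q2 p) x w s)
def oOr (T T' : ℕ → ℕ) : ℕ → ℕ := mk (fun p x w s => Hol T (q1 p) x w s ∨ Hol T' (q2 p) x w s)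
def oEx (T : ℕ → ℕ) : ℕ → ℕ := mk (fun p x w s => ∃ y ≤ w, Hol T p (Nat.pair x y) w s)
def oBall (T F : ℕ → ℕ) : ℕ → ℕ :=
  mk (fun p x w s => ∀ y < F (Nat.pair (q1 p) x), Hol T (q2 p) (Nat.pair x y) w s)
def oComp (T F : ℕ → ℕ) : ℕ → ℕ :=
  mk (fun p x w s => Hol T (q2 p) (F (Nat.pair (q1 p) x)) w s)
def oPos : ℕ → ℕ := mk (fun _ x w s => x < w ∧ x ∈ fs s)
def oNeg : ℕ → ℕ := mk (fun _ x w s => x < w ∧ x ∉ fs s)
def oLift (T : ℕ → ℕ) : ℕ → ℕ :=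
  mk (fun p x w s => Hol T p x (w / 2) (cf (w / 2) (fun y => 2 * y ∈ fs s)))

/-- Least and greatest elements of coded sets. -/
def oMin : ℕ → ℕ := fun s => if h : (fs s).Nonempty then (fs s).min' h else 0
def oMaxS : ℕ → ℕ := fun s => if h : (fs s).Nonempty then (fs s).max' h else 0

/-- Join of two coded sets. -/
def jc (h u v : ℕ) : ℕ :=
  cf (h + h) (fun x => (x % 2 = 0 ∧ x / 2 ∈ fs u) ∨ (x % 2 = 1 ∧ x / 2 ∈ fs v))
def oJc : ℕ → ℕ := fun t => jc (q1 t) (q1 (q2 t)) (q2 (q2 t))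
def oIns : ℕ → ℕ := fun t => cd (insert (q1 t) (fs (q2 t)))
def oSetT (T : ℕ → ℕ) : ℕ → ℕ := fun t =>
  cf (q1 (q2 t)) (fun x => Hol T (q1 t) x (q1 (q2 (q2 t))) (q2 (q2 (q2 t))))

/-- `(s', h')` extends `(s, h)` inside the `Σ₁` set given by `TA`, `pA`, as seen below `w`. -/
def gE (TA : ℕ → ℕ) (pA s h s' h' w v : ℕ) : Prop :=
  h ≤ h' ∧ h' ≤ w ∧ (∀ x ∈ fs s', x < h') ∧ (∀ x < h, x ∈ fs s ↔ x ∈ fs s') ∧
    ∀ x ∈ fs s', h ≤ x → Hol TA pA x w v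

/-- The set decided by a condition. -/
def gN (T : ℕ → ℕ) (p z s' h' v : ℕ) : Finset ℕ :=
  (Finset.range z).filter (fun x => Hol T p x (h' + h') (jc h' (rs v h') s'))

def oGen (T TA : ℕ → ℕ) : ℕ → ℕ := mk (fun P j w v => ∃ s' h',
  gE TA (q2 (q2 (q2 (q2 P)))) (q1 (q2 (q2 P))) (q1 (q2 (q2 (q2 P)))) s' h' w v ∧
    j ≤ (gN T (q1 P) (q1 (q2 P)) s' h' v).card)

def oGenS (T TA : ℕ → ℕ) : ℕ → ℕ := fun t =>
  if h : ∃ a, gE TA (q2 (q2 (q2 (q2 (q1 t))))) (q1 (q2 (q2 (q1 t)))) (q1 (q2 (q2 (q2 (q1 t)))))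
      (q1 a) (q2 a) (q1 (q2 (q2 t))) (q2 (q2 (q2 t))) ∧
      q1 (q2 t) ≤ (gN T (q1 (q1 t)) (q1 (q2 (q1 t))) (q1 a) (q2 a) (q2 (q2 (q2 t)))).card
  then h.choose else 0

def oGenC (T : ℕ → ℕ) : ℕ → ℕ := fun t =>
  (gN T (q1 t) (q1 (q2 t)) (q1 (q2 (q2 t))) (q1 (q2 (q2 (q2 t)))) (q2 (q2 (q2 (q2 t))))).card

/-- Functions for the empty oracle. -/
def oBD (T : ℕ → ℕ) : ℕ → ℕ := fun t => cf (q2 t) (fun x => ∃ w, Hol T (q1 t) x w (cd ∅))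
def oBE (T : ℕ → ℕ) : ℕ → ℕ := fun t => (Finset.range (q2 t)).sup
  (fun x => if h : ∃ w, Hol T (q1 t) x w (cd ∅) then h.choose else 0)

/-- Functions for adding a bounded element to a hull. -/
def oXT (T F : ℕ → ℕ) : ℕ → ℕ := mk (fun P y w s =>
  Hol T (F (Nat.pair (q1 P) (Nat.pair (q2 P) (q1 y)))) (q2 y) w s)
def oXZ (G : ℕ → ℕ) : ℕ → ℕ := fun t => oSq (q2 t + (Finset.range (q2 t)).sup
  (fun u => G (Nat.pair (q1 (q1 t)) (Nat.pair (q2 (q1 t)) u))))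
def oXD : ℕ → ℕ := fun t => cf (q2 (q2 t)) (fun x => Nat.pair (q1 (q2 t)) x ∈ fs (q1 t))

/-- The set of codes of subsets of `{x | x < n}`. -/
def PP (n : ℕ) : Finset ℕ := (Finset.range n).powerset.image cd
def oPP : ℕ → ℕ := fun n => cd (PP n)

/-- Parts of a coded set `B`, cut along the values of `F`. -/
def oB1 (F : ℕ → ℕ) : ℕ → ℕ := fun t => cd ((fs (q1 (q2 (q2 t)))).filter (fun a =>
  F (Nat.pair (q1 t) (Nat.pair (q1 (q2 t)) a)) ∈ fs (q2 (q2 (q2 t)))))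
def oB2 (F : ℕ → ℕ) : ℕ → ℕ := fun t => cd ((fs (q1 (q2 (q2 t)))).filter (fun a =>
  F (Nat.pair (q1 t) (Nat.pair (q1 (q2 t)) a)) ∉ fs (q2 (q2 (q2 t)))))
def oBlo (F : ℕ → ℕ) : ℕ → ℕ := fun t => cd ((fs (q1 (q2 (q2 t)))).filter (fun a =>
  Nat.pair (F (Nat.pair (q1 t) (Nat.pair (q1 (q2 t)) a))) (q2 (q2 (q2 (q2 t)))) ∈
    fs (q1 (q2 (q2 (q2 t))))))
def oBhi (F : ℕ → ℕ) : ℕ → ℕ := fun t => cd ((fs (q1 (q2 (q2 t)))).filter (fun a =>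
  Nat.pair (q2 (q2 (q2 (q2 t)))) (F (Nat.pair (q1 t) (Nat.pair (q1 (q2 t)) a))) ∈
    fs (q1 (q2 (q2 (q2 t))))))

/-- A median of the values of `f` on `B` with respect to the relation `l`. -/
def Med (f : ℕ → ℕ) (B : Finset ℕ) (l w : ℕ) : Prop :=
  (∃ a ∈ B, w = f a) ∧ B.card ≤ 2 * (B.filter (fun a => Nat.pair (f a) w ∈ fs l)).card ∧
    B.card ≤ 2 * (B.filter (fun a => Nat.pair w (f a) ∈ fs l)).card
def oMed (F : ℕ → ℕ) : ℕ → ℕ := fun t =>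
  if h : ∃ w, Med (fun a => F (Nat.pair (q1 t) (Nat.pair (q1 (q2 t)) a))) (fs (q1 (q2 (q2 t))))
    (q2 (q2 (q2 t))) w then h.choose else 0

/-- The members of `B` splitting `D`. -/
def oSpl : ℕ → ℕ := fun t => cd ((fs (q1 t)).filter (fun a =>
  (∃ v ∈ fs (q2 t), v ∈ fs a) ∧ ∃ v ∈ fs (q2 t), v ∉ fs a))

/-- A least element of `D` with respect to the relation `l`. -/
def oRMin : ℕ → ℕ := fun t =>
  if h : ∃ x ∈ fs (q1 t), ∀ y ∈ fs (q1 t), Nat.pair x y ∈ fs (q2 t) then h.choose else 0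

def oMod : ℕ → ℕ := fun t => q1 t % q2 t
def oHalf : ℕ → ℕ := fun t => (q1 t + q2 t) / 2

/-- Decoding the pairing function `(x + y) * (x + y) + x`. -/
def oDi : ℕ → ℕ := fun p => p - Nat.sqrt p * Nat.sqrt p
def oDx : ℕ → ℕ := fun p => Nat.sqrt p - (p - Nat.sqrt p * Nat.sqrt p)

/-- The list of operators. -/
def L : List ((ℕ → ℕ) → (ℕ → ℕ) → ℕ → ℕ) :=
  [fun _ _ => fun _ => 0, fun _ _ => fun _ => 1, fun _ _ => q1, fun _ _ => q2,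
   fun F _ => oMax F, fun _ _ => oSq, fun _ _ => oAdd, fun _ _ => oMul, fun _ _ => oLt,
   fun _ _ => oEq, fun _ _ => oMem, fun F _ => oNot F, fun _ _ => oRs, fun F _ => oDec F,
   fun T T' => oAnd T T', fun T T' => oOr T T', fun T _ => oEx T, fun T F => oBall T F,
   fun T F => oComp T F, fun _ _ => oPos, fun _ _ => oNeg, fun T _ => oLift T,
   fun _ _ => oMin, fun _ _ => oMaxS, fun _ _ => oJc, fun _ _ => oIns, fun T _ => oSetT T,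
   fun T TA => oGen T TA, fun T TA => oGenS T TA, fun T _ => oGenC T,
   fun T _ => oBD T, fun T _ => oBE T, fun T F => oXT T F, fun T _ => oXZ T, fun _ _ => oXD,
   fun _ _ => oPP, fun F _ => oB1 F, fun F _ => oB2 F, fun F _ => oBlo F, fun F _ => oBhi F,
   fun F _ => oMed F, fun _ _ => oSpl, fun _ _ => oRMin, fun _ _ => oMod, fun _ _ => oHalf,
   fun _ _ => oDi, fun _ _ => oDx]

/-- Terms for the functions of the family. -/
inductive Tm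
  | id : Tm
  | comp : Tm → Tm → Tm
  | pair : Tm → Tm → Tm
  | op : ℕ → Tm → Tm → Tm
  deriving Countable

/-- The value of a term. -/
def Tm.ev : Tm → ℕ → ℕ
  | .id => fun t => t
  | .comp a b => fun t => a.ev (b.ev t)
  | .pair a b => fun t => Nat.pair (a.ev t) (b.ev t)
  | .op n a b => (L.getD n (fun _ _ => fun _ => 0)) a.ev b.ev

/-- The family of functions. -/
def FF (F : ℕ → ℕ) : Prop := ∃ t : Tm, t.ev = F

lemma FF.cnt : {F | FF F}.Countable := Set.countable_range Tm.ev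

lemma FF.id : FF (fun t => t) := ⟨.id, rfl⟩

lemma FF.comp {F G : ℕ → ℕ} (hF : FF F) (hG : FF G) : FF (fun t => F (G t)) := by
  obtain ⟨a, rfl⟩ := hF
  obtain ⟨b, rfl⟩ := hG
  exact ⟨.comp a b, rfl⟩

lemma FF.pair {F G : ℕ → ℕ} (hF : FF F) (hG : FF G) : FF (fun t => Nat.pair (F t) (G t)) := by
  obtain ⟨a, rfl⟩ := hF
  obtain ⟨b, rfl⟩ := hG
  exact ⟨.pair a b, rfl⟩

lemma FF.op {Φ : (ℕ → ℕ) → (ℕ → ℕ) → ℕ → ℕ} (n : ℕ) (h : L.getD n (fun _ _ => fun _ => 0) = Φ)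
    {F G : ℕ → ℕ} (hF : FF F) (hG : FF G) : FF (Φ F G) := by
  obtain ⟨a, rfl⟩ := hF
  obtain ⟨b, rfl⟩ := hG
  exact ⟨.op n a b, by rw [← h]; rfl⟩

lemma FF.zero : FF (fun _ => 0) := FF.op (Φ := fun _ _ => fun _ => 0) 0 rfl FF.id FF.id
lemma FF.one : FF (fun _ => 1) := FF.op (Φ := fun _ _ => fun _ => 1) 1 rfl FF.id FF.id
lemma FF.q1 : FF q1 := FF.op (Φ := fun _ _ => Cads.q1) 2 rfl FF.id FF.id
lemma FF.q2 : FF q2 := FF.op (Φ := fun _ _ => Cads.q2) 3 rfl FF.id FF.id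
lemma FF.oMax {F : ℕ → ℕ} (h : FF F) : FF (oMax F) :=
  FF.op (Φ := fun F _ => Cads.oMax F) 4 rfl h FF.id
lemma FF.oSq : FF oSq := FF.op (Φ := fun _ _ => Cads.oSq) 5 rfl FF.id FF.id
lemma FF.oAdd : FF oAdd := FF.op (Φ := fun _ _ => Cads.oAdd) 6 rfl FF.id FF.id
lemma FF.oMul : FF oMul := FF.op (Φ := fun _ _ => Cads.oMul) 7 rfl FF.id FF.id
lemma FF.oLt : FF oLt := FF.op (Φ := fun _ _ => Cads.oLt) 8 rfl FF.id FF.id
lemma FF.oEq : FF oEq := FF.op (Φ := fun _ _ => Cads.oEq) 9 rfl FF.id FF.id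
lemma FF.oMem : FF oMem := FF.op (Φ := fun _ _ => Cads.oMem) 10 rfl FF.id FF.id
lemma FF.oNot {F : ℕ → ℕ} (h : FF F) : FF (oNot F) :=
  FF.op (Φ := fun F _ => Cads.oNot F) 11 rfl h FF.id
lemma FF.oRs : FF oRs := FF.op (Φ := fun _ _ => Cads.oRs) 12 rfl FF.id FF.id
lemma FF.oDec {F : ℕ → ℕ} (h : FF F) : FF (oDec F) :=
  FF.op (Φ := fun F _ => Cads.oDec F) 13 rfl h FF.id
lemma FF.oAnd {F G : ℕ → ℕ} (h : FF F) (h' : FF G) : FF (oAnd F G) :=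
  FF.op (Φ := fun F G => Cads.oAnd F G) 14 rfl h h'
lemma FF.oOr {F G : ℕ → ℕ} (h : FF F) (h' : FF G) : FF (oOr F G) :=
  FF.op (Φ := fun F G => Cads.oOr F G) 15 rfl h h'
lemma FF.oEx {F : ℕ → ℕ} (h : FF F) : FF (oEx F) :=
  FF.op (Φ := fun F _ => Cads.oEx F) 16 rfl h FF.id
lemma FF.oBall {F G : ℕ → ℕ} (h : FF F) (h' : FF G) : FF (oBall F G) :=
  FF.op (Φ := fun F G => Cads.oBall F G) 17 rfl h h'
lemma FF.oComp {F G : ℕ → ℕ} (h : FF F) (h' : FF G) : FF (oComp F G) :=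
  FF.op (Φ := fun F G => Cads.oComp F G) 18 rfl h h'
lemma FF.oPos : FF oPos := FF.op (Φ := fun _ _ => Cads.oPos) 19 rfl FF.id FF.id
lemma FF.oNeg : FF oNeg := FF.op (Φ := fun _ _ => Cads.oNeg) 20 rfl FF.id FF.id
lemma FF.oLift {F : ℕ → ℕ} (h : FF F) : FF (oLift F) :=
  FF.op (Φ := fun F _ => Cads.oLift F) 21 rfl h FF.id

lemma FF.oMin : FF oMin := FF.op (Φ := fun _ _ => Cads.oMin) 22 rfl FF.id FF.id
lemma FF.oMaxS : FF oMaxS := FF.op (Φ := fun _ _ => Cads.oMaxS) 23 rfl FF.id FF.id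
lemma FF.oJc : FF oJc := FF.op (Φ := fun _ _ => Cads.oJc) 24 rfl FF.id FF.id
lemma FF.oIns : FF oIns := FF.op (Φ := fun _ _ => Cads.oIns) 25 rfl FF.id FF.id
lemma FF.oSetT {F : ℕ → ℕ} (h : FF F) : FF (oSetT F) :=
  FF.op (Φ := fun F _ => Cads.oSetT F) 26 rfl h FF.id
lemma FF.oGen {F G : ℕ → ℕ} (h : FF F) (h' : FF G) : FF (oGen F G) :=
  FF.op (Φ := fun F G => Cads.oGen F G) 27 rfl h h'
lemma FF.oGenS {F G : ℕ → ℕ} (h : FF F) (h' : FF G) : FF (oGenS F G) :=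
  FF.op (Φ := fun F G => Cads.oGenS F G) 28 rfl h h'
lemma FF.oGenC {F : ℕ → ℕ} (h : FF F) : FF (oGenC F) :=
  FF.op (Φ := fun F _ => Cads.oGenC F) 29 rfl h FF.id

lemma FF.oBD {F : ℕ → ℕ} (h : FF F) : FF (oBD F) :=
  FF.op (Φ := fun F _ => Cads.oBD F) 30 rfl h FF.id
lemma FF.oBE {F : ℕ → ℕ} (h : FF F) : FF (oBE F) :=
  FF.op (Φ := fun F _ => Cads.oBE F) 31 rfl h FF.id
lemma FF.oXT {F G : ℕ → ℕ} (h : FF F) (h' : FF G) : FF (oXT F G) :=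
  FF.op (Φ := fun F G => Cads.oXT F G) 32 rfl h h'
lemma FF.oXZ {F : ℕ → ℕ} (h : FF F) : FF (oXZ F) :=
  FF.op (Φ := fun F _ => Cads.oXZ F) 33 rfl h FF.id
lemma FF.oXD : FF oXD := FF.op (Φ := fun _ _ => Cads.oXD) 34 rfl FF.id FF.id
lemma FF.oPP : FF oPP := FF.op (Φ := fun _ _ => Cads.oPP) 35 rfl FF.id FF.id
lemma FF.oB1 {F : ℕ → ℕ} (h : FF F) : FF (oB1 F) :=
  FF.op (Φ := fun F _ => Cads.oB1 F) 36 rfl h FF.id
lemma FF.oB2 {F : ℕ → ℕ} (h : FF F) : FF (oB2 F) :=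
  FF.op (Φ := fun F _ => Cads.oB2 F) 37 rfl h FF.id
lemma FF.oBlo {F : ℕ → ℕ} (h : FF F) : FF (oBlo F) :=
  FF.op (Φ := fun F _ => Cads.oBlo F) 38 rfl h FF.id
lemma FF.oBhi {F : ℕ → ℕ} (h : FF F) : FF (oBhi F) :=
  FF.op (Φ := fun F _ => Cads.oBhi F) 39 rfl h FF.id
lemma FF.oMed {F : ℕ → ℕ} (h : FF F) : FF (oMed F) :=
  FF.op (Φ := fun F _ => Cads.oMed F) 40 rfl h FF.id
lemma FF.oSpl : FF oSpl := FF.op (Φ := fun _ _ => Cads.oSpl) 41 rfl FF.id FF.id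
lemma FF.oRMin : FF oRMin := FF.op (Φ := fun _ _ => Cads.oRMin) 42 rfl FF.id FF.id

lemma FF.oMod : FF oMod := FF.op (Φ := fun _ _ => Cads.oMod) 43 rfl FF.id FF.id
lemma FF.oHalf : FF oHalf := FF.op (Φ := fun _ _ => Cads.oHalf) 44 rfl FF.id FF.id

lemma FF.oDi : FF oDi := FF.op (Φ := fun _ _ => Cads.oDi) 45 rfl FF.id FF.id
lemma FF.oDx : FF oDx := FF.op (Φ := fun _ _ => Cads.oDx) 46 rfl FF.id FF.id

end

end Pool.Agent.Helper803.Cads
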