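import Pool.Agent.Helper803.Cads.Ops

/-!
The bounded cut `Mb`, hulls, and `Σ₁` sets over a hull with an amenable oracle.
-/

namespace Pool.Agent.Helper803.Cads

open Filter
open scoped Classical

noncomputable section

/-- The constants `0` and `1` of `H` are the germs of constant functions. -/
lemma zero_coe : (0 : H) = ((fun _ => 0 : ℕ → ℕ) : H) := rfl
lemma one_coe : (1 : H) = ((fun _ => 1 : ℕ → ℕ) : H) := rfl
lemma add_coe (f g : ℕ → ℕ) : (f : H) + (g : H) = ((fun i => f i + g i : ℕ → ℕ) : H) := rfl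
lemma mul_coe (f g : ℕ → ℕ) : (f : H) * (g : H) = ((fun i => f i * g i : ℕ → ℕ) : H) := rfl

@[simp] lemma ap_id (x : H) : ap (fun t => t) x = x := by
  obtain ⟨x, rfl⟩ := rep x
  rfl

@[simp] lemma ap_q1 (x y : H) : ap q1 (pr x y) = x := by
  obtain ⟨x, rfl⟩ := rep x
  obtain ⟨y, rfl⟩ := rep y
  rw [pr_coe, ap_coe]
  simp

@[simp] lemma ap_q2 (x y : H) : ap q2 (pr x y) = y := by
  obtain ⟨x, rfl⟩ := rep x
  obtain ⟨y, rfl⟩ := rep y
  rw [pr_coe, ap_coe]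
  simp

lemma ap_comp (F G : ℕ → ℕ) (x : H) : ap F (ap G x) = ap (fun t => F (G t)) x := by
  obtain ⟨x, rfl⟩ := rep x
  rfl

lemma pr_ap (F G : ℕ → ℕ) (x : H) :
    pr (ap F x) (ap G x) = ap (fun t => Nat.pair (F t) (G t)) x := by
  obtain ⟨x, rfl⟩ := rep x
  rfl

lemma ap_oAdd (x y : H) : ap oAdd (pr x y) = x + y := by
  obtain ⟨x, rfl⟩ := rep x
  obtain ⟨y, rfl⟩ := rep y
  rw [pr_coe, ap_coe, add_coe]
  simp [oAdd]

lemma ap_oMul (x y : H) : ap oMul (pr x y) = x * y := by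
  obtain ⟨x, rfl⟩ := rep x
  obtain ⟨y, rfl⟩ := rep y
  rw [pr_coe, ap_coe, mul_coe]
  simp [oMul]

lemma ap_zero (x : H) : ap (fun _ => 0) x = 0 := by
  obtain ⟨x, rfl⟩ := rep x
  rfl

lemma ap_one (x : H) : ap (fun _ => 1) x = 1 := by
  obtain ⟨x, rfl⟩ := rep x
  rfl

/-- The common cut of all hulls. -/
def Mb : Set H := {x | ∃ F, FF F ∧ x ≤ ap F bb}

lemma Mb_le {x y : H} (h : x ≤ y) (hy : y ∈ Mb) : x ∈ Mb := by
  obtain ⟨F, hF, h1⟩ := hy
  exact ⟨F, hF, h.trans h1⟩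

lemma ap_le_oMax (F : ℕ → ℕ) {x y : H} (h : x ≤ y) : ap F x ≤ ap (oMax F) y := by
  obtain ⟨x, rfl⟩ := rep x
  obtain ⟨y, rfl⟩ := rep y
  rw [le_coe] at h
  rw [ap_coe, ap_coe, le_coe]
  filter_upwards [h] with i hi
  exact Finset.le_sup (f := F) (Finset.mem_range.2 (by omega))

lemma Mb_ap {F : ℕ → ℕ} (hF : FF F) {x : H} (hx : x ∈ Mb) : ap F x ∈ Mb := by
  obtain ⟨G, hG, h1⟩ := hx
  refine ⟨fun t => oMax F (G t), FF.comp (FF.oMax hF) hG, ?_⟩
  rw [← ap_comp (oMax F) G]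
  exact ap_le_oMax F h1

lemma Mb_bb : bb ∈ Mb := ⟨fun t => t, FF.id, by simp⟩

lemma Mb_add {x y : H} (hx : x ∈ Mb) (hy : y ∈ Mb) : x + y ∈ Mb := by
  obtain ⟨F, hF, h1⟩ := hx
  obtain ⟨G, hG, h2⟩ := hy
  refine ⟨fun t => oAdd (Nat.pair (F t) (G t)), FF.comp FF.oAdd (FF.pair hF hG), ?_⟩
  rw [← ap_comp, ← pr_ap, ap_oAdd]
  exact add_le_add h1 h2

lemma Mb_pr {x y : H} (hx : x ∈ Mb) (hy : y ∈ Mb) : pr x y ∈ Mb := by
  refine Mb_le ?_ (Mb_ap FF.oSq (Mb_add hx hy))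
  obtain ⟨x, rfl⟩ := rep x
  obtain ⟨y, rfl⟩ := rep y
  rw [pr_coe, add_coe, ap_coe, le_coe]
  refine Eventually.of_forall fun i => ?_
  have h := Nat.pair_lt_max_add_one_sq (x i) (y i)
  have h2 : max (x i) (y i) + 1 ≤ x i + y i + 1 := by omega
  have h3 := Nat.pow_le_pow_left h2 2
  simp only [oSq]
  omega

lemma Mb_zero : (0 : H) ∈ Mb := by
  rw [← ap_zero bb]
  exact Mb_ap FF.zero Mb_bb

lemma Mb_one : (1 : H) ∈ Mb := by
  rw [← ap_one bb]
  exact Mb_ap FF.one Mb_bb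

/-- A countable set of elements of the cut, cofinal and closed under the family. -/
structure Good (M : Set H) : Prop where
  ap : ∀ {F : ℕ → ℕ} {x : H}, FF F → x ∈ M → ap F x ∈ M
  pr : ∀ {x y : H}, x ∈ M → y ∈ M → pr x y ∈ M
  bb : bb ∈ M
  cof : ∀ {x : H}, x ∈ Mb → ∃ y ∈ M, x ≤ y
  sub : ∀ {x : H}, x ∈ M → x ∈ Mb
  cnt : M.Countable

lemma Good.zero {M : Set H} (hM : Good M) : (0 : H) ∈ M := by
  rw [← ap_zero Cads.bb]
  exact hM.ap FF.zero hM.bb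

lemma Good.one {M : Set H} (hM : Good M) : (1 : H) ∈ M := by
  rw [← ap_one Cads.bb]
  exact hM.ap FF.one hM.bb

lemma Good.add {M : Set H} (hM : Good M) {x y : H} (hx : x ∈ M) (hy : y ∈ M) : x + y ∈ M := by
  rw [← ap_oAdd]
  exact hM.ap FF.oAdd (hM.pr hx hy)

lemma Good.mul {M : Set H} (hM : Good M) {x y : H} (hx : x ∈ M) (hy : y ∈ M) : x * y ∈ M := by
  rw [← ap_oMul]
  exact hM.ap FF.oMul (hM.pr hx hy)

lemma Good.cof_lt {M : Set H} (hM : Good M) {x : H} (hx : x ∈ Mb) : ∃ y ∈ M, x < y := by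
  obtain ⟨y, hy, h⟩ := hM.cof hx
  exact ⟨y + 1, hM.add hy hM.one, lt_of_le_of_lt h (lt_add_one y)⟩

/-- The hull of `α`. -/
def hull (α : H) : Set H := {x | ∃ F, FF F ∧ x = ap F (pr bb α)}

lemma good_hull {α : H} (hα : α ∈ Mb) : Good (hull α) where
  ap := by
    rintro F x hF ⟨G, hG, rfl⟩
    exact ⟨_, FF.comp hF hG, ap_comp F G _⟩
  pr := by
    rintro x y ⟨F, hF, rfl⟩ ⟨G, hG, rfl⟩
    exact ⟨_, FF.pair hF hG, pr_ap F G _⟩
  bb := ⟨q1, FF.q1, by simp⟩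
  cof := by
    rintro x ⟨F, hF, h⟩
    refine ⟨_, ⟨fun t => F (q1 t), FF.comp hF FF.q1, rfl⟩, ?_⟩
    rw [← ap_comp, ap_q1]
    exact h
  sub := by
    rintro x ⟨F, hF, rfl⟩
    exact Mb_ap hF (Mb_pr Mb_bb hα)
  cnt := by
    have h : hull α = (fun F => ap F (pr bb α)) '' {F | FF F} := by
      ext x
      constructor
      · rintro ⟨F, hF, rfl⟩
        exact ⟨F, hF, rfl⟩
      · rintro ⟨F, hF, rfl⟩
        exact ⟨F, hF, rfl⟩
    rw [h]
    exact FF.cnt.image _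

lemma self_mem_hull (α : H) : α ∈ hull α := ⟨q2, FF.q2, by simp⟩

lemma hull_mono {α β : H} (h : β ∈ hull α) (hα : α ∈ Mb) : hull β ⊆ hull α := by
  rintro x ⟨F, hF, rfl⟩
  exact (good_hull hα).ap hF ((good_hull hα).pr (good_hull hα).bb h)

/-! ### Oracles -/

/-- `s` codes the part of `W` below `w`. -/
def cod (W : Set H) (w s : H) : Prop := ∀ x, mem x s ↔ x < w ∧ x ∈ W

/-- Internal acceptance. -/
def T4 (T : ℕ → ℕ) (p x w s : H) : Prop :=
  Germ.LiftPred (fun t => T t = 1) (pr (pr p x) (pr w s))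

lemma T4_coe (T : ℕ → ℕ) (p x w s : ℕ → ℕ) :
    T4 T (p : H) (x : H) (w : H) (s : H) ↔ ∀ᶠ i in U, Hol T (p i) (x i) (w i) (s i) := Iff.rfl

/-- The `Σ₁` predicate with matrix `T`, oracle `W` and parameter `p`. -/
def Sg (T : ℕ → ℕ) (W : Set H) (p x : H) : Prop :=
  ∃ w s, w ∈ Mb ∧ cod W w s ∧ T4 T p x w s

lemma cod_unique {W : Set H} {w s t : H} (h : cod W w s) (h' : cod W w t) : s = t :=
  mem_ext fun x => by rw [h x, h' x]

/-- Restriction of a coded set. -/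
def rsH (s w : H) : H := ap oRs (pr s w)

lemma mem_rsH (x s w : H) : mem x (rsH s w) ↔ mem x s ∧ x < w := by
  obtain ⟨x, rfl⟩ := rep x
  obtain ⟨s, rfl⟩ := rep s
  obtain ⟨w, rfl⟩ := rep w
  rw [rsH, pr_coe, ap_coe, mem_coe, mem_coe, lt_coe, ← eventually_and]
  simp [oRs]

lemma cod_rs {W : Set H} {w w' s : H} (h : cod W w' s) (hw : w ≤ w') : cod W w (rsH s w) := by
  intro x
  rw [mem_rsH, h x]
  constructor
  · rintro ⟨⟨_, h1⟩, h2⟩
    exact ⟨h2, h1⟩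
  · rintro ⟨h1, h2⟩
    exact ⟨⟨lt_of_lt_of_le h1 hw, h2⟩, h1⟩

lemma T4_mono {T : ℕ → ℕ} (hT : Mono T) {W : Set H} {p x w w' s s' : H} (h : cod W w s)
    (h' : cod W w' s') (hw : w ≤ w') (h4 : T4 T p x w s) : T4 T p x w' s' := by
  have h5 := cod_unique h (cod_rs h' hw)
  subst h5
  clear h h'
  obtain ⟨x, rfl⟩ := rep x
  obtain ⟨p, rfl⟩ := rep p
  obtain ⟨s, rfl⟩ := rep s'
  obtain ⟨w, rfl⟩ := rep w
  obtain ⟨w', rfl⟩ := rep w'
  rw [rsH, pr_coe, ap_coe, T4_coe] at h4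
  rw [le_coe] at hw
  rw [T4_coe]
  filter_upwards [h4, hw] with i h6 h7
  simp only [oRs, q1_pair, q2_pair] at h6
  exact hT _ _ _ _ _ h7 h6

/-- `W` is piecewise coded in the cut. -/
def Am (W : Set H) : Prop := ∀ w ∈ Mb, ∃ s, cod W w s

lemma Sg_lift {T : ℕ → ℕ} (hT : Mono T) {W : Set H} {p x : H} (h : Sg T W p x) :
    ∃ w0 ∈ Mb, ∀ w ∈ Mb, w0 ≤ w → ∀ s, cod W w s → T4 T p x w s := by
  obtain ⟨w0, s0, h0, h1, h2⟩ := h
  exact ⟨w0, h0, fun w _ hw s hs => T4_mono hT h1 hs hw h2⟩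

/-- `ρ` is `Σ₁` over `(M, W)` on the cut. -/
def IsSg (M W : Set H) (ρ : H → Prop) : Prop :=
  ∃ T, FF T ∧ Mono T ∧ ∃ p ∈ M, ∀ x ∈ Mb, ρ x ↔ Sg T W p x

/-- `ρ` is `Δ₁` over `(M, W)` on the cut. -/
def IsD (M W : Set H) (ρ : H → Prop) : Prop := IsSg M W ρ ∧ IsSg M W (fun x => ¬ ρ x)

/-- `(M, W)` satisfies strong `Σ₁` induction. -/
structure Ind (M W : Set H) : Prop where
  am : ∀ w ∈ M, ∃ s ∈ M, cod W w s
  bd : ∀ T, FF T → Mono T → ∀ p ∈ M, ∀ z ∈ M, ∃ D ∈ M, ∃ e ∈ M, ∃ s ∈ M, cod W e s ∧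
    ∀ x, (mem x D ↔ x < z ∧ Sg T W p x) ∧ (mem x D → T4 T p x e s)

lemma Ind.Am {M W : Set H} (hM : Good M) (h : Ind M W) : Am W := by
  intro w hw
  obtain ⟨w', hw', h1⟩ := hM.cof hw
  obtain ⟨s, _, h2⟩ := h.am w' hw'
  exact ⟨_, cod_rs h2 h1⟩

lemma IsSg.congr {M W : Set H} {ρ σ : H → Prop} (h : IsSg M W ρ)
    (h' : ∀ x ∈ Mb, ρ x ↔ σ x) : IsSg M W σ := by
  obtain ⟨T, hT, hm, p, hp, h1⟩ := h
  exact ⟨T, hT, hm, p, hp, fun x hx => by rw [← h' x hx, h1 x hx]⟩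

lemma IsSg.mono {M M' W : Set H} {ρ : H → Prop} (h : IsSg M W ρ) (hM : M ⊆ M') :
    IsSg M' W ρ := by
  obtain ⟨T, hT, hm, p, hp, h1⟩ := h
  exact ⟨T, hT, hm, p, hM hp, h1⟩

lemma IsD.congr {M W : Set H} {ρ σ : H → Prop} (h : IsD M W ρ)
    (h' : ∀ x ∈ Mb, ρ x ↔ σ x) : IsD M W σ :=
  ⟨h.1.congr h', h.2.congr fun x hx => by rw [h' x hx]⟩

lemma IsD.mono {M M' W : Set H} {ρ : H → Prop} (h : IsD M W ρ) (hM : M ⊆ M') :
    IsD M' W ρ := ⟨h.1.mono hM, h.2.mono hM⟩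

lemma IsD.not {M W : Set H} {ρ : H → Prop} (h : IsD M W ρ) : IsD M W (fun x => ¬ ρ x) :=
  ⟨h.2, h.1.congr fun x _ => by simp⟩

/-- Functions given by the family with a parameter. -/
def IsFn (M : Set H) (f : H → H) : Prop := ∃ F, FF F ∧ ∃ c ∈ M, ∀ x, f x = ap F (pr c x)

lemma IsFn.const {M : Set H} {c : H} (hc : c ∈ M) : IsFn M (fun _ => c) :=
  ⟨q1, FF.q1, c, hc, fun x => by simp⟩

lemma IsFn.id {M : Set H} (hM : Good M) : IsFn M (fun x => x) :=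
  ⟨q2, FF.q2, _, hM.bb, fun x => by simp⟩

lemma IsFn.ap {M : Set H} {f : H → H} (hf : IsFn M f) {F : ℕ → ℕ} (hF : FF F) :
    IsFn M (fun x => ap F (f x)) := by
  obtain ⟨G, hG, c, hc, h⟩ := hf
  exact ⟨_, FF.comp hF hG, c, hc, fun x => by beta_reduce; rw [h, ap_comp]⟩

lemma IsFn.pr {M : Set H} (hM : Good M) {f g : H → H} (hf : IsFn M f) (hg : IsFn M g) :
    IsFn M (fun x => pr (f x) (g x)) := by
  obtain ⟨F, hF, c, hc, h⟩ := hf
  obtain ⟨G, hG, d, hd, h'⟩ := hg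
  refine ⟨fun t => Nat.pair (F (Nat.pair (q1 (q1 t)) (q2 t))) (G (Nat.pair (q2 (q1 t)) (q2 t))),
    ?_, Cads.pr c d, hM.pr hc hd, ?_⟩
  · exact FF.pair (FF.comp hF (FF.pair (FF.comp FF.q1 FF.q1) FF.q2))
      (FF.comp hG (FF.pair (FF.comp FF.q2 FF.q1) FF.q2))
  · intro x
    beta_reduce
    rw [h, h']
    clear h h'
    obtain ⟨x, rfl⟩ := rep x
    obtain ⟨c, rfl⟩ := rep c
    obtain ⟨d, rfl⟩ := rep d
    simp [pr_coe, ap_coe]

lemma IsFn.comp {M : Set H} (hM : Good M) {f g : H → H} (hf : IsFn M f) (hg : IsFn M g) :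
    IsFn M (fun x => f (g x)) := by
  obtain ⟨F, hF, c, hc, h⟩ := hf
  have h1 : (fun x => f (g x)) = fun x => Cads.ap F (Cads.pr c (g x)) := by
    funext x
    rw [h]
  rw [h1]
  exact ((IsFn.const hc).pr hM hg).ap hF

lemma IsFn.add {M : Set H} (hM : Good M) {f g : H → H} (hf : IsFn M f) (hg : IsFn M g) :
    IsFn M (fun x => f x + g x) := by
  have h1 : (fun x => f x + g x) = fun x => Cads.ap oAdd (Cads.pr (f x) (g x)) := by
    funext x
    rw [ap_oAdd]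
  rw [h1]
  exact (hf.pr hM hg).ap FF.oAdd

lemma IsFn.mul {M : Set H} (hM : Good M) {f g : H → H} (hf : IsFn M f) (hg : IsFn M g) :
    IsFn M (fun x => f x * g x) := by
  have h1 : (fun x => f x * g x) = fun x => Cads.ap oMul (Cads.pr (f x) (g x)) := by
    funext x
    rw [ap_oMul]
  rw [h1]
  exact (hf.pr hM hg).ap FF.oMul

lemma IsFn.q1 {M : Set H} (hM : Good M) : IsFn M (fun x => Cads.ap Cads.q1 x) :=
  (IsFn.id hM).ap FF.q1

lemma IsFn.q2 {M : Set H} (hM : Good M) : IsFn M (fun x => Cads.ap Cads.q2 x) :=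
  (IsFn.id hM).ap FF.q2

lemma IsFn.mem {M : Set H} (hM : Good M) {f : H → H} (hf : IsFn M f) {x : H} (hx : x ∈ M) :
    f x ∈ M := by
  obtain ⟨F, hF, c, hc, h⟩ := hf
  rw [h]
  exact hM.ap hF (hM.pr hc hx)

lemma IsFn.memMb {M : Set H} (hM : Good M) {f : H → H} (hf : IsFn M f) {x : H} (hx : x ∈ Mb) :
    f x ∈ Mb := by
  obtain ⟨F, hF, c, hc, h⟩ := hf
  rw [h]
  exact Mb_ap hF (Mb_pr (hM.sub hc) hx)

/-! ### Closure properties -/

lemma mono_oDec (F : ℕ → ℕ) : Mono (oDec F) := by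
  intro p x w w' s _ h
  simpa [oDec] using h

lemma IsSg.dec {M W : Set H} {F : ℕ → ℕ} (hF : FF F) {c : H} (hc : c ∈ M) :
    IsSg M W (fun x => Germ.LiftPred (fun t => F t = 1) (Cads.pr c x)) := by
  refine ⟨oDec F, FF.oDec hF, mono_oDec F, c, hc, ?_⟩
  intro x _
  constructor
  · intro h
    refine ⟨0, ((fun _ => cd ∅ : ℕ → ℕ) : H), Mb_zero, ?_, ?_⟩
    · intro y
      obtain ⟨y, rfl⟩ := rep y
      rw [mem_coe, zero_coe, lt_coe]
      constructor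
      · intro h5
        exact (ev_false (h5.mono fun i hi => by simp at hi)).elim
      · rintro ⟨h5, _⟩
        exact (ev_false (h5.mono fun i hi => by omega)).elim
    · obtain ⟨x, rfl⟩ := rep x
      obtain ⟨c, rfl⟩ := rep c
      rw [zero_coe, T4_coe]
      simp only [oDec, hol_mk]
      exact h
  · rintro ⟨w, s, _, _, h⟩
    obtain ⟨x, rfl⟩ := rep x
    obtain ⟨c, rfl⟩ := rep c
    obtain ⟨w, rfl⟩ := rep w
    obtain ⟨s, rfl⟩ := rep s
    rw [T4_coe] at h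
    simp only [oDec, hol_mk] at h
    exact h

lemma IsD.dec {M W : Set H} {F : ℕ → ℕ} (hF : FF F) {c : H} (hc : c ∈ M) :
    IsD M W (fun x => Germ.LiftPred (fun t => F t = 1) (Cads.pr c x)) := by
  refine ⟨IsSg.dec hF hc, ?_⟩
  refine (IsSg.dec (FF.oNot hF) hc).congr ?_
  intro x _
  obtain ⟨x, rfl⟩ := rep x
  obtain ⟨c, rfl⟩ := rep c
  beta_reduce
  rw [pr_coe, Germ.liftPred_coe, Germ.liftPred_coe, ev_not]
  simp [oNot]

lemma IsD.lt {M W : Set H} (hM : Good M) {f g : H → H} (hf : IsFn M f) (hg : IsFn M g) :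
    IsD M W (fun x => f x < g x) := by
  obtain ⟨F, hF, c, hc, h⟩ := hf.pr hM hg
  refine (IsD.dec (FF.comp FF.oLt hF) hc).congr ?_
  intro x _
  beta_reduce at h ⊢
  have h2 : f x < g x ↔ Germ.LiftPred (fun t => oLt t = 1) (Cads.pr (f x) (g x)) := by
    generalize f x = u
    generalize g x = v
    obtain ⟨u, rfl⟩ := rep u
    obtain ⟨v, rfl⟩ := rep v
    rw [pr_coe, Germ.liftPred_coe, lt_coe]
    simp [oLt]
  rw [h2, h]
  generalize Cads.pr c x = u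
  obtain ⟨u, rfl⟩ := rep u
  rfl

lemma IsD.eq {M W : Set H} (hM : Good M) {f g : H → H} (hf : IsFn M f) (hg : IsFn M g) :
    IsD M W (fun x => f x = g x) := by
  obtain ⟨F, hF, c, hc, h⟩ := hf.pr hM hg
  refine (IsD.dec (FF.comp FF.oEq hF) hc).congr ?_
  intro x _
  beta_reduce at h ⊢
  have h2 : f x = g x ↔ Germ.LiftPred (fun t => oEq t = 1) (Cads.pr (f x) (g x)) := by
    generalize f x = u
    generalize g x = v
    obtain ⟨u, rfl⟩ := rep u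
    obtain ⟨v, rfl⟩ := rep v
    rw [pr_coe, Germ.liftPred_coe, eq_coe]
    simp [oEq]
  rw [h2, h]
  generalize Cads.pr c x = u
  obtain ⟨u, rfl⟩ := rep u
  rfl

lemma IsD.mem {M W : Set H} (hM : Good M) {f g : H → H} (hf : IsFn M f) (hg : IsFn M g) :
    IsD M W (fun x => mem (f x) (g x)) := by
  obtain ⟨F, hF, c, hc, h⟩ := hf.pr hM hg
  refine (IsD.dec (FF.comp FF.oMem hF) hc).congr ?_
  intro x _
  beta_reduce at h ⊢
  have h2 : Cads.mem (f x) (g x) ↔ Germ.LiftPred (fun t => oMem t = 1) (Cads.pr (f x) (g x)) := by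
    generalize f x = u
    generalize g x = v
    obtain ⟨u, rfl⟩ := rep u
    obtain ⟨v, rfl⟩ := rep v
    rw [pr_coe, Germ.liftPred_coe, mem_coe]
    simp [oMem]
  rw [h2, h]
  generalize Cads.pr c x = u
  obtain ⟨u, rfl⟩ := rep u
  rfl

lemma mono_oAnd {T T' : ℕ → ℕ} (h : Mono T) (h' : Mono T') : Mono (oAnd T T') := by
  intro p x w w' s hw h1
  simp only [oAnd, hol_mk] at h1 ⊢
  exact ⟨h _ _ _ _ _ hw h1.1, h' _ _ _ _ _ hw h1.2⟩

lemma mono_oOr {T T' : ℕ → ℕ} (h : Mono T) (h' : Mono T') : Mono (oOr T T') := by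
  intro p x w w' s hw h1
  simp only [oOr, hol_mk] at h1 ⊢
  exact h1.imp (h _ _ _ _ _ hw) (h' _ _ _ _ _ hw)

lemma T4_oAnd (T T' : ℕ → ℕ) (p p' x w s : H) :
    T4 (oAnd T T') (pr p p') x w s ↔ T4 T p x w s ∧ T4 T' p' x w s := by
  obtain ⟨p, rfl⟩ := rep p
  obtain ⟨p', rfl⟩ := rep p'
  obtain ⟨x, rfl⟩ := rep x
  obtain ⟨w, rfl⟩ := rep w
  obtain ⟨s, rfl⟩ := rep s
  rw [pr_coe, T4_coe, T4_coe, T4_coe, ← eventually_and]
  simp [oAnd]

lemma T4_oOr (T T' : ℕ → ℕ) (p p' x w s : H) :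
    T4 (oOr T T') (pr p p') x w s ↔ T4 T p x w s ∨ T4 T' p' x w s := by
  obtain ⟨p, rfl⟩ := rep p
  obtain ⟨p', rfl⟩ := rep p'
  obtain ⟨x, rfl⟩ := rep x
  obtain ⟨w, rfl⟩ := rep w
  obtain ⟨s, rfl⟩ := rep s
  rw [pr_coe, T4_coe, T4_coe, T4_coe, ← ev_or]
  simp [oOr]

lemma Mb_max {x y : H} (hx : x ∈ Mb) (hy : y ∈ Mb) : max x y ∈ Mb := by
  rcases max_choice x y with h | h <;> rw [h] <;> assumption

lemma IsSg.and {M W : Set H} (hM : Good M) (hW : Am W) {ρ σ : H → Prop} (h : IsSg M W ρ)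
    (h' : IsSg M W σ) : IsSg M W (fun x => ρ x ∧ σ x) := by
  obtain ⟨T, hT, hm, p, hp, h1⟩ := h
  obtain ⟨T', hT', hm', p', hp', h1'⟩ := h'
  refine ⟨oAnd T T', FF.oAnd hT hT', mono_oAnd hm hm', pr p p', hM.pr hp hp', ?_⟩
  intro x hx
  beta_reduce
  rw [h1 x hx, h1' x hx]
  constructor
  · rintro ⟨h2, h3⟩
    obtain ⟨w, hw, h4⟩ := Sg_lift hm h2
    obtain ⟨w', hw', h4'⟩ := Sg_lift hm' h3
    obtain ⟨s, hs⟩ := hW _ (Mb_max hw hw')
    refine ⟨_, s, Mb_max hw hw', hs, ?_⟩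
    rw [T4_oAnd]
    exact ⟨h4 _ (Mb_max hw hw') (le_max_left _ _) _ hs,
      h4' _ (Mb_max hw hw') (le_max_right _ _) _ hs⟩
  · rintro ⟨w, s, hw, hs, h4⟩
    rw [T4_oAnd] at h4
    exact ⟨⟨w, s, hw, hs, h4.1⟩, ⟨w, s, hw, hs, h4.2⟩⟩

lemma IsSg.or {M W : Set H} (hM : Good M) {ρ σ : H → Prop} (h : IsSg M W ρ)
    (h' : IsSg M W σ) : IsSg M W (fun x => ρ x ∨ σ x) := by
  obtain ⟨T, hT, hm, p, hp, h1⟩ := h
  obtain ⟨T', hT', hm', p', hp', h1'⟩ := h'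
  refine ⟨oOr T T', FF.oOr hT hT', mono_oOr hm hm', pr p p', hM.pr hp hp', ?_⟩
  intro x hx
  beta_reduce
  rw [h1 x hx, h1' x hx]
  constructor
  · rintro (⟨w, s, hw, hs, h4⟩ | ⟨w, s, hw, hs, h4⟩)
    · exact ⟨w, s, hw, hs, (T4_oOr _ _ _ _ _ _ _).2 (Or.inl h4)⟩
    · exact ⟨w, s, hw, hs, (T4_oOr _ _ _ _ _ _ _).2 (Or.inr h4)⟩
  · rintro ⟨w, s, hw, hs, h4⟩
    rw [T4_oOr] at h4
    rcases h4 with h4 | h4
    · exact Or.inl ⟨w, s, hw, hs, h4⟩
    · exact Or.inr ⟨w, s, hw, hs, h4⟩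

lemma IsD.and {M W : Set H} (hM : Good M) (hW : Am W) {ρ σ : H → Prop} (h : IsD M W ρ)
    (h' : IsD M W σ) : IsD M W (fun x => ρ x ∧ σ x) :=
  ⟨h.1.and hM hW h'.1, (h.2.or hM h'.2).congr fun x _ => by tauto⟩

lemma IsD.or {M W : Set H} (hM : Good M) (hW : Am W) {ρ σ : H → Prop} (h : IsD M W ρ)
    (h' : IsD M W σ) : IsD M W (fun x => ρ x ∨ σ x) :=
  ⟨h.1.or hM h'.1, (h.2.and hM hW h'.2).congr fun x _ => by tauto⟩

lemma IsD.imp {M W : Set H} (hM : Good M) (hW : Am W) {ρ σ : H → Prop} (h : IsD M W ρ)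
    (h' : IsD M W σ) : IsD M W (fun x => ρ x → σ x) :=
  (h.not.or hM hW h').congr fun x _ => by tauto

lemma mono_oEx {T : ℕ → ℕ} (h : Mono T) : Mono (oEx T) := by
  intro p x w w' s hw h1
  simp only [oEx, hol_mk] at h1 ⊢
  obtain ⟨y, hy, h2⟩ := h1
  exact ⟨y, hy.trans hw, h _ _ _ _ _ hw h2⟩

lemma T4_oEx (T : ℕ → ℕ) (p x w s : H) :
    T4 (oEx T) p x w s ↔ ∃ y, y ≤ w ∧ T4 T p (pr x y) w s := by
  obtain ⟨p, rfl⟩ := rep p
  obtain ⟨x, rfl⟩ := rep x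
  obtain ⟨w, rfl⟩ := rep w
  obtain ⟨s, rfl⟩ := rep s
  rw [T4_coe]
  simp only [oEx, hol_mk]
  constructor
  · intro h
    obtain ⟨y, hy⟩ := ev_exists h
    rw [eventually_and] at hy
    exact ⟨(y : H), (le_coe _ _).2 hy.1, hy.2⟩
  · rintro ⟨y, h1, h2⟩
    obtain ⟨y, rfl⟩ := rep y
    rw [le_coe] at h1
    rw [pr_coe, T4_coe] at h2
    filter_upwards [h1, h2] with i h3 h4
    exact ⟨y i, h3, h4⟩

lemma IsSg.ex {M W : Set H} (hW : Am W) {ρ : H → H → Prop}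
    (h : IsSg M W (fun t => ρ (ap q1 t) (ap q2 t))) :
    IsSg M W (fun x => ∃ y ∈ Mb, ρ x y) := by
  obtain ⟨T, hT, hm, p, hp, h1⟩ := h
  refine ⟨oEx T, FF.oEx hT, mono_oEx hm, p, hp, ?_⟩
  intro x hx
  constructor
  · rintro ⟨y, hy, h2⟩
    have h3 := h1 (pr x y) (Mb_pr hx hy)
    beta_reduce at h3
    rw [ap_q1, ap_q2] at h3
    rw [h3] at h2
    obtain ⟨w, hw, h4⟩ := Sg_lift hm h2
    obtain ⟨s, hs⟩ := hW _ (Mb_max hw hy)
    refine ⟨_, s, Mb_max hw hy, hs, ?_⟩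
    rw [T4_oEx]
    exact ⟨y, le_max_right _ _, h4 _ (Mb_max hw hy) (le_max_left _ _) _ hs⟩
  · rintro ⟨w, s, hw, hs, h4⟩
    rw [T4_oEx] at h4
    obtain ⟨y, hy, h5⟩ := h4
    have hy' := Mb_le hy hw
    refine ⟨y, hy', ?_⟩
    have h3 := h1 (pr x y) (Mb_pr hx hy')
    beta_reduce at h3
    rw [ap_q1, ap_q2] at h3
    rw [h3]
    exact ⟨w, s, hw, hs, h5⟩

lemma mono_oComp {T F : ℕ → ℕ} (h : Mono T) : Mono (oComp T F) := by
  intro p x w w' s hw h1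
  simp only [oComp, hol_mk] at h1 ⊢
  exact h _ _ _ _ _ hw h1

lemma T4_oComp (T F : ℕ → ℕ) (p c x w s : H) :
    T4 (oComp T F) (pr c p) x w s ↔ T4 T p (ap F (pr c x)) w s := by
  obtain ⟨p, rfl⟩ := rep p
  obtain ⟨c, rfl⟩ := rep c
  obtain ⟨x, rfl⟩ := rep x
  obtain ⟨w, rfl⟩ := rep w
  obtain ⟨s, rfl⟩ := rep s
  rw [pr_coe, pr_coe, ap_coe, T4_coe, T4_coe]
  simp [oComp]

lemma IsSg.comp {M W : Set H} (hM : Good M) {ρ : H → Prop} (h : IsSg M W ρ) {f : H → H}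
    (hf : IsFn M f) : IsSg M W (fun x => ρ (f x)) := by
  obtain ⟨T, hT, hm, p, hp, h1⟩ := h
  have hf' := hf
  obtain ⟨F, hF, c, hc, h2⟩ := hf
  refine ⟨oComp T F, FF.oComp hT hF, mono_oComp hm, pr c p, hM.pr hc hp, ?_⟩
  intro x hx
  beta_reduce
  rw [h1 (f x) (hf'.memMb hM hx)]
  unfold Sg
  simp only [T4_oComp, h2]

lemma IsD.comp {M W : Set H} (hM : Good M) {ρ : H → Prop} (h : IsD M W ρ) {f : H → H}
    (hf : IsFn M f) : IsD M W (fun x => ρ (f x)) :=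
  ⟨h.1.comp hM hf, h.2.comp hM hf⟩

lemma mono_oBall {T F : ℕ → ℕ} (h : Mono T) : Mono (oBall T F) := by
  intro p x w w' s hw h1
  simp only [oBall, hol_mk] at h1 ⊢
  intro y hy
  exact h _ _ _ _ _ hw (h1 y hy)

lemma T4_oBall (T F : ℕ → ℕ) (p c x w s : H) :
    T4 (oBall T F) (pr c p) x w s ↔ ∀ y, y < ap F (pr c x) → T4 T p (pr x y) w s := by
  obtain ⟨p, rfl⟩ := rep p
  obtain ⟨c, rfl⟩ := rep c
  obtain ⟨x, rfl⟩ := rep x
  obtain ⟨w, rfl⟩ := rep w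
  obtain ⟨s, rfl⟩ := rep s
  rw [pr_coe, pr_coe, ap_coe, T4_coe]
  simp only [oBall, hol_mk, q1_pair, q2_pair]
  constructor
  · intro h y hy
    obtain ⟨y, rfl⟩ := rep y
    rw [lt_coe] at hy
    rw [pr_coe, T4_coe]
    filter_upwards [h, hy] with i h1 h2
    exact h1 _ h2
  · intro h
    apply ev_forall
    intro y
    apply ev_imp
    intro hy
    have h2 := h (y : H) ((lt_coe _ _).2 hy)
    rw [pr_coe, T4_coe] at h2
    exact h2

/-- Bounded `Σ₁` sets are coded. -/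
lemma IsSg.code {M W : Set H} (hI : Ind M W) (hM : Good M) {ρ : H → Prop} (h : IsSg M W ρ)
    {z : H} (hz : z ∈ M) : ∃ D ∈ M, ∀ x, mem x D ↔ x < z ∧ ρ x := by
  obtain ⟨T, hT, hm, p, hp, h1⟩ := h
  obtain ⟨D, hD, e, _, s, _, _, h2⟩ := hI.bd T hT hm p hp z hz
  refine ⟨D, hD, fun x => ?_⟩
  rw [(h2 x).1]
  constructor
  · rintro ⟨h3, h4⟩
    exact ⟨h3, (h1 x (Mb_le h3.le (hM.sub hz))).2 h4⟩
  · rintro ⟨h3, h4⟩
    exact ⟨h3, (h1 x (Mb_le h3.le (hM.sub hz))).1 h4⟩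

lemma pr_le_oSq {x y z : H} (h : x + y ≤ z) : pr x y < ap oSq z := by
  obtain ⟨x, rfl⟩ := rep x
  obtain ⟨y, rfl⟩ := rep y
  obtain ⟨z, rfl⟩ := rep z
  rw [add_coe, le_coe] at h
  rw [pr_coe, ap_coe, lt_coe]
  filter_upwards [h] with i hi
  have h := Nat.pair_lt_max_add_one_sq (x i) (y i)
  have h2 : max (x i) (y i) + 1 ≤ z i + 1 := by omega
  have h3 := Nat.pow_le_pow_left h2 2
  simp only [oSq]
  omega

lemma IsSg.ball {M W : Set H} (hM : Good M) (hI : Ind M W) {ρ : H → H → Prop}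
    (h : IsSg M W (fun t => ρ (ap q1 t) (ap q2 t))) {f : H → H} (hf : IsFn M f) :
    IsSg M W (fun x => ∀ y, y < f x → ρ x y) := by
  obtain ⟨T, hT, hm, p, hp, h1⟩ := h
  have hf' := hf
  obtain ⟨F, hF, c, hc, h2⟩ := hf
  refine ⟨oBall T F, FF.oBall hT hF, mono_oBall hm, pr c p, hM.pr hc hp, ?_⟩
  intro x hx
  have hfx := hf'.memMb hM hx
  constructor
  · intro h3
    obtain ⟨z, hz, hz1⟩ := hM.cof (Mb_add hx hfx)
    obtain ⟨D, hD, e, he, s, hs, hes, h4⟩ := hI.bd T hT hm p hp _ (hM.ap FF.oSq hz)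
    refine ⟨e, s, hM.sub he, hes, ?_⟩
    rw [T4_oBall, ← h2]
    intro y hy
    have hy' : y ∈ Mb := Mb_le hy.le hfx
    have h5 := h1 (pr x y) (Mb_pr hx hy')
    beta_reduce at h5
    rw [ap_q1, ap_q2] at h5
    apply (h4 _).2
    rw [(h4 _).1]
    refine ⟨pr_le_oSq ?_, h5.1 (h3 y hy)⟩
    exact le_trans (by gcongr) hz1
  · rintro ⟨w, s, hw, hs, h4⟩ y hy
    rw [T4_oBall, ← h2] at h4
    have hy' : y ∈ Mb := Mb_le hy.le hfx
    have h5 := h1 (pr x y) (Mb_pr hx hy')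
    beta_reduce at h5
    rw [ap_q1, ap_q2] at h5
    rw [h5]
    exact ⟨w, s, hw, hs, h4 y hy⟩

/-- Bounded existential quantification. -/
lemma IsSg.bex {M W : Set H} (hM : Good M) (hW : Am W) {ρ : H → H → Prop}
    (h : IsSg M W (fun t => ρ (ap q1 t) (ap q2 t))) {f : H → H} (hf : IsFn M f) :
    IsSg M W (fun x => ∃ y, y < f x ∧ ρ x y) := by
  have h1 : IsSg M W (fun t => ap q2 t < f (ap q1 t) ∧ ρ (ap q1 t) (ap q2 t)) :=
    IsSg.and hM hW (IsD.lt hM (IsFn.q2 hM) (hf.comp hM (IsFn.q1 hM))).1 h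
  refine (IsSg.ex (ρ := fun x y => y < f x ∧ ρ x y) hW h1).congr ?_
  intro x hx
  constructor
  · rintro ⟨y, _, h2⟩
    exact ⟨y, h2⟩
  · rintro ⟨y, h2⟩
    exact ⟨y, Mb_le h2.1.le (hf.memMb hM hx), h2⟩

lemma IsD.ball {M W : Set H} (hM : Good M) (hI : Ind M W) {ρ : H → H → Prop}
    (h : IsD M W (fun t => ρ (ap q1 t) (ap q2 t))) {f : H → H} (hf : IsFn M f) :
    IsD M W (fun x => ∀ y, y < f x → ρ x y) := by
  refine ⟨h.1.ball hM hI hf, ?_⟩
  refine (IsSg.bex (ρ := fun x y => ¬ ρ x y) hM (hI.Am hM) h.2 hf).congr ?_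
  intro x _
  push Not
  rfl

lemma mono_oPos : Mono oPos := by
  intro p x w w' s hw h1
  simp only [oPos, hol_mk, mem_rs] at h1 ⊢
  exact ⟨by omega, h1.2.1⟩

lemma mono_oNeg : Mono oNeg := by
  intro p x w w' s hw h1
  simp only [oNeg, hol_mk, mem_rs] at h1 ⊢
  refine ⟨by omega, fun h => h1.2 ⟨h, h1.1⟩⟩

/-- The oracle is `Δ₁`. -/
lemma IsD.oracle {M W : Set H} (hM : Good M) (hW : Am W) : IsD M W (fun x => x ∈ W) := by
  constructor
  · refine ⟨oPos, FF.oPos, mono_oPos, _, hM.bb, ?_⟩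
    intro x hx
    constructor
    · intro h
      obtain ⟨s, hs⟩ := hW _ (Mb_add hx Mb_one)
      refine ⟨_, s, Mb_add hx Mb_one, hs, ?_⟩
      have h2 := (hs x).2 ⟨lt_add_one x, h⟩
      have h3 : x < x + 1 := lt_add_one x
      generalize x + 1 = y at h3
      clear hs h hx
      obtain ⟨x, rfl⟩ := rep x
      obtain ⟨s, rfl⟩ := rep s
      obtain ⟨y, rfl⟩ := rep y
      rw [mem_coe] at h2
      rw [lt_coe] at h3
      unfold bb
      rw [T4_coe]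
      simp only [oPos, hol_mk]
      filter_upwards [h2, h3] with i h4 h5
      exact ⟨h5, h4⟩
    · rintro ⟨w, s, hw, hs, h4⟩
      refine ((hs x).1 ?_).2
      clear hs hw hx
      obtain ⟨x, rfl⟩ := rep x
      obtain ⟨s, rfl⟩ := rep s
      obtain ⟨w, rfl⟩ := rep w
      unfold bb at h4
      rw [T4_coe] at h4
      simp only [oPos, hol_mk] at h4
      rw [mem_coe]
      filter_upwards [h4] with i h5
      exact h5.2
  · refine ⟨oNeg, FF.oNeg, mono_oNeg, _, hM.bb, ?_⟩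
    intro x hx
    constructor
    · intro h
      obtain ⟨s, hs⟩ := hW _ (Mb_add hx Mb_one)
      refine ⟨_, s, Mb_add hx Mb_one, hs, ?_⟩
      have h2 : ¬ Cads.mem x s := fun h6 => h ((hs x).1 h6).2
      have h3 : x < x + 1 := lt_add_one x
      generalize x + 1 = y at h3
      clear hs h hx
      obtain ⟨x, rfl⟩ := rep x
      obtain ⟨s, rfl⟩ := rep s
      obtain ⟨y, rfl⟩ := rep y
      rw [mem_coe, ev_not] at h2
      rw [lt_coe] at h3
      unfold bb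
      rw [T4_coe]
      simp only [oNeg, hol_mk]
      filter_upwards [h2, h3] with i h4 h5
      exact ⟨h5, h4⟩
    · rintro ⟨w, s, hw, hs, h4⟩
      have h6 : x < w ∧ ¬ Cads.mem x s := by
        clear hs hw hx
        obtain ⟨x, rfl⟩ := rep x
        obtain ⟨s, rfl⟩ := rep s
        obtain ⟨w, rfl⟩ := rep w
        unfold bb at h4
        rw [T4_coe] at h4
        simp only [oNeg, hol_mk] at h4
        rw [mem_coe, lt_coe, ev_not, ← eventually_and]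
        exact h4
      intro h7
      exact h6.2 ((hs x).2 ⟨h6.1, h7⟩)

/-! ### Elementarity -/

lemma exists_least {M : Set H} (hM : Good M) {D : H} (hD : D ∈ M) (h : ∃ x, mem x D) :
    ∃ x ∈ M, mem x D ∧ ∀ y, mem y D → x ≤ y := by
  refine ⟨ap oMin D, hM.ap FF.oMin hD, ?_⟩
  obtain ⟨x, hx⟩ := h
  clear hD
  obtain ⟨D, rfl⟩ := rep D
  obtain ⟨x, rfl⟩ := rep x
  rw [ap_coe, mem_coe]
  rw [mem_coe] at hx
  constructor
  · filter_upwards [hx] with i hi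
    have h : (fs (D i)).Nonempty := ⟨_, hi⟩
    simp only [oMin, h, dite_true]
    exact Finset.min'_mem _ _
  · intro y hy
    obtain ⟨y, rfl⟩ := rep y
    rw [mem_coe] at hy
    rw [le_coe]
    filter_upwards [hy] with i hi
    have h : (fs (D i)).Nonempty := ⟨_, hi⟩
    simp only [oMin, h, dite_true]
    exact Finset.min'_le _ _ hi

lemma exists_greatest {M : Set H} (hM : Good M) {D : H} (hD : D ∈ M) (h : ∃ x, mem x D) :
    ∃ x ∈ M, mem x D ∧ ∀ y, mem y D → y ≤ x := by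
  refine ⟨ap oMaxS D, hM.ap FF.oMaxS hD, ?_⟩
  obtain ⟨x, hx⟩ := h
  clear hD
  obtain ⟨D, rfl⟩ := rep D
  obtain ⟨x, rfl⟩ := rep x
  rw [ap_coe, mem_coe]
  rw [mem_coe] at hx
  constructor
  · filter_upwards [hx] with i hi
    have h : (fs (D i)).Nonempty := ⟨_, hi⟩
    simp only [oMaxS, h, dite_true]
    exact Finset.max'_mem _ _
  · intro y hy
    obtain ⟨y, rfl⟩ := rep y
    rw [mem_coe] at hy
    rw [le_coe]
    filter_upwards [hy] with i hi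
    have h : (fs (D i)).Nonempty := ⟨_, hi⟩
    simp only [oMaxS, h, dite_true]
    exact Finset.le_max' _ _ hi

/-- A nonempty `Σ₁` set has an element in `M`. -/
lemma IsSg.wit {M W : Set H} (hM : Good M) (hI : Ind M W) {ρ : H → Prop} (h : IsSg M W ρ)
    {x : H} (hx : x ∈ Mb) (h' : ρ x) : ∃ y ∈ M, ρ y := by
  obtain ⟨z, hz, hxz⟩ := hM.cof_lt hx
  obtain ⟨D, hD, h1⟩ := h.code hI hM hz
  obtain ⟨y, hy, h2, _⟩ := exists_least hM hD ⟨x, (h1 x).2 ⟨hxz, h'⟩⟩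
  exact ⟨y, hy, ((h1 y).1 h2).2⟩

lemma IsD.transfer {M W : Set H} (hM : Good M) (hI : Ind M W) {ρ : H → Prop}
    (h : IsD M W ρ) (h' : ∀ x ∈ M, ρ x) : ∀ x ∈ Mb, ρ x := by
  intro x hx
  by_contra hc
  obtain ⟨y, hy, h1⟩ := h.2.wit hM hI hx hc
  exact h1 (h' y hy)

/-- Truth of a `Σ₁` property transfers from `M` to the cut. -/
lemma IsSg.transfer {M W : Set H} (hM : Good M) (hI : Ind M W) {ρ : H → Prop}
    (h : IsSg M W ρ) (h' : ∀ x ∈ M, ρ x) : ∀ x ∈ Mb, ρ x := by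
  intro x hx
  by_contra hc
  obtain ⟨z, hz, hxz⟩ := hM.cof_lt hx
  obtain ⟨D, hD, h1⟩ := h.code hI hM hz
  have h2 : IsSg M W (fun y => y < z ∧ ¬ mem y D) :=
    IsSg.and hM (hI.Am hM) (IsD.lt hM (IsFn.id hM) (IsFn.const hz)).1
      (IsD.mem hM (IsFn.id hM) (IsFn.const hD)).2
  obtain ⟨y, hy, h3, h4⟩ := h2.wit hM hI hx ⟨hxz, fun h5 => hc ((h1 x).1 h5).2⟩
  exact h4 ((h1 y).2 ⟨h3, h' y hy⟩)

/-- The least element of a nonempty `Δ₁` (or even `Σ₁`) set. -/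
lemma IsSg.least {M W : Set H} (hM : Good M) (hI : Ind M W) {ρ : H → Prop} (h : IsSg M W ρ)
    {x : H} (hx : x ∈ Mb) (h' : ρ x) : ∃ y ∈ M, ρ y ∧ ∀ z, ρ z → y ≤ z := by
  obtain ⟨z, hz, hxz⟩ := hM.cof_lt hx
  obtain ⟨D, hD, h1⟩ := h.code hI hM hz
  obtain ⟨y, hy, h2, h3⟩ := exists_least hM hD ⟨x, (h1 x).2 ⟨hxz, h'⟩⟩
  refine ⟨y, hy, ((h1 y).1 h2).2, ?_⟩
  intro u hu
  by_contra hc
  push Not at hc
  exact absurd (h3 u ((h1 u).2 ⟨hc.trans ((h1 y).1 h2).1, hu⟩)) (not_le.2 hc)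

/-! ### Joins -/

/-- The join of two oracles. -/
def jn (W X : Set H) : Set H := {x | (∃ y ∈ W, x = y + y) ∨ ∃ y ∈ X, x = y + y + 1}

lemma mem_jn_even (W X : Set H) (y : H) : y + y ∈ jn W X ↔ y ∈ W := by
  constructor
  · rintro (⟨z, hz, h⟩ | ⟨z, hz, h⟩)
    · have h2 : y = z := by
        clear hz
        obtain ⟨y, rfl⟩ := rep y
        obtain ⟨z, rfl⟩ := rep z
        rw [add_coe, add_coe, eq_coe] at h
        rw [eq_coe]
        filter_upwards [h] with i hi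
        omega
      rw [h2]
      exact hz
    · exfalso
      clear hz
      obtain ⟨y, rfl⟩ := rep y
      obtain ⟨z, rfl⟩ := rep z
      rw [add_coe, add_coe, one_coe, add_coe, eq_coe] at h
      exact ev_false (h.mono fun i hi => by omega)
  · intro h
    exact Or.inl ⟨y, h, rfl⟩

lemma mem_jn_odd (W X : Set H) (y : H) : y + y + 1 ∈ jn W X ↔ y ∈ X := by
  constructor
  · rintro (⟨z, hz, h⟩ | ⟨z, hz, h⟩)
    · exfalso
      clear hz
      obtain ⟨y, rfl⟩ := rep y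
      obtain ⟨z, rfl⟩ := rep z
      rw [add_coe, add_coe, one_coe, add_coe, eq_coe] at h
      exact ev_false (h.mono fun i hi => by omega)
    · have h2 : y = z := by
        clear hz
        obtain ⟨y, rfl⟩ := rep y
        obtain ⟨z, rfl⟩ := rep z
        rw [add_coe, add_coe, one_coe, add_coe, add_coe, eq_coe] at h
        rw [eq_coe]
        filter_upwards [h] with i hi
        omega
      rw [h2]
      exact hz
  · intro h
    exact Or.inr ⟨y, h, rfl⟩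

/-- Join of coded sets. -/
def jcH (h u v : H) : H := ap oJc (pr h (pr u v))

lemma mem_jcH (x h u v : H) : mem x (jcH h u v) ↔ (∃ y, y < h ∧ mem y u ∧ x = y + y) ∨
    ∃ y, y < h ∧ mem y v ∧ x = y + y + 1 := by
  obtain ⟨x, rfl⟩ := rep x
  obtain ⟨h, rfl⟩ := rep h
  obtain ⟨u, rfl⟩ := rep u
  obtain ⟨v, rfl⟩ := rep v
  rw [jcH, pr_coe, pr_coe, ap_coe, mem_coe]
  simp only [oJc, q1_pair, q2_pair, jc, mem_cf]
  constructor
  · intro h1
    have h2 : (∀ᶠ i in U, x i / 2 < h i ∧ x i % 2 = 0 ∧ x i / 2 ∈ fs (u i)) ∨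
        ∀ᶠ i in U, x i / 2 < h i ∧ x i % 2 = 1 ∧ x i / 2 ∈ fs (v i) := by
      rw [← ev_or]
      filter_upwards [h1] with i hi
      rcases hi.2 with h3 | h3
      · left
        exact ⟨by omega, h3⟩
      · right
        exact ⟨by omega, h3⟩
    rcases h2 with h2 | h2
    · left
      refine ⟨((fun i => x i / 2 : ℕ → ℕ) : H), ?_, ?_, ?_⟩
      · rw [lt_coe]
        exact h2.mono fun i hi => hi.1
      · rw [mem_coe]
        exact h2.mono fun i hi => hi.2.2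
      · rw [add_coe, eq_coe]
        exact h2.mono fun i hi => by omega
    · right
      refine ⟨((fun i => x i / 2 : ℕ → ℕ) : H), ?_, ?_, ?_⟩
      · rw [lt_coe]
        exact h2.mono fun i hi => hi.1
      · rw [mem_coe]
        exact h2.mono fun i hi => hi.2.2
      · rw [add_coe, one_coe, add_coe, eq_coe]
        exact h2.mono fun i hi => by omega
  · rintro (⟨y, h1, h2, h3⟩ | ⟨y, h1, h2, h3⟩)
    · obtain ⟨y, rfl⟩ := rep y
      rw [lt_coe] at h1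
      rw [mem_coe] at h2
      rw [add_coe, eq_coe] at h3
      filter_upwards [h1, h2, h3] with i h4 h5 h6
      rw [h6]
      refine ⟨by omega, Or.inl ⟨by omega, ?_⟩⟩
      have h7 : (y i + y i) / 2 = y i := by omega
      rw [h7]
      exact h5
    · obtain ⟨y, rfl⟩ := rep y
      rw [lt_coe] at h1
      rw [mem_coe] at h2
      rw [add_coe, one_coe, add_coe, eq_coe] at h3
      filter_upwards [h1, h2, h3] with i h4 h5 h6
      rw [h6]
      refine ⟨by omega, Or.inr ⟨by omega, ?_⟩⟩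
      have h7 : (y i + y i + 1) / 2 = y i := by omega
      rw [h7]
      exact h5

lemma lt_of_double {x y : H} (h : x + x < y + y) : x < y := by
  by_contra hc
  push Not at hc
  exact absurd h (not_lt.2 (add_le_add hc hc))

lemma lt_of_double' {x y : H} (h : x + x + 1 < y + y) : x < y := by
  by_contra hc
  push Not at hc
  exact absurd h (not_lt.2 ((add_le_add hc hc).trans (by
    exact le_of_lt (lt_add_one _))))

lemma double_lt {x y : H} (h : x < y) : x + x < y + y := add_lt_add h h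

lemma double_lt' {x y : H} (h : x < y) : x + x + 1 < y + y := by
  obtain ⟨x, rfl⟩ := rep x
  obtain ⟨y, rfl⟩ := rep y
  rw [lt_coe] at h
  rw [add_coe, add_coe, one_coe, add_coe, lt_coe]
  filter_upwards [h] with i hi
  omega

lemma cod_jn {W X : Set H} {h u v : H} (hu : cod W h u) (hv : cod X h v) :
    cod (jn W X) (h + h) (jcH h u v) := by
  intro x
  rw [mem_jcH]
  constructor
  · rintro (⟨y, h1, h2, rfl⟩ | ⟨y, h1, h2, rfl⟩)
    · exact ⟨double_lt h1, (mem_jn_even _ _ _).2 ((hu y).1 h2).2⟩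
    · exact ⟨double_lt' h1, (mem_jn_odd _ _ _).2 ((hv y).1 h2).2⟩
  · rintro ⟨h1, (⟨y, h2, rfl⟩ | ⟨y, h2, rfl⟩)⟩
    · exact Or.inl ⟨y, lt_of_double h1, (hu y).2 ⟨lt_of_double h1, h2⟩, rfl⟩
    · exact Or.inr ⟨y, lt_of_double' h1, (hv y).2 ⟨lt_of_double' h1, h2⟩, rfl⟩

lemma mono_oLift {T : ℕ → ℕ} (h : Mono T) : Mono (oLift T) := by
  intro p x w w' s hw h1
  simp only [oLift, hol_mk] at h1 ⊢
  refine h _ _ (w / 2) _ _ (by omega) ?_
  have h2 : rs (cf (w' / 2) (fun y => 2 * y ∈ fs s)) (w / 2) =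
      cf (w / 2) (fun y => 2 * y ∈ fs (rs s w)) := by
    apply fs_inj
    ext y
    simp only [mem_rs, mem_cf]
    constructor
    · rintro ⟨⟨h3, h4⟩, h5⟩
      exact ⟨h5, h4, by omega⟩
    · rintro ⟨h3, h4, h5⟩
      exact ⟨⟨by omega, h4⟩, h3⟩
  rw [h2]
  exact h1

/-- `Σ₁` sets remain `Σ₁` when the oracle is extended. -/
lemma IsSg.lift {M W : Set H} (hW : Am W) {X : Set H} (hX : Am X) {ρ : H → Prop}
    (h : IsSg M W ρ) : IsSg M (jn W X) ρ := by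
  obtain ⟨T, hT, hm, p, hp, h1⟩ := h
  refine ⟨oLift T, FF.oLift hT, mono_oLift hm, p, hp, ?_⟩
  intro x hx
  rw [h1 x hx]
  have key : ∀ w u v : H, cod W w u → (T4 (oLift T) p x (w + w) (jcH w u v) ↔ T4 T p x w u) := by
    intro w u v hu
    have h2 : ∀ y, mem y u → y < w := fun y hy => ((hu y).1 hy).1
    clear h1 hp hx hu
    obtain ⟨x, rfl⟩ := rep x
    obtain ⟨p, rfl⟩ := rep p
    obtain ⟨w, rfl⟩ := rep w
    obtain ⟨u, rfl⟩ := rep u
    obtain ⟨v, rfl⟩ := rep v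
    have h3 : ∀ᶠ i in U, ∀ y, y ∈ fs (u i) → y < w i := by
      apply ev_forall
      intro y
      apply ev_imp
      intro hy
      exact (lt_coe _ _).1 (h2 (y : H) hy)
    rw [jcH, pr_coe, pr_coe, ap_coe, add_coe, T4_coe, T4_coe]
    have h5 : ∀ᶠ i in U, (Hol (oLift T) (p i) (x i) (w i + w i)
        (oJc (Nat.pair (w i) (Nat.pair (u i) (v i)))) ↔ Hol T (p i) (x i) (w i) (u i)) := by
      filter_upwards [h3] with i hi
      simp only [oLift, hol_mk, oJc, q1_pair, q2_pair]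
      have h6 : (w i + w i) / 2 = w i := by omega
      rw [h6]
      have h7 : cf (w i) (fun y => 2 * y ∈ fs (jc (w i) (u i) (v i))) = u i := by
        apply fs_inj
        ext y
        simp only [mem_cf, jc]
        constructor
        · rintro ⟨h8, h9, (h10 | h10)⟩
          · have h11 : 2 * y / 2 = y := by omega
            rw [h11] at h10
            exact h10.2
          · omega
        · intro h8
          have h9 := hi y h8
          refine ⟨h9, by omega, Or.inl ⟨by omega, ?_⟩⟩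
          have h11 : 2 * y / 2 = y := by omega
          rw [h11]
          exact h8
      rw [h7]
    constructor
    · intro h6
      filter_upwards [h5, h6] with i h7 h8
      exact h7.1 h8
    · intro h6
      filter_upwards [h5, h6] with i h7 h8
      exact h7.2 h8
  constructor
  · rintro ⟨w, u, hw, hu, h2⟩
    obtain ⟨v, hv⟩ := hX w hw
    exact ⟨w + w, jcH w u v, Mb_add hw hw, cod_jn hu hv, (key w u v hu).2 h2⟩
  · intro h2
    obtain ⟨w, hw, h3⟩ := Sg_lift (mono_oLift hm) h2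
    obtain ⟨u, hu⟩ := hW w hw
    obtain ⟨v, hv⟩ := hX w hw
    have h4 := h3 (w + w) (Mb_add hw hw) (by
      obtain ⟨w, rfl⟩ := rep w
      rw [add_coe, le_coe]
      exact Eventually.of_forall fun i => by omega) _ (cod_jn hu hv)
    exact ⟨w, u, hw, hu, (key w u v hu).1 h4⟩

lemma IsD.lift {M W : Set H} (hW : Am W) {X : Set H} (hX : Am X) {ρ : H → Prop}
    (h : IsD M W ρ) : IsD M (jn W X) ρ := ⟨h.1.lift hW hX, h.2.lift hW hX⟩

/-- The second part of a join is `Δ₁` in the join. -/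
lemma IsD.right {M W X : Set H} (hM : Good M) (hJ : Am (jn W X)) :
    IsD M (jn W X) (fun x => x ∈ X) := by
  have h := (IsD.oracle hM hJ).comp hM
    (((IsFn.id hM).add hM (IsFn.id hM)).add hM (IsFn.const hM.one))
  exact h.congr fun x _ => mem_jn_odd W X x

end

end Pool.Agent.Helper803.Cads
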