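import Pool.Agent.Helper803.Cads.Gen
import Pool.Agent.Helper803.Cads.Extend

/-!
The starting point: a generic set `X0` such that the remainders modulo `bb` of its elements
converge to a cut, and the induced colouring with bounded fibres.
-/

namespace Pool.Agent.Helper803.Cads

open Filter
open scoped Classical

noncomputable section

/-- Remainder modulo `bb`. -/
def gg (x : H) : H := ap oMod (pr x bb)

lemma gg_lt (x : H) : gg x < bb := by
  obtain ⟨x, rfl⟩ := rep x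
  unfold gg bb
  rw [pr_coe, ap_coe, lt_coe]
  filter_upwards [ev_ge 1] with i hi
  simp only [oMod, q1_pair, q2_pair]
  exact Nat.mod_lt _ hi

lemma isFn_gg {M : Set H} (hM : Good M) : IsFn M gg :=
  ((IsFn.id hM).pr hM (IsFn.const hM.bb)).ap FF.oMod

/-- Coding a binary relation below a bound. -/
lemma code2 {M W : Set H} (hM : Good M) (hI : Ind M W) {R : H → H → Prop}
    (hR : IsSg M W (fun t => R (ap q1 t) (ap q2 t))) {h : H} (hh : h ∈ M) :
    ∃ l ∈ M, ∀ x y, x < h → y < h → (mem (pr x y) l ↔ R x y) := by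
  obtain ⟨D, hD, h1⟩ := hR.code hI hM (hM.ap FF.oSq (hM.add hh hh))
  refine ⟨D, hD, fun x y hx hy => ?_⟩
  rw [h1, ap_q1, ap_q2]
  constructor
  · exact fun h => h.2
  · intro h
    exact ⟨pr_le_oSq (add_le_add hx.le hy.le), h⟩

/-- A number at nonstandard distance below another. -/
def Far (l r : H) : Prop := ∀ K : ℕ, Germ.LiftRel (fun a b => a + K ≤ b) l r

/-- The step of the interval construction. -/
lemma int_step {M : Set H} (hM : Good M) {l r : H} (hl : l ∈ M) (hr : r ∈ M) (hf : Far l r)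
    (u : H) : ∃ l' ∈ M, ∃ r' ∈ M, Far l' r' ∧ l ≤ l' ∧ r' ≤ r ∧ (u < l' ∨ r' ≤ u) := by
  have hh : ap oHalf (pr l r) ∈ M := hM.ap FF.oHalf (hM.pr hl hr)
  rcases lt_or_ge u (ap oHalf (pr l r)) with h | h
  · refine ⟨_, hh, r, hr, ?_, ?_, le_rfl, Or.inl h⟩
    · intro K
      clear h hh hl hr
      obtain ⟨l, rfl⟩ := rep l
      obtain ⟨r, rfl⟩ := rep r
      rw [pr_coe, ap_coe]
      have h1 : ∀ᶠ i in U, l i + (2 * K) ≤ r i := hf (2 * K)
      change ∀ᶠ i in U, oHalf (Nat.pair (l i) (r i)) + K ≤ r i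
      filter_upwards [h1] with i hi
      simp only [oHalf, q1_pair, q2_pair]
      omega
    · clear h hh hl hr
      obtain ⟨l, rfl⟩ := rep l
      obtain ⟨r, rfl⟩ := rep r
      rw [pr_coe, ap_coe, le_coe]
      have h1 : ∀ᶠ i in U, l i + 0 ≤ r i := hf 0
      filter_upwards [h1] with i hi
      simp only [oHalf, q1_pair, q2_pair]
      omega
  · refine ⟨l, hl, _, hh, ?_, le_rfl, ?_, Or.inr h⟩
    · intro K
      clear h hh hl hr
      obtain ⟨l, rfl⟩ := rep l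
      obtain ⟨r, rfl⟩ := rep r
      rw [pr_coe, ap_coe]
      have h1 : ∀ᶠ i in U, l i + (2 * K) ≤ r i := hf (2 * K)
      change ∀ᶠ i in U, l i + K ≤ oHalf (Nat.pair (l i) (r i))
      filter_upwards [h1] with i hi
      simp only [oHalf, q1_pair, q2_pair]
      omega
    · clear h hh hl hr
      obtain ⟨l, rfl⟩ := rep l
      obtain ⟨r, rfl⟩ := rep r
      rw [pr_coe, ap_coe, le_coe]
      have h1 : ∀ᶠ i in U, l i + 0 ≤ r i := hf 0
      filter_upwards [h1] with i hi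
      simp only [oHalf, q1_pair, q2_pair]
      omega

lemma gg_mul_add {m v : H} (hv : v < bb) : gg (m * bb + v) = v := by
  obtain ⟨m, rfl⟩ := rep m
  obtain ⟨v, rfl⟩ := rep v
  unfold gg bb at *
  rw [lt_coe] at hv
  rw [mul_coe, add_coe, pr_coe, ap_coe, eq_coe]
  filter_upwards [hv] with i hi
  simp only [oMod, q1_pair, q2_pair]
  rw [Nat.mul_comm, Nat.mul_add_mod, Nat.mod_eq_of_lt hi]

lemma le_mul_bb_add (m v : H) : m ≤ m * bb + v := by
  obtain ⟨m, rfl⟩ := rep m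
  obtain ⟨v, rfl⟩ := rep v
  unfold bb
  rw [mul_coe, add_coe, le_coe]
  filter_upwards [ev_ge 1] with i hi
  have h : m i * 1 ≤ m i * i := Nat.mul_le_mul_left _ hi
  omega

/-- Almost all elements of `X` have remainder above `u`. -/
def Lo0 (X : Set H) (u : H) : Prop := ∃ h ∈ Mb, ∀ x ∈ X, h ≤ x → u < gg x

/-- Almost all elements of `X` have remainder below `u`. -/
def Hi0 (X : Set H) (u : H) : Prop := ∃ h ∈ Mb, ∀ x ∈ X, h ≤ x → gg x < u

/-- The starting set. -/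
theorem start {M : Set H} (hM : Good M) :
    ∃ X : Set H, (∀ x ∈ X, x ∈ Mb) ∧ (∀ m ∈ M, ∃ x ∈ X, m ≤ x) ∧ Am X ∧ Ind M (jn ∅ X) ∧
      ∀ u ∈ M, u < bb → Lo0 X u ∨ Hi0 X u := by
  obtain ⟨e, he⟩ := hM.cnt.exists_eq_range ⟨0, hM.zero⟩
  let C : Type := {c : H × H // c.1 ∈ M ∧ c.2 ∈ M ∧ Far c.1 c.2 ∧ c.2 ≤ bb}
  have step : ∀ (k : ℕ) (c : C), ∃ c' : C, c.1.1 ≤ c'.1.1 ∧ c'.1.2 ≤ c.1.2 ∧
      (e k < c'.1.1 ∨ c'.1.2 ≤ e k) := by
    rintro k ⟨⟨l, r⟩, hl, hr, hf, hb⟩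
    obtain ⟨l', hl', r', hr', h1, h2, h3, h4⟩ := int_step hM hl hr hf (e k)
    exact ⟨⟨(l', r'), hl', hr', h1, h3.trans hb⟩, h2, h3, h4⟩
  choose f hf1 hf2 hf3 using step
  let c0 : C := ⟨(0, bb), hM.zero, hM.bb, by
    intro K
    unfold bb
    rw [zero_coe]
    change ∀ᶠ i in (U : Filter ℕ), 0 + K ≤ i
    filter_upwards [ev_ge K] with i hi
    omega, le_rfl⟩
  let c : ℕ → C := fun n => Nat.rec c0 (fun k r => f k r) n
  have hcs : ∀ k, c (k + 1) = f k (c k) := fun k => rfl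
  let A : ℕ → H → Prop := fun k x => ¬ gg x < (c k).1.1 ∧ gg x < (c k).1.2
  have hI := ind_empty hM
  have hA : ∀ k, IsSg M ∅ (A k) := by
    intro k
    have h1 : IsD M ∅ (fun x => gg x < (c k).1.1) :=
      IsD.lt hM (isFn_gg hM) (IsFn.const (c k).2.1)
    have h2 : IsD M ∅ (fun x => gg x < (c k).1.2) :=
      IsD.lt hM (isFn_gg hM) (IsFn.const (c k).2.2.1)
    exact h1.2.and hM (hI.Am hM) h2.1
  have hu : ∀ k, Unb M (A k) := by
    intro k m hm
    have hlt : (c k).1.1 < (c k).1.2 := by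
      have h1 := (c k).2.2.2.1 1
      generalize (c k).1.1 = l at *
      generalize (c k).1.2 = r at *
      obtain ⟨l, rfl⟩ := rep l
      obtain ⟨r, rfl⟩ := rep r
      rw [lt_coe]
      change ∀ᶠ i in U, l i + 1 ≤ r i at h1
      filter_upwards [h1] with i hi
      omega
    have hltb := hlt.trans_le (c k).2.2.2.2
    refine ⟨m * bb + (c k).1.1, hM.sub (hM.add (hM.mul hm hM.bb) (c k).2.1), le_mul_bb_add _ _, ?_⟩
    simp only [A]
    rw [gg_mul_add hltb]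
    exact ⟨lt_irrefl _, hlt⟩
  have hd : ∀ k x, A (k + 1) x → A k x := by
    intro k x hx
    simp only [A, hcs] at hx ⊢
    exact ⟨fun h => hx.1 (h.trans_le (hf1 k (c k))), hx.2.trans_le (hf2 k (c k))⟩
  obtain ⟨X, h1, h2, h3, h4, h5⟩ := generic hM hI A hA hu hd
  refine ⟨X, fun x hx => (h1 x hx).1, h2, h4, h5, ?_⟩
  intro u hu' _
  rw [he] at hu'
  obtain ⟨k, rfl⟩ := hu'
  obtain ⟨h, hh, h6⟩ := h3 (k + 1)
  have h7 := hf3 k (c k)
  rw [← hcs k] at h7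
  rcases h7 with h7 | h7
  · left
    refine ⟨h, hM.sub hh, fun x hx hx2 => ?_⟩
    exact h7.trans_le (not_lt.1 (h6 x hx hx2).1)
  · right
    refine ⟨h, hM.sub hh, fun x hx hx2 => ?_⟩
    exact (h6 x hx hx2).2.trans_le h7

/-- The colouring: `v` is the remainder of the first element of `X` from `m` on. -/
def Cr (X : Set H) (m v : H) : Prop :=
  ∃ y ∈ Mb, y ∈ X ∧ ¬ y < m ∧ (∀ z, z < y → z ∈ X → z < m) ∧ v = gg y

lemma Cr.lt {X : Set H} {m v : H} (h : Cr X m v) : v < bb := by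
  obtain ⟨y, _, _, _, _, rfl⟩ := h
  exact gg_lt y

lemma Cr.unique {X : Set H} {m v v' : H} (h : Cr X m v) (h' : Cr X m v') : v = v' := by
  obtain ⟨y, _, hy, h1, h2, rfl⟩ := h
  obtain ⟨y', _, hy', h1', h2', rfl⟩ := h'
  rcases lt_trichotomy y y' with h3 | h3 | h3
  · exact absurd (h2' y h3 hy) h1
  · rw [h3]
  · exact absurd (h2 y' h3 hy') h1'

/-- The oracle for the colouring. -/
lemma isSg_Cr {M W X : Set H} (hM : Good M) (hI : Ind M W) (hX : IsD M W (fun x => x ∈ X)) :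
    IsSg M W (fun t => Cr X (ap q1 t) (ap q2 t)) := by
  have f1 : IsFn M (fun t => ap q1 (ap q1 t)) := (IsFn.q1 hM).comp hM (IsFn.q1 hM)
  have f2 : IsFn M (fun t => ap q2 (ap q1 t)) := (IsFn.q2 hM).comp hM (IsFn.q1 hM)
  have h1 : IsSg M W (fun t => ap q2 t ∈ X) := hX.1.comp hM (IsFn.q2 hM)
  have h2 : IsSg M W (fun t => ¬ ap q2 t < ap q1 (ap q1 t)) := (IsD.lt hM (IsFn.q2 hM) f1).2
  have h3 : IsSg M W (fun t => ∀ z, z < ap q2 t → (z ∈ X → z < ap q1 (ap q1 t))) := by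
    refine (IsD.ball (ρ := fun t z => z ∈ X → z < ap q1 (ap q1 t)) hM hI ?_ (IsFn.q2 hM)).1
    refine IsD.imp hM (hI.Am hM) (hX.comp hM (IsFn.q2 hM)) ?_
    exact IsD.lt hM (IsFn.q2 hM) (f1.comp hM (IsFn.q1 hM))
  have h4 : IsSg M W (fun t => ap q2 (ap q1 t) = gg (ap q2 t)) :=
    (IsD.eq hM f2 ((isFn_gg hM).comp hM (IsFn.q2 hM))).1
  have hA := hI.Am hM
  exact IsSg.ex (ρ := fun t y => y ∈ X ∧ ¬ y < ap q1 t ∧ (∀ z, z < y → z ∈ X → z < ap q1 t) ∧
    ap q2 t = gg y) hA (h1.and hM hA (h2.and hM hA (h3.and hM hA h4)))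

lemma Cr.exists {M W X : Set H} (hM : Good M) (hI : Ind M W) (hX : IsD M W (fun x => x ∈ X))
    (hXM : ∀ x ∈ X, x ∈ Mb) (hu : ∀ m ∈ M, ∃ x ∈ X, m ≤ x) : ∀ m ∈ Mb, ∃ v ∈ Mb, Cr X m v := by
  refine IsSg.transfer hM hI (IsSg.ex (hI.Am hM) (isSg_Cr hM hI hX)) ?_
  intro m hm
  have h1 : IsSg M W (fun y => y ∈ X ∧ ¬ y < m) :=
    hX.1.and hM (hI.Am hM) (IsD.lt hM (IsFn.id hM) (IsFn.const hm)).2
  obtain ⟨x, hx, hmx⟩ := hu m hm
  obtain ⟨y, hy, h2, h3⟩ := h1.least hM hI (hXM x hx) ⟨hx, not_lt.2 hmx⟩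
  refine ⟨gg y, (isFn_gg hM).memMb hM (hM.sub hy), y, hM.sub hy, h2.1, h2.2, ?_, rfl⟩
  intro z hz hzX
  by_contra hc
  exact absurd (h3 z ⟨hzX, hc⟩) (not_le.2 hz)

lemma Cr.mono_ge {X : Set H} {m v : H} (h : Cr X m v) : ∃ y ∈ X, m ≤ y ∧ v = gg y := by
  obtain ⟨y, _, hy, h1, _, h2⟩ := h
  exact ⟨y, hy, not_lt.1 h1, h2⟩

/-- The image of the part of `C` from `h` on under the colouring. -/
def Im (X : Set H) (C : H → Prop) (h v : H) : Prop := ∃ m ∈ Mb, C m ∧ ¬ m < h ∧ Cr X m v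

lemma isSg_Im {M W X : Set H} (hM : Good M) (hI : Ind M W) (hX : IsD M W (fun x => x ∈ X))
    {C : H → Prop} (hC : IsSg M W C) {h : H} (hh : h ∈ M) : IsSg M W (Im X C h) := by
  have hA := hI.Am hM
  have h1 : IsSg M W (fun t => C (ap q2 t)) := hC.comp hM (IsFn.q2 hM)
  have h2 : IsSg M W (fun t => ¬ ap q2 t < h) := (IsD.lt hM (IsFn.q2 hM) (IsFn.const hh)).2
  have h3 : IsSg M W (fun t => Cr X (ap q2 t) (ap q1 t)) := by
    have h4 := (isSg_Cr hM hI hX).comp hM ((IsFn.q2 hM).pr hM (IsFn.q1 hM))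
    refine h4.congr fun t _ => ?_
    rw [ap_q1, ap_q2]
  exact IsSg.ex (ρ := fun v m => C m ∧ ¬ m < h ∧ Cr X m v) hA (h1.and hM hA (h2.and hM hA h3))

/-- The images of unbounded sets are big. -/
lemma big_image {M W X : Set H} (hM : Good M) (hI : Ind M W) (hX : IsD M W (fun x => x ∈ X))
    (hXM : ∀ x ∈ X, x ∈ Mb) (hu : ∀ m ∈ M, ∃ x ∈ X, m ≤ x)
    (hcut : ∀ u ∈ M, u < bb → Lo0 X u ∨ Hi0 X u) {C : H → Prop} (hC : IsSg M W C)
    (hCu : Unb M C) {h : H} (hh : h ∈ M) {D : H}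
    (hD : ∀ v, mem v D ↔ v < bb ∧ Im X C h v) : BigD D := by
  intro K
  induction K generalizing h D with
  | zero =>
    obtain ⟨D, rfl⟩ := rep D
    exact Eventually.of_forall fun i => Nat.zero_le _
  | succ K ih =>
    obtain ⟨m, hm, hhm, hCm⟩ := hCu.wit hM hI hC hh
    -- the colour of `m`
    have h1 : IsSg M W (fun v => Cr X m v) := by
      have h4 := (isSg_Cr hM hI hX).comp hM ((IsFn.const hm).pr hM (IsFn.id hM))
      refine h4.congr fun t _ => ?_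
      rw [ap_q1, ap_q2]
    obtain ⟨v0, hv0, hv0'⟩ := Cr.exists hM hI hX hXM hu m (hM.sub hm)
    obtain ⟨v, hv, hvC⟩ := h1.wit hM hI hv0 hv0'
    have hvD : mem v D := by
      rw [hD]
      exact ⟨hvC.lt, m, hM.sub hm, hCm, not_lt.2 hhm, hvC⟩
    obtain ⟨h', hh', hne⟩ : ∃ h' ∈ Mb, ∀ x ∈ X, h' ≤ x → gg x ≠ v := by
      rcases hcut v hv hvC.lt with ⟨h', hh', h3⟩ | ⟨h', hh', h3⟩
      · exact ⟨h', hh', fun x hx hx2 => (h3 x hx hx2).ne'⟩
      · exact ⟨h', hh', fun x hx hx2 => (h3 x hx hx2).ne⟩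
    obtain ⟨h'', hh'', hle⟩ := hM.cof (Mb_add hh' (hM.sub hh))
    obtain ⟨D', hD', hD1⟩ := (isSg_Im hM hI hX hC hh'').code hI hM hM.bb
    have h5 := ih hh'' hD1
    have hvD' : ¬ mem v D' := by
      rw [hD1]
      rintro ⟨_, m', _, _, hm', hC'⟩
      obtain ⟨y, hy, h6, h7⟩ := hC'.mono_ge
      refine hne y hy ?_ h7.symm
      exact (le_max_left_add h' h).trans (hle.trans ((not_lt.1 hm').trans h6))
    have hsub : ∀ u, mem u D' → mem u D := by
      intro u hu'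
      rw [hD1] at hu'
      rw [hD]
      obtain ⟨h6, m', hm'M, hm'C, hm', hC'⟩ := hu'
      refine ⟨h6, m', hm'M, hm'C, ?_, hC'⟩
      exact not_lt.2 ((le_max_right_add h' h).trans (hle.trans (not_lt.1 hm')))
    clear hD hD1
    obtain ⟨D, rfl⟩ := rep D
    obtain ⟨D', rfl⟩ := rep D'
    obtain ⟨v, rfl⟩ := rep v
    have h6 := sub_coe hsub
    rw [mem_coe] at hvD
    rw [mem_coe, ev_not] at hvD'
    change ∀ᶠ i in U, K ≤ (fs (D' i)).card at h5
    change ∀ᶠ i in U, K + 1 ≤ (fs (D i)).card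
    filter_upwards [h5, h6, hvD, hvD'] with i d1 d2 d3 d4
    have h7 : (fs (D' i)).card < (fs (D i)).card :=
      Finset.card_lt_card ((Finset.ssubset_iff_of_subset d2).2 ⟨_, d3, d4⟩)
    omega

end

end Pool.Agent.Helper803.Cads
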