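import Pool.Agent.Helper803.Cads.Start

/-!
Treating one linear order: a generic subset deciding every element of the current model, and
the cuts which keep its new elements decided.
-/

namespace Pool.Agent.Helper803.Cads

open Filter
open scoped Classical

noncomputable section

/-- `R` is a linear order on `D`, as far as elements of `S` are concerned. -/
structure LinOn (S : Set H) (D : H → Prop) (R : H → H → Prop) : Prop where
  dom : ∀ x ∈ S, ∀ y ∈ S, R x y → D x ∧ D y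
  refl : ∀ x ∈ S, D x → R x x
  antisymm : ∀ x ∈ S, ∀ y ∈ S, R x y → R y x → x = y
  trans : ∀ x ∈ S, ∀ y ∈ S, ∀ z ∈ S, R x y → R y z → R x z
  total : ∀ x ∈ S, ∀ y ∈ S, D x → D y → R x y ∨ R y x

/-- Binary `Δ₁` relations. -/
def IsD2 (M W : Set H) (R : H → H → Prop) : Prop := IsD M W (fun t => R (ap q1 t) (ap q2 t))

lemma IsD2.comp {M W : Set H} (hM : Good M) {R : H → H → Prop} (hR : IsD2 M W R)
    {f g : H → H} (hf : IsFn M f) (hg : IsFn M g) : IsD M W (fun x => R (f x) (g x)) := by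
  have h := IsD.comp hM hR (hf.pr hM hg)
  refine h.congr fun x _ => ?_
  rw [ap_q1, ap_q2]

lemma IsD2.swap {M W : Set H} (hM : Good M) {R : H → H → Prop} (hR : IsD2 M W R) :
    IsD2 M W (fun x y => R y x) := hR.comp hM (IsFn.q2 hM) (IsFn.q1 hM)

lemma LinOn.swap {S : Set H} {D : H → Prop} {R : H → H → Prop} (h : LinOn S D R) :
    LinOn S D (fun x y => R y x) where
  dom := fun x hx y hy hr => (h.dom y hy x hx hr).symm
  refl := h.refl
  antisymm := fun x hx y hy h1 h2 => h.antisymm x hx y hy h2 h1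
  trans := fun x hx y hy z hz h1 h2 => h.trans z hz y hy x hx h2 h1
  total := fun x hx y hy h1 h2 => h.total y hy x hx h2 h1

/-- Elementarity for linear orders. -/
lemma LinOn.transfer {M W : Set H} (hM : Good M) (hI : Ind M W) {D : H → Prop}
    {R : H → H → Prop} (hD : IsD M W D) (hR : IsD2 M W R) (h : LinOn M D R) : LinOn Mb D R := by
  have hA := hI.Am hM
  have f1 := IsFn.q1 hM
  have f2 := IsFn.q2 hM
  have f21 : IsFn M (fun t => ap q1 (ap q2 t)) := f1.comp hM f2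
  have f22 : IsFn M (fun t => ap q2 (ap q2 t)) := f2.comp hM f2
  constructor
  · intro x hx y hy
    have h1 : IsD M W (fun t => R (ap q1 t) (ap q2 t) → D (ap q1 t) ∧ D (ap q2 t)) :=
      IsD.imp hM hA (hR.comp hM f1 f2) ((hD.comp hM f1).and hM hA (hD.comp hM f2))
    have h2 := h1.transfer hM hI (fun t ht => h.dom _ (hM.ap FF.q1 ht) _ (hM.ap FF.q2 ht))
      (pr x y) (Mb_pr hx hy)
    simpa using h2
  · intro x hx
    have h1 : IsD M W (fun t => D t → R t t) :=
      IsD.imp hM hA hD (hR.comp hM (IsFn.id hM) (IsFn.id hM))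
    exact h1.transfer hM hI (fun t ht => h.refl t ht) x hx
  · intro x hx y hy
    have h1 : IsD M W (fun t => R (ap q1 t) (ap q2 t) → R (ap q2 t) (ap q1 t) →
        ap q1 t = ap q2 t) :=
      IsD.imp hM hA (hR.comp hM f1 f2) (IsD.imp hM hA (hR.comp hM f2 f1) (IsD.eq hM f1 f2))
    have h2 := h1.transfer hM hI (fun t ht => h.antisymm _ (hM.ap FF.q1 ht) _ (hM.ap FF.q2 ht))
      (pr x y) (Mb_pr hx hy)
    simpa using h2
  · intro x hx y hy z hz
    have h1 : IsD M W (fun t => R (ap q1 t) (ap q1 (ap q2 t)) →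
        R (ap q1 (ap q2 t)) (ap q2 (ap q2 t)) → R (ap q1 t) (ap q2 (ap q2 t))) :=
      IsD.imp hM hA (hR.comp hM f1 f21) (IsD.imp hM hA (hR.comp hM f21 f22) (hR.comp hM f1 f22))
    have h2 := h1.transfer hM hI (fun t ht => h.trans _ (hM.ap FF.q1 ht) _
      (hM.ap FF.q1 (hM.ap FF.q2 ht)) _ (hM.ap FF.q2 (hM.ap FF.q2 ht)))
      (pr x (pr y z)) (Mb_pr hx (Mb_pr hy hz))
    simpa using h2
  · intro x hx y hy
    have h1 : IsD M W (fun t => D (ap q1 t) → D (ap q2 t) →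
        R (ap q1 t) (ap q2 t) ∨ R (ap q2 t) (ap q1 t)) :=
      IsD.imp hM hA (hD.comp hM f1) (IsD.imp hM hA (hD.comp hM f2)
        ((hR.comp hM f1 f2).or hM hA (hR.comp hM f2 f1)))
    have h2 := h1.transfer hM hI (fun t ht => h.total _ (hM.ap FF.q1 ht) _ (hM.ap FF.q2 ht))
      (pr x y) (Mb_pr hx hy)
    simpa using h2

/-- `u` is below almost all elements of `X`. -/
def LoX (X : Set H) (R : H → H → Prop) (u : H) : Prop := ∃ h ∈ Mb, ∀ y ∈ X, h ≤ y → R u y

/-- `u` is above almost all elements of `X`. -/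
def HiX (X : Set H) (R : H → H → Prop) (u : H) : Prop := ∃ h ∈ Mb, ∀ y ∈ X, h ≤ y → R y u

/-- Treating a linear order. -/
theorem treat {M W : Set H} (hM : Good M) (hI : Ind M W) {D : H → Prop} {R : H → H → Prop}
    (hD : IsD M W D) (hR : IsD2 M W R) (hL : LinOn M D R) (hu : Unb M D) :
    ∃ X : Set H, (∀ x ∈ X, x ∈ Mb ∧ D x) ∧ (∀ m ∈ M, ∃ x ∈ X, m ≤ x) ∧ Am X ∧
      Ind M (jn W X) ∧ ∀ u ∈ M, D u → LoX X R u ∨ HiX X R u := by
  have hA := hI.Am hM
  have hLM := hL.transfer hM hI hD hR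
  obtain ⟨e, he⟩ := hM.cnt.exists_eq_range ⟨0, hM.zero⟩
  have heM : ∀ k, e k ∈ M := fun k => by rw [he]; exact ⟨k, rfl⟩
  let C : Type := {A : H → Prop // IsSg M W A ∧ Unb M A ∧ ∀ x, A x → D x}
  have step : ∀ (k : ℕ) (A : C), ∃ A' : C, (∀ x, A'.1 x → A.1 x) ∧
      (D (e k) → (∀ x, A'.1 x → R (e k) x) ∨ ∀ x, A'.1 x → R x (e k)) := by
    rintro k ⟨A, hAs, hAu, hAD⟩
    by_cases hk : D (e k)
    · have g1 : IsSg M W (fun x => A x ∧ R (e k) x) :=
        hAs.and hM hA (hR.comp hM (IsFn.const (heM k)) (IsFn.id hM)).1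
      have g2 : IsSg M W (fun x => A x ∧ R x (e k)) :=
        hAs.and hM hA (hR.comp hM (IsFn.id hM) (IsFn.const (heM k))).1
      by_cases h1 : Unb M (fun x => A x ∧ R (e k) x)
      · exact ⟨⟨_, g1, h1, fun x hx => hAD x hx.1⟩, fun x hx => hx.1,
          fun _ => Or.inl fun x hx => hx.2⟩
      · refine ⟨⟨_, g2, ?_, fun x hx => hAD x hx.1⟩, fun x hx => hx.1,
          fun _ => Or.inr fun x hx => hx.2⟩
        unfold Unb at h1
        push Not at h1
        obtain ⟨m0, hm0, h2⟩ := h1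
        intro m hm
        obtain ⟨x, hx, hmx, hAx⟩ := hAu (m0 + m) (hM.add hm0 hm)
        have h3 := h2 x hx ((le_max_left_add m0 m).trans hmx) hAx
        refine ⟨x, hx, (le_max_right_add m0 m).trans hmx, hAx, ?_⟩
        rcases hLM.total (e k) (hM.sub (heM k)) x hx hk (hAD x hAx) with h4 | h4
        · exact absurd h4 h3
        · exact h4
    · exact ⟨⟨A, hAs, hAu, hAD⟩, fun x hx => hx, fun h => absurd h hk⟩
  choose f hf1 hf2 using step
  let A : ℕ → C := fun n => Nat.rec ⟨D, hD.1, hu, fun x hx => hx⟩ (fun k r => f k r) n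
  have hAs : ∀ k, A (k + 1) = f k (A k) := fun k => rfl
  obtain ⟨X, h1, h2, h3, h4, h5⟩ := generic hM hI (fun k => (A k).1) (fun k => (A k).2.1)
    (fun k => (A k).2.2.1) (fun k x hx => by
      rw [hAs] at hx
      exact hf1 k (A k) x hx)
  refine ⟨X, h1, h2, h4, h5, ?_⟩
  intro u hu' hDu
  rw [he] at hu'
  obtain ⟨k, rfl⟩ := hu'
  obtain ⟨h, hh, h6⟩ := h3 (k + 1)
  rw [hAs] at h6
  rcases hf2 k (A k) hDu with h7 | h7
  · exact Or.inl ⟨h, hM.sub hh, fun x hx hx2 => h7 x (h6 x hx hx2)⟩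
  · exact Or.inr ⟨h, hM.sub hh, fun x hx hx2 => h7 x (h6 x hx hx2)⟩

/-- The cuts belonging to a treated linear order. -/
lemma cutX {M W : Set H} (hM : Good M) (hI : Ind M W) {D : H → Prop} {R : H → H → Prop}
    (hD : IsD M W D) (hR : IsD2 M W R) (hL : LinOn M D R) {X : Set H}
    (hX : ∀ x ∈ X, x ∈ Mb ∧ D x) (hJ : Ind M (jn W X))
    (hdec : ∀ u ∈ M, D u → LoX X R u ∨ HiX X R u) {h : H} (hh : h ∈ M) :
    ∃ c : Cut, CutOK M c ∧ c.Dec M ∧ c.Lo = LoX X R ∧ c.Hi = HiX X R ∧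
      ∀ x, mem x c.s ↔ x < h ∧ x ∈ X := by
  have hLM := hL.transfer hM hI hD hR
  have hAJ := hJ.Am hM
  obtain ⟨s, hs, hs1⟩ := (IsD.right (W := W) (X := X) hM hAJ).1.code hJ hM hh
  obtain ⟨l, hl, hl1⟩ := code2 hM hI hR.1 hh
  have hlt : ∀ x, mem x s → x < h := fun x hx => ((hs1 x).1 hx).1
  have hmX : ∀ x, mem x s → x ∈ X := fun x hx => ((hs1 x).1 hx).2
  refine ⟨⟨s, l, LoX X R, HiX X R⟩, ?_, ?_, rfl, rfl, hs1⟩
  · constructor
    · exact hs
    · exact hl
    · intro x y hx hy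
      dsimp only at hx hy ⊢
      rw [hl1 x y (hlt x hx) (hlt y hy), hl1 y x (hlt y hy) (hlt x hx)]
      exact hLM.total x (hX x (hmX x hx)).1 y (hX y (hmX y hy)).1 (hX x (hmX x hx)).2
        (hX y (hmX y hy)).2
    · intro x y z hx hy hz
      dsimp only at hx hy hz ⊢
      rw [hl1 x y (hlt x hx) (hlt y hy), hl1 y z (hlt y hy) (hlt z hz),
        hl1 x z (hlt x hx) (hlt z hz)]
      exact hLM.trans x (hX x (hmX x hx)).1 y (hX y (hmX y hy)).1 z (hX z (hmX z hz)).1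
    · intro x y hx hy
      dsimp only at hx hy ⊢
      rw [hl1 x y (hlt x hx) (hlt y hy)]
      rintro hxy ⟨h0, hh0, h1⟩
      refine ⟨h0, hh0, fun z hz hz2 => ?_⟩
      exact hLM.trans x (hX x (hmX x hx)).1 y (hX y (hmX y hy)).1 z (hX z hz).1 hxy (h1 z hz hz2)
    · intro x y hx hy
      dsimp only at hx hy ⊢
      rw [hl1 x y (hlt x hx) (hlt y hy)]
      rintro hxy ⟨h0, hh0, h1⟩
      refine ⟨h0, hh0, fun z hz hz2 => ?_⟩
      exact hLM.trans z (hX z hz).1 x (hX x (hmX x hx)).1 y (hX y (hmX y hy)).1 (h1 z hz hz2) hxy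
  · intro u hu hus
    dsimp only at hus ⊢
    exact hdec u hu (hX u (hmX u hus)).2

/-- The cuts of the starting set. -/
lemma cut0 {M W : Set H} (hM : Good M) (hI : Ind M W) {X : Set H}
    (hdec : ∀ u ∈ M, u < bb → Lo0 X u ∨ Hi0 X u) :
    ∃ c : Cut, CutOK M c ∧ c.Dec M ∧ c.Lo = Lo0 X ∧ c.Hi = Hi0 X ∧ ∀ x, mem x c.s ↔ x < bb := by
  have hle : IsD2 M W (fun x y => ¬ y < x) := (IsD.lt hM (IsFn.q2 hM) (IsFn.q1 hM)).not
  obtain ⟨s, hs, hs1⟩ := (IsD.eq (W := W) hM (IsFn.const hM.zero)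
    (IsFn.const hM.zero)).1.code hI hM hM.bb
  have hs2 : ∀ x, mem x s ↔ x < bb := fun x => by rw [hs1]; simp
  obtain ⟨l, hl, hl1⟩ := code2 (R := fun x y => ¬ y < x) hM hI hle.1 hM.bb
  refine ⟨⟨s, l, Lo0 X, Hi0 X⟩, ?_, ?_, rfl, rfl, hs2⟩
  · constructor
    · exact hs
    · exact hl
    · intro x y hx hy
      dsimp only at hx hy ⊢
      rw [hs2] at hx hy
      rw [hl1 x y hx hy, hl1 y x hy hx, not_lt, not_lt]
      exact le_total x y
    · intro x y z hx hy hz
      dsimp only at hx hy hz ⊢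
      rw [hs2] at hx hy hz
      rw [hl1 x y hx hy, hl1 y z hy hz, hl1 x z hx hz, not_lt, not_lt, not_lt]
      exact le_trans
    · intro x y hx hy
      dsimp only at hx hy ⊢
      rw [hs2] at hx hy
      rw [hl1 x y hx hy, not_lt]
      rintro hxy ⟨h0, hh0, h1⟩
      exact ⟨h0, hh0, fun z hz hz2 => hxy.trans_lt (h1 z hz hz2)⟩
    · intro x y hx hy
      dsimp only at hx hy ⊢
      rw [hs2] at hx hy
      rw [hl1 x y hx hy, not_lt]
      rintro hxy ⟨h0, hh0, h1⟩
      exact ⟨h0, hh0, fun z hz hz2 => (h1 z hz hz2).trans_le hxy⟩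
  · intro u hu hus
    dsimp only at hus ⊢
    rw [hs2] at hus
    exact hdec u hu hus

/-- Least elements of bounded sets with respect to a linear order. -/
lemma rmin {M W : Set H} (hM : Good M) (hI : Ind M W) {D : H → Prop} {R : H → H → Prop}
    (hR : IsD2 M W R) (hL : LinOn Mb D R) {Q : H → Prop} (hQ : IsSg M W Q)
    (hQD : ∀ x ∈ Mb, Q x → D x) {h : H} (hh : h ∈ M) (hb : ∀ x ∈ Mb, Q x → x < h)
    (hne : ∃ x ∈ Mb, Q x) : ∃ x ∈ M, Q x ∧ ∀ y ∈ Mb, Q y → R x y := by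
  obtain ⟨s, hs, hs1⟩ := hQ.code hI hM hh
  obtain ⟨l, hl, hl1⟩ := code2 hM hI hR.1 hh
  have hlt : ∀ x, mem x s → x < h := fun x hx => ((hs1 x).1 hx).1
  have hMb : ∀ x, mem x s → x ∈ Mb := fun x hx => Mb_le (hlt x hx).le (hM.sub hh)
  have hmD : ∀ x, mem x s → D x := fun x hx => hQD x (hMb x hx) ((hs1 x).1 hx).2
  have tot : ∀ x y, mem x s → mem y s → mem (pr x y) l ∨ mem (pr y x) l := by
    intro x y hx hy
    rw [hl1 x y (hlt x hx) (hlt y hy), hl1 y x (hlt y hy) (hlt x hx)]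
    exact hL.total x (hMb x hx) y (hMb y hy) (hmD x hx) (hmD y hy)
  have trans : ∀ x y z, mem x s → mem y s → mem z s → mem (pr x y) l → mem (pr y z) l →
      mem (pr x z) l := by
    intro x y z hx hy hz
    rw [hl1 x y (hlt x hx) (hlt y hy), hl1 y z (hlt y hy) (hlt z hz),
        hl1 x z (hlt x hx) (hlt z hz)]
    exact hL.trans x (hMb x hx) y (hMb y hy) z (hMb z hz)
  obtain ⟨x0, hx0M, hx0⟩ := hne
  have hx0s : mem x0 s := (hs1 x0).2 ⟨hb x0 hx0M hx0, hx0⟩
  have key : mem (ap oRMin (pr s l)) s ∧ ∀ y, mem y s → mem (pr (ap oRMin (pr s l)) y) l := by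
    obtain ⟨s', es⟩ := rep s
    obtain ⟨l', el⟩ := rep l
    obtain ⟨x', ex⟩ := rep x0
    rw [es, el] at tot trans
    have c1 := tot_coe tot
    have c2 := trans_coe trans
    rw [es, ex, mem_coe] at hx0s
    have c3 : ∀ᶠ i in U, oRMin (Nat.pair (s' i) (l' i)) ∈ fs (s' i) ∧
        ∀ y ∈ fs (s' i), Nat.pair (oRMin (Nat.pair (s' i) (l' i))) y ∈ fs (l' i) := by
      filter_upwards [c1, c2, hx0s] with i d1 d2 d3
      have hex : ∃ x ∈ fs (s' i), ∀ y ∈ fs (s' i), Nat.pair x y ∈ fs (l' i) := by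
        obtain ⟨x, hx, h1⟩ := Finset.exists_max_image (fs (s' i))
          (fun x => ((fs (s' i)).filter (fun y => Nat.pair x y ∈ fs (l' i))).card) ⟨_, d3⟩
        refine ⟨x, hx, fun y hy => ?_⟩
        by_contra hc
        have h2 := h1 y hy
        have h3 : Nat.pair y x ∈ fs (l' i) := (d1 x y hx hy).resolve_left hc
        have h4 : (fs (s' i)).filter (fun z => Nat.pair x z ∈ fs (l' i)) ⊂
            (fs (s' i)).filter (fun z => Nat.pair y z ∈ fs (l' i)) := by
          rw [Finset.ssubset_iff_of_subset]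
          · refine ⟨y, ?_, ?_⟩
            · rw [Finset.mem_filter]
              refine ⟨hy, ?_⟩
              rcases d1 y y hy hy with h | h <;> exact h
            · rw [Finset.mem_filter]
              exact fun h => hc h.2
          · intro z hz
            rw [Finset.mem_filter] at hz ⊢
            exact ⟨hz.1, d2 y x z hy hx hz.1 h3 hz.2⟩
        have h5 := Finset.card_lt_card h4
        omega
      simp only [oRMin, q1_pair, q2_pair]
      rw [dif_pos hex]
      exact hex.choose_spec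
    rw [es, el, pr_coe, ap_coe]
    constructor
    · rw [mem_coe]
      exact c3.mono fun i hi => hi.1
    · intro y hy
      obtain ⟨y, rfl⟩ := rep y
      rw [mem_coe] at hy
      rw [pr_coe, mem_coe]
      filter_upwards [c3, hy] with i d1 d2
      exact d1.2 _ d2
  refine ⟨_, hM.ap FF.oRMin (hM.pr hs hl), ((hs1 _).1 key.1).2, ?_⟩
  intro y hy hQy
  have hys : mem y s := (hs1 y).2 ⟨hb y hy hQy, hQy⟩
  have h1 := key.2 y hys
  rwa [hl1 _ _ (hlt _ key.1) (hlt y hys)] at h1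

end

end Pool.Agent.Helper803.Cads
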